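import Mathlib

set_option autoImplicit false
open Finset MeasureTheory

namespace Pool.Agent.Littlewood

/-- `E d x = exp(2 pi i d x)` -/
noncomputable def E (d : ℤ) (x : ℝ) : ℂ := Complex.exp (2 * Real.pi * Complex.I * d * x)

lemma E_add (d e : ℤ) (x : ℝ) : E (d + e) x = E d x * E e x := by
  unfold E; rw [← Complex.exp_add]; congr 1; push_cast; ring

lemma E_zero (x : ℝ) : E 0 x = 1 := by simp [E]

lemma conj_E (d : ℤ) (x : ℝ) : (starRingEnd ℂ) (E d x) = E (-d) x := by
  unfold E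
  rw [← Complex.exp_conj]
  congr 1
  simp only [map_mul, Complex.conj_ofReal, Complex.conj_I, map_intCast, map_ofNat]
  push_cast
  ring

lemma norm_E (d : ℤ) (x : ℝ) : ‖E d x‖ = 1 := by
  unfold E
  have : (2 * Real.pi * Complex.I * d * x : ℂ) = ((2 * Real.pi * d * x : ℝ) : ℂ) * Complex.I := by
    push_cast; ring
  rw [this, Complex.norm_exp_ofReal_mul_I]

lemma continuous_E (d : ℤ) : Continuous (E d) := by
  unfold E
  fun_prop

lemma E_pow (d : ℤ) (x : ℝ) (m : ℕ) : E d x ^ m = E (d * m) x := by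
  unfold E
  rw [← Complex.exp_nat_mul]
  congr 1
  push_cast; ring

lemma E_periodic (d : ℤ) : Function.Periodic (E d) 1 := by
  intro x
  unfold E
  rw [Complex.exp_eq_exp_iff_exists_int]
  exact ⟨d, by push_cast; ring⟩

/-- mean value property -/
lemma integral_comp_E_neg_one {h : ℂ → ℂ} (hh : Differentiable ℂ h) :
    ∫ x in (0:ℝ)..1, h (E (-1) x) = h 0 := by
  have h1 : Real.circleAverage (fun z => h z) 0 1 = h 0 := by
    refine DiffContOnCl.circleAverage (c := 0) (R := 1) (f := h) ?_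
    exact hh.diffContOnCl
  have h2 : Real.circleAverage (fun z => h z⁻¹) 0 1 = h 0 := by
    rw [← h1]
    exact Real.circleAverage_zero_one_congr_inv (f := h)
  rw [Real.circleAverage_def] at h2
  have h3 : ∀ θ : ℝ, (circleMap 0 1 θ)⁻¹ = E (-1) (θ / (2 * Real.pi)) := by
    intro θ
    unfold E circleMap
    rw [zero_add, Complex.ofReal_one, one_mul, ← Complex.exp_neg]
    congr 1
    push_cast
    have : (Real.pi : ℂ) ≠ 0 := by exact_mod_cast Real.pi_ne_zero
    field_simp
  simp_rw [h3] at h2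
  have h4 : ∫ θ in (0:ℝ)..2 * Real.pi, h (E (-1) (θ / (2 * Real.pi))) =
      (2 * Real.pi) • ∫ x in (0:ℝ)..1, h (E (-1) x) := by
    have := intervalIntegral.integral_comp_div (a := 0) (b := 2 * Real.pi)
      (fun x => h (E (-1) x)) (c := 2 * Real.pi) (by positivity)
    rw [this, zero_div, div_self (by positivity)]
  rw [h4, smul_smul, inv_mul_cancel₀ (by positivity), one_smul] at h2
  exact h2

lemma integral_mul_E_neg {h : ℂ → ℂ} (hh : Differentiable ℂ h) (m : ℕ) :
    ∫ x in (0:ℝ)..1, h (E (-1) x) * E (-(m : ℤ)) x = if m = 0 then h 0 else 0 := by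
  have h1 : ∀ x : ℝ, h (E (-1) x) * E (-(m : ℤ)) x = (fun z => h z * z ^ m) (E (-1) x) := by
    intro x
    show _ = h (E (-1) x) * E (-1) x ^ m
    rw [E_pow]; congr 2; ring
  have h2 := integral_comp_E_neg_one (h := fun z => h z * z ^ m) (hh.mul (differentiable_id.pow m))
  have h3 : ∫ x in (0:ℝ)..1, h (E (-1) x) * E (-(m : ℤ)) x =
      ∫ x in (0:ℝ)..1, (fun z => h z * z ^ m) (E (-1) x) := by
    refine intervalIntegral.integral_congr fun x _ => h1 x
  rw [h3, h2]
  by_cases hm : m = 0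
  · simp [hm]
  · simp [hm]

lemma integral_E (d : ℤ) : ∫ x in (0:ℝ)..1, E d x = if d = 0 then 1 else 0 := by
  have key : ∀ m : ℕ, ∫ x in (0:ℝ)..1, E (-(m : ℤ)) x = if m = 0 then 1 else 0 := by
    intro m
    have := integral_mul_E_neg (h := fun _ => 1) (differentiable_const 1) m
    simpa using this
  rcases le_total d 0 with h | h
  · obtain ⟨m, hm⟩ := Int.eq_ofNat_of_zero_le (neg_nonneg.2 h)
    have hd : d = -(m : ℤ) := by rw [← hm]; ring
    rw [hd, key m]
    by_cases hm0 : m = 0 <;> simp [hm0]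
  · obtain ⟨m, hm⟩ := Int.eq_ofNat_of_zero_le h
    have hk := key m
    have h2 : ∫ x in (0:ℝ)..1, E d x = (starRingEnd ℂ) (∫ x in (0:ℝ)..1, E (-(m : ℤ)) x) := by
      rw [intervalIntegral.integral_of_le zero_le_one, intervalIntegral.integral_of_le zero_le_one,
        ← integral_conj]
      refine integral_congr_ae (Filter.Eventually.of_forall fun x => ?_)
      simp only
      rw [conj_E, neg_neg, ← hm]
    rw [h2, hk]
    by_cases hm0 : m = 0
    · simp [hm0, hm]
    · have : d ≠ 0 := by rw [hm]; exact_mod_cast hm0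
      simp [hm0, this]

/-- trigonometric majorant -/
lemma exists_poly {g : ℝ → ℝ} (hg : Continuous g) (hp : Function.Periodic g 1) {ε : ℝ} (hε : 0 < ε) :
    ∃ P : Polynomial ℂ, (P.eval 0).im = 0 ∧
      ∀ x : ℝ, g x ≤ (P.eval (E (-1) x)).re ∧ (P.eval (E (-1) x)).re ≤ g x + ε := by
  have : Fact (0 < (1:ℝ)) := ⟨one_pos⟩
  have hgl : Continuous (hp.lift : AddCircle (1:ℝ) → ℝ) := by
    refine continuous_coinduced_dom.2 ?_
    exact hg
  let G : C(AddCircle (1:ℝ), ℂ) := ⟨fun y => ((hp.lift y + ε / 2 : ℝ) : ℂ), by fun_prop⟩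
  have hdense : G ∈ (Submodule.span ℂ (Set.range (fourier (T := (1:ℝ))))).topologicalClosure := by
    rw [span_fourier_closure_eq_top]; trivial
  have hcl : G ∈ closure ((Submodule.span ℂ (Set.range (fourier (T := (1:ℝ))))) : Set C(AddCircle (1:ℝ), ℂ)) := hdense
  obtain ⟨t, ht, htG⟩ := Metric.mem_closure_iff.1 hcl (ε / 2) (by positivity)
  have key : ∃ P Q : Polynomial ℂ, ∀ x : ℝ, t (x : AddCircle (1:ℝ)) =
      P.eval (E (-1) x) + (starRingEnd ℂ) (Q.eval (E (-1) x)) := by
    refine Submodule.span_induction (p := fun t _ => ∃ P Q : Polynomial ℂ, ∀ x : ℝ,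
      t (x : AddCircle (1:ℝ)) = P.eval (E (-1) x) + (starRingEnd ℂ) (Q.eval (E (-1) x)))
      ?_ ?_ ?_ ?_ ht
    · rintro _ ⟨n, rfl⟩
      have hf : ∀ x : ℝ, fourier n (x : AddCircle (1:ℝ)) = E n x := by
        intro x
        rw [fourier_coe_apply]
        unfold E
        congr 1
        push_cast
        ring
      rcases le_total n 0 with h | h
      · obtain ⟨m, hm⟩ := Int.eq_ofNat_of_zero_le (neg_nonneg.2 h)
        refine ⟨Polynomial.X ^ m, 0, fun x => ?_⟩
        rw [hf]
        simp only [Polynomial.eval_pow, Polynomial.eval_X, Polynomial.eval_zero, map_zero, add_zero]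
        rw [E_pow]; congr 1; rw [← hm]; ring
      · obtain ⟨m, hm⟩ := Int.eq_ofNat_of_zero_le h
        refine ⟨0, Polynomial.X ^ m, fun x => ?_⟩
        rw [hf]
        simp only [Polynomial.eval_pow, Polynomial.eval_X, Polynomial.eval_zero, zero_add]
        rw [E_pow, conj_E]; congr 1; rw [hm]; ring
    · exact ⟨0, 0, fun x => by simp⟩
    · rintro t₁ t₂ _ _ ⟨P₁, Q₁, h₁⟩ ⟨P₂, Q₂, h₂⟩
      refine ⟨P₁ + P₂, Q₁ + Q₂, fun x => ?_⟩
      simp only [ContinuousMap.add_apply, Polynomial.eval_add, map_add, h₁, h₂]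
      ring
    · rintro c t₁ _ ⟨P₁, Q₁, h₁⟩
      refine ⟨Polynomial.C c * P₁, Polynomial.C ((starRingEnd ℂ) c) * Q₁, fun x => ?_⟩
      simp only [ContinuousMap.smul_apply, Polynomial.eval_mul, Polynomial.eval_C, map_mul, h₁,
        smul_eq_mul, Complex.conj_conj]
      ring
  obtain ⟨P, Q, hPQ⟩ := key
  have hre : ∀ x : ℝ, |((P + Q).eval (E (-1) x)).re - (g x + ε / 2)| ≤ ε / 2 := by
    intro x
    have h1 : ((P + Q).eval (E (-1) x)).re = (t (x : AddCircle (1:ℝ))).re := by
      rw [hPQ]; simp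
    have h2 : (G (x : AddCircle (1:ℝ))) = ((g x + ε / 2 : ℝ) : ℂ) := by
      simp only [G, ContinuousMap.coe_mk]
      rw [Function.Periodic.lift_coe]
    have h3 : ‖G (x : AddCircle (1:ℝ)) - t (x : AddCircle (1:ℝ))‖ ≤ ε / 2 := by
      have := ContinuousMap.dist_apply_le_dist (f := G) (g := t) (x : AddCircle (1:ℝ))
      rw [dist_eq_norm] at this
      exact this.trans htG.le
    have h4 := (Complex.abs_re_le_norm (G (x : AddCircle (1:ℝ)) - t (x : AddCircle (1:ℝ)))).trans h3
    rw [h2, Complex.sub_re, Complex.ofReal_re] at h4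
    rw [h1, abs_sub_comm]
    exact h4
  refine ⟨P + Q - Polynomial.C (((P + Q).eval 0).im * Complex.I), ?_, fun x => ?_⟩
  · simp
  · have h1 : ((P + Q - Polynomial.C (((P + Q).eval 0).im * Complex.I)).eval (E (-1) x)).re =
        ((P + Q).eval (E (-1) x)).re := by
      simp
    rw [h1]
    have := abs_le.1 (hre x)
    constructor <;> linarith

end Pool.Agent.Littlewood
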