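import Mathlib

set_option autoImplicit false
open Finset

namespace Pool.Agent.Littlewood

lemma exp_le_of_nonneg_le_one {v : ℝ} (h0 : 0 ≤ v) (h1 : v ≤ 1) : Real.exp v ≤ 1 + v + v ^ 2 := by
  have := Real.abs_exp_sub_one_sub_id_le (x := v) (by rw [abs_of_nonneg h0]; exact h1)
  have := abs_le.1 this
  linarith

lemma exp_neg_le {v : ℝ} (h0 : 0 ≤ v) (h1 : v ≤ 1) : Real.exp (-v) ≤ 1 - v + v ^ 2 := by
  have := Real.abs_exp_sub_one_sub_id_le (x := -v) (by rw [abs_neg, abs_of_nonneg h0]; exact h1)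
  have := abs_le.1 this
  nlinarith

lemma cosh_add_mul_sinh_le {v t : ℝ} (h0 : 0 ≤ v) (h1 : v ≤ 1) (ht0 : 0 ≤ t) (ht1 : t ≤ 1) :
    Real.cosh v + t * Real.sinh v ≤ Real.exp (t * v + 2 * v ^ 2) := by
  have e1 := exp_le_of_nonneg_le_one h0 h1
  have e2 := exp_neg_le h0 h1
  have e3 : 1 - v ≤ Real.exp (-v) := by have := Real.add_one_le_exp (-v); linarith
  have hc : Real.cosh v ≤ 1 + v ^ 2 := by rw [Real.cosh_eq]; linarith
  have hs : Real.sinh v ≤ v + v ^ 2 := by rw [Real.sinh_eq]; nlinarith [sq_nonneg v]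
  have h3 := Real.add_one_le_exp (t * v + 2 * v ^ 2)
  have h4 : t * Real.sinh v ≤ t * (v + v ^ 2) := mul_le_mul_of_nonneg_left hs ht0
  nlinarith [sq_nonneg v, mul_nonneg ht0 (sq_nonneg v)]

/-- `log cosh (2x)` -/
noncomputable def phi (x : ℝ) : ℝ := Real.log (Real.cosh (2 * x))

lemma phi_nonneg (x : ℝ) : 0 ≤ phi x := Real.log_nonneg (Real.one_le_cosh _)

lemma exp_phi (x : ℝ) : Real.exp (phi x) = Real.cosh (2 * x) := Real.exp_log (Real.cosh_pos _)

lemma tanh_nonneg {x : ℝ} (hx : 0 ≤ x) : 0 ≤ Real.tanh x := by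
  rw [Real.tanh_eq_sinh_div_cosh]
  exact div_nonneg (Real.sinh_nonneg_iff.2 hx) (Real.cosh_pos _).le

lemma tanh_le_one (x : ℝ) : Real.tanh x ≤ 1 := (Real.tanh_lt_one x).le

lemma phi_add_le {x a : ℝ} (hx : 0 ≤ x) (ha : 0 ≤ a) (ha' : a ≤ 1 / 2) :
    phi (x + a) ≤ phi x + 2 * a * Real.tanh (2 * x) + 8 * a ^ 2 := by
  have h := cosh_add_mul_sinh_le (v := 2 * a) (t := Real.tanh (2 * x)) (by linarith) (by linarith)
    (tanh_nonneg (by linarith)) (tanh_le_one _)
  have hcp := Real.cosh_pos (2 * x)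
  have h2 : Real.cosh (2 * (x + a)) ≤ Real.cosh (2 * x) *
      Real.exp (Real.tanh (2 * x) * (2 * a) + 2 * (2 * a) ^ 2) := by
    calc Real.cosh (2 * (x + a)) = Real.cosh (2 * x) *
          (Real.cosh (2 * a) + Real.tanh (2 * x) * Real.sinh (2 * a)) := by
          rw [mul_add 2 x a, Real.cosh_add, Real.tanh_eq_sinh_div_cosh]
          field_simp
      _ ≤ _ := mul_le_mul_of_nonneg_left h hcp.le
  have h3 := Real.log_le_log (Real.cosh_pos _) h2
  rw [Real.log_mul hcp.ne' (Real.exp_pos _).ne', Real.log_exp] at h3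
  unfold phi
  nlinarith

/-- `Θ(φ(x))`. -/
noncomputable def V (x : ℝ) : ℝ := 2 * phi x - Real.tanh (2 * x) ^ 2

lemma theta_phi (x : ℝ) : Real.exp (-2 * phi x) - 1 + 2 * phi x = V x := by
  have h1 : Real.exp (-2 * phi x) = 1 - Real.tanh (2 * x) ^ 2 := by
    have : Real.exp (-2 * phi x) = (Real.exp (phi x) ^ 2)⁻¹ := by
      rw [← Real.exp_nat_mul, ← Real.exp_neg]; congr 1; push_cast; ring
    rw [this, exp_phi, Real.tanh_eq_sinh_div_cosh]
    have h2 := Real.cosh_sq (2 * x)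
    have hcp := (Real.cosh_pos (2 * x)).ne'
    field_simp
    linarith
  rw [h1, V]; ring

/-- Pathwise inequality. -/
lemma pathwise {η : ℝ} (hη : 0 < η) (K : ℕ) (a : ℕ → ℝ) (ha : ∀ i, 0 ≤ a i) (ha' : ∀ i, a i ≤ 1 / 2) :
    ∑ i ∈ range K, Real.exp (η * i) * V (∑ l ∈ Ico (i + 1) K, a l) ≤
      4 / η ^ 2 * (1 + 4 * η) * ∑ i ∈ range K, Real.exp (η * i) * a i ^ 2 := by
  set Y : ℕ → ℝ := fun j => ∑ l ∈ Ico j K, a l with hY
  have hY0 : ∀ j, 0 ≤ Y j := fun j => Finset.sum_nonneg fun l _ => ha l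
  have hYs : ∀ i ∈ range K, Y i = Y (i + 1) + a i := by
    intro i hi
    have hi' := Finset.mem_range.1 hi
    simp only [hY]
    rw [Finset.sum_eq_sum_Ico_succ_bot hi', add_comm]
  have hstep : ∀ i ∈ range K, Real.exp (η * i) * (η * V (Y (i + 1)) - 4 / η * (1 + 4 * η) * a i ^ 2) ≤
      Real.exp (η * (i + 1 : ℕ)) * (2 * phi (Y (i + 1))) - Real.exp (η * i) * (2 * phi (Y i)) := by
    intro i hi
    rw [hYs i hi]
    have h1 := phi_add_le (hY0 (i + 1)) (ha i) (ha' i)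
    have h2 : Real.exp (η * (i + 1 : ℕ)) = Real.exp (η * i) * Real.exp η := by
      rw [← Real.exp_add]; congr 1; push_cast; ring
    rw [h2]
    have h3 : 1 + η ≤ Real.exp η := by have := Real.add_one_le_exp η; linarith
    have h4 : 0 < Real.exp (η * i) := Real.exp_pos _
    have h5 : Real.exp (η * i) * Real.exp η * (2 * phi (Y (i + 1))) -
        Real.exp (η * i) * (2 * phi (Y (i + 1) + a i)) =
        Real.exp (η * i) * (Real.exp η * (2 * phi (Y (i + 1))) - 2 * phi (Y (i + 1) + a i)) := by ring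
    rw [h5]
    refine mul_le_mul_of_nonneg_left ?_ h4.le
    have h6 := phi_nonneg (Y (i + 1))
    have h7 : (1 + η) * (2 * phi (Y (i + 1))) ≤ Real.exp η * (2 * phi (Y (i + 1))) :=
      mul_le_mul_of_nonneg_right h3 (by linarith)
    have h8 : 4 * a i * Real.tanh (2 * Y (i + 1)) ≤ η * Real.tanh (2 * Y (i + 1)) ^ 2 + 4 / η * a i ^ 2 := by
      have : 0 ≤ (η * Real.tanh (2 * Y (i + 1)) - 2 * a i) ^ 2 / η := by positivity
      have e : (η * Real.tanh (2 * Y (i + 1)) - 2 * a i) ^ 2 / η =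
          η * Real.tanh (2 * Y (i + 1)) ^ 2 + 4 / η * a i ^ 2 - 4 * a i * Real.tanh (2 * Y (i + 1)) := by
        field_simp; ring
      linarith
    have h9 : 4 / η * (1 + 4 * η) * a i ^ 2 = 4 / η * a i ^ 2 + 16 * a i ^ 2 := by
      field_simp; ring
    rw [h9]
    unfold V
    nlinarith
  have hsum := Finset.sum_le_sum hstep
  have htel : ∑ i ∈ range K, (Real.exp (η * (i + 1 : ℕ)) * (2 * phi (Y (i + 1))) -
      Real.exp (η * i) * (2 * phi (Y i))) =
      Real.exp (η * K) * (2 * phi (Y K)) - Real.exp (η * (0 : ℕ)) * (2 * phi (Y 0)) :=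
    Finset.sum_range_sub (fun i => Real.exp (η * (i : ℕ)) * (2 * phi (Y i))) K
  rw [htel] at hsum
  have hYK : Y K = 0 := by simp [hY]
  have hphi0 : phi 0 = 0 := by simp [phi]
  rw [hYK, hphi0, mul_zero, mul_zero, zero_sub] at hsum
  have hle : Real.exp (η * (0 : ℕ)) * (2 * phi (Y 0)) ≥ 0 := by
    have := phi_nonneg (Y 0); positivity
  have hsum2 : ∑ i ∈ range K, Real.exp (η * i) * (η * V (Y (i + 1)) - 4 / η * (1 + 4 * η) * a i ^ 2) ≤ 0 :=
    hsum.trans (neg_nonpos.2 hle)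
  have e1 : ∑ i ∈ range K, Real.exp (η * i) * (η * V (Y (i + 1)) - 4 / η * (1 + 4 * η) * a i ^ 2) =
      η * ∑ i ∈ range K, Real.exp (η * i) * V (Y (i + 1)) -
        4 / η * (1 + 4 * η) * ∑ i ∈ range K, Real.exp (η * i) * a i ^ 2 := by
    rw [Finset.mul_sum, Finset.mul_sum, ← Finset.sum_sub_distrib]
    refine Finset.sum_congr rfl fun i _ => ?_
    ring
  rw [e1] at hsum2
  have e2 : 4 / η ^ 2 * (1 + 4 * η) * ∑ i ∈ range K, Real.exp (η * i) * a i ^ 2 =
      (4 / η * (1 + 4 * η) * ∑ i ∈ range K, Real.exp (η * i) * a i ^ 2) / η := by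
    field_simp
  rw [e2, le_div_iff₀ hη, mul_comm]
  linarith

/-- the antiderivative bound. -/
lemma mul_inv_cosh_le {x a : ℝ} (hx : 0 ≤ x) (ha : 0 ≤ a) :
    a * (Real.cosh (2 * (x + a)))⁻¹ ≤ Real.arctan (Real.exp (2 * (x + a))) - Real.arctan (Real.exp (2 * x)) := by
  have hder : ∀ t : ℝ, HasDerivAt (fun t => Real.arctan (Real.exp (2 * t))) ((Real.cosh (2 * t))⁻¹) t := by
    intro t
    have h1 : HasDerivAt (fun t : ℝ => Real.exp (2 * t)) (Real.exp (2 * t) * 2) t := by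
      have := ((hasDerivAt_id t).const_mul (2 : ℝ)).exp
      simpa using this
    have h2 := h1.arctan
    convert h2 using 1
    rw [Real.cosh_eq, Real.exp_neg]
    have := Real.exp_pos (2 * t)
    field_simp
    ring
  have hmono : ∀ t ∈ interior (Set.Icc x (x + a)), (Real.cosh (2 * (x + a)))⁻¹ ≤
      deriv (fun t => Real.arctan (Real.exp (2 * t))) t := by
    intro t ht
    rw [interior_Icc] at ht
    rw [(hder t).deriv]
    refine inv_anti₀ (Real.cosh_pos _) ?_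
    rw [Real.cosh_le_cosh, abs_of_nonneg (by linarith [ht.1]), abs_of_nonneg (by linarith)]
    linarith [ht.2]
  have := (convex_Icc x (x + a)).mul_sub_le_image_sub_of_le_deriv
    (f := fun t => Real.arctan (Real.exp (2 * t)))
    (fun t _ => (hder t).continuousAt.continuousWithinAt)
    (fun t _ => (hder t).differentiableAt.differentiableWithinAt) hmono x (Set.left_mem_Icc.2 (by linarith))
    (x + a) (Set.right_mem_Icc.2 (by linarith)) (by linarith)
  have e : x + a - x = a := by ring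
  rw [e] at this
  rw [mul_comm]
  exact this

lemma cosh_add_le_exp_mul {u v : ℝ} (hv : 0 ≤ v) : Real.cosh (u + v) ≤ Real.exp v * Real.cosh u := by
  rw [Real.cosh_eq, Real.cosh_eq, Real.exp_add]
  have h1 : Real.exp (-(u + v)) ≤ Real.exp v * Real.exp (-u) := by
    rw [← Real.exp_add]
    exact Real.exp_le_exp.2 (by linarith)
  have := Real.exp_pos u
  nlinarith

lemma sup_bound {β : ℝ} (K : ℕ) (a : ℕ → ℝ) (ha : ∀ i, 0 ≤ a i) (ha' : ∀ i, a i ≤ β) :
    ∑ i ∈ range K, a i * Real.exp (-phi (∑ l ∈ Ico (i + 1) K, a l)) ≤ Real.exp (2 * β) * (Real.pi / 4) := by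
  set Y : ℕ → ℝ := fun j => ∑ l ∈ Ico j K, a l with hY
  have hY0 : ∀ j, 0 ≤ Y j := fun j => Finset.sum_nonneg fun l _ => ha l
  have hYs : ∀ i ∈ range K, Y i = Y (i + 1) + a i := by
    intro i hi
    have hi' := Finset.mem_range.1 hi
    simp only [hY]
    rw [Finset.sum_eq_sum_Ico_succ_bot hi', add_comm]
  have hstep : ∀ i ∈ range K, a i * Real.exp (-phi (Y (i + 1))) ≤
      Real.exp (2 * β) * (Real.arctan (Real.exp (2 * Y i)) - Real.arctan (Real.exp (2 * Y (i + 1)))) := by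
    intro i hi
    rw [hYs i hi]
    have h1 := mul_inv_cosh_le (hY0 (i + 1)) (ha i)
    have h2 : Real.exp (-phi (Y (i + 1))) = (Real.cosh (2 * Y (i + 1)))⁻¹ := by
      rw [Real.exp_neg, exp_phi]
    have h3 : (Real.cosh (2 * Y (i + 1)))⁻¹ ≤ Real.exp (2 * β) * (Real.cosh (2 * (Y (i + 1) + a i)))⁻¹ := by
      have h4 := cosh_add_le_exp_mul (u := 2 * Y (i + 1)) (v := 2 * a i) (by linarith [ha i])
      have h5 : Real.exp (2 * a i) ≤ Real.exp (2 * β) := Real.exp_le_exp.2 (by linarith [ha' i])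
      have h6 := Real.cosh_pos (2 * Y (i + 1))
      have h7 := Real.cosh_pos (2 * (Y (i + 1) + a i))
      rw [← div_eq_mul_inv, le_div_iff₀ h7, inv_mul_le_iff₀ h6]
      calc Real.cosh (2 * (Y (i + 1) + a i)) = Real.cosh (2 * Y (i + 1) + 2 * a i) := by ring_nf
        _ ≤ Real.exp (2 * a i) * Real.cosh (2 * Y (i + 1)) := h4
        _ ≤ Real.exp (2 * β) * Real.cosh (2 * Y (i + 1)) := by gcongr
        _ = _ := by ring
    rw [h2]
    calc a i * (Real.cosh (2 * Y (i + 1)))⁻¹ ≤ a i * (Real.exp (2 * β) * (Real.cosh (2 * (Y (i + 1) + a i)))⁻¹) :=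
          mul_le_mul_of_nonneg_left h3 (ha i)
      _ = Real.exp (2 * β) * (a i * (Real.cosh (2 * (Y (i + 1) + a i)))⁻¹) := by ring
      _ ≤ _ := mul_le_mul_of_nonneg_left h1 (Real.exp_pos _).le
  refine (Finset.sum_le_sum hstep).trans ?_
  rw [← Finset.mul_sum]
  refine mul_le_mul_of_nonneg_left ?_ (Real.exp_pos _).le
  have htel : ∑ i ∈ range K, (Real.arctan (Real.exp (2 * Y i)) - Real.arctan (Real.exp (2 * Y (i + 1)))) =
      Real.arctan (Real.exp (2 * Y 0)) - Real.arctan (Real.exp (2 * Y K)) :=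
    Finset.sum_range_sub' (fun i => Real.arctan (Real.exp (2 * Y i))) K
  rw [htel]
  have hYK : Y K = 0 := by simp [hY]
  rw [hYK, mul_zero, Real.exp_zero, Real.arctan_one]
  have := Real.arctan_lt_pi_div_two (Real.exp (2 * Y 0))
  linarith

end Pool.Agent.Littlewood
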