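import Mathlib
import Pool.Agent.Lib.MP_d1728b_an.RealLemmas
import Pool.Agent.Lib.MP_d1728b_an.Fourier

set_option autoImplicit false
open Finset MeasureTheory

namespace Pool.Agent.Littlewood

lemma ofReal_norm_sq (z : ℂ) : ((‖z‖ ^ 2 : ℝ) : ℂ) = z * (starRingEnd ℂ) z := by
  rw [Complex.mul_conj, Complex.normSq_eq_norm_sq]

/-- Parseval for finite sums. -/
lemma integral_norm_sq_sum {ι : Type*} (s : Finset ι) (c : ι → ℝ) (d : ι → ℤ) :
    ∫ x in (0:ℝ)..1, ‖∑ i ∈ s, (c i : ℂ) * E (d i) x‖ ^ 2 =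
      ∑ i ∈ s, ∑ j ∈ s, if d i = d j then c i * c j else 0 := by
  have h1 : ((∫ x in (0:ℝ)..1, ‖∑ i ∈ s, (c i : ℂ) * E (d i) x‖ ^ 2 : ℝ) : ℂ) =
      ∑ i ∈ s, ∑ j ∈ s, ((if d i = d j then c i * c j else 0 : ℝ) : ℂ) := by
    rw [← intervalIntegral.integral_ofReal]
    have h2 : ∀ x : ℝ, ((‖∑ i ∈ s, (c i : ℂ) * E (d i) x‖ ^ 2 : ℝ) : ℂ) =
        ∑ i ∈ s, ∑ j ∈ s, ((c i * c j : ℝ) : ℂ) * E (d i - d j) x := by
      intro x
      rw [ofReal_norm_sq, map_sum, Finset.sum_mul_sum]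
      refine Finset.sum_congr rfl fun i _ => Finset.sum_congr rfl fun j _ => ?_
      rw [map_mul, Complex.conj_ofReal, conj_E, sub_eq_add_neg, E_add]
      push_cast; ring
    rw [intervalIntegral.integral_congr (fun x _ => h2 x)]
    rw [intervalIntegral.integral_finsetSum]
    · refine Finset.sum_congr rfl fun i _ => ?_
      rw [intervalIntegral.integral_finsetSum]
      · refine Finset.sum_congr rfl fun j _ => ?_
        rw [intervalIntegral.integral_const_mul, integral_E]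
        by_cases h : d i = d j
        · simp [h]
        · have : d i - d j ≠ 0 := sub_ne_zero.2 h
          simp [h, this]
      · intro j _
        exact (continuous_const.mul (continuous_E _)).intervalIntegrable _ _
    · intro i _
      exact (continuous_finsetSum _ fun j _ => continuous_const.mul (continuous_E _)).intervalIntegrable _ _
  exact_mod_cast h1

lemma geom_Ico_le {q : ℝ} (hq0 : 0 ≤ q) (a N : ℕ) :
    ∑ k ∈ Ico a N, (1 - q) * q ^ k ≤ q ^ a := by
  have h : ∀ N, a ≤ N → ∑ k ∈ Ico a N, (1 - q) * q ^ k = q ^ a - q ^ N := by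
    intro N hN
    induction N, hN using Nat.le_induction with
    | base => simp
    | succ N hN ih => rw [Finset.sum_Ico_succ_top hN, ih, pow_succ]; ring
  rcases le_total a N with h1 | h1
  · rw [h N h1]
    have := pow_nonneg hq0 N
    linarith
  · rw [Finset.Ico_eq_empty_of_le h1, Finset.sum_empty]; positivity

lemma geom_range_eq {q : ℝ} (N : ℕ) : ∑ k ∈ range N, (1 - q) * q ^ k = 1 - q ^ N := by
  induction N with
  | zero => simp
  | succ N ih => rw [Finset.sum_range_succ, ih, pow_succ]; ring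

/-- the lower triangular part -/
noncomputable def S (n : ℕ → ℤ) (N : ℕ) (w : ℕ → ℝ) (x : ℝ) : ℂ :=
  ∑ k ∈ range N, ∑ j ∈ range k, (w k : ℂ) * E (n k - n j) x

lemma count_le {n : ℕ → ℤ} {N : ℕ} (hn : ∀ j k, j < k → k < N → n j < n k) {k k' : ℕ}
    (hk : k < N) (hk' : k' < N) :
    ∑ j ∈ range k, ∑ j' ∈ range k', (if n k - n j = n k' - n j' then (1:ℝ) else 0) ≤ min (k:ℝ) k' := by
  have hinj : ∀ j j', j < N → j' < N → n j = n j' → j = j' := by
    intro j j' hj hj' h
    rcases lt_trichotomy j j' with h1 | h1 | h1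
    · have := hn j j' h1 hj'; omega
    · exact h1
    · have := hn j' j h1 hj; omega
  have hone : ∀ (m : ℕ) (g : ℕ → Prop) [DecidablePred g], (∀ a < m, ∀ b < m, g a → g b → a = b) →
      ∑ j ∈ range m, (if g j then (1:ℝ) else 0) ≤ 1 := by
    intro m g _ hg
    rw [Finset.sum_boole]
    have : (({j ∈ range m | g j} : Finset ℕ)).card ≤ 1 := by
      rw [Finset.card_le_one]
      intro a ha b hb
      simp only [Finset.mem_filter, Finset.mem_range] at ha hb
      exact hg a ha.1 b hb.1 ha.2 hb.2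
    exact_mod_cast this
  refine le_min ?_ ?_
  · calc _ ≤ ∑ j ∈ range k, (1:ℝ) := by
          refine Finset.sum_le_sum fun j hj => hone k' (fun j' => n k - n j = n k' - n j') ?_
          intro a ha b hb h1 h2
          exact hinj a b (ha.trans hk') (hb.trans hk') (by omega)
      _ = k := by simp
  · rw [Finset.sum_comm]
    calc _ ≤ ∑ j' ∈ range k', (1:ℝ) := by
          refine Finset.sum_le_sum fun j' hj' => hone k (fun j => n k - n j = n k' - n j') ?_
          intro a ha b hb h1 h2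
          exact hinj a b (ha.trans hk) (hb.trans hk) (by omega)
      _ = k' := by simp

lemma integral_S_sq_le {n : ℕ → ℤ} {N : ℕ} (hn : ∀ j k, j < k → k < N → n j < n k) {w : ℕ → ℝ}
    {q : ℝ} (hq0 : 0 ≤ q) (hq1 : q < 1) (hw0 : ∀ k, 0 ≤ w k) (hw : ∀ k, w k ≤ (1 - q) * q ^ k) :
    ∫ x in (0:ℝ)..1, ‖S n N w x‖ ^ 2 ≤ q ^ 2 / (1 - q ^ 2) := by
  have h1 : ∀ x, S n N w x = ∑ i ∈ (range N).sigma (fun k => range k),
      (w i.1 : ℂ) * E (n i.1 - n i.2) x := by
    intro x
    rw [Finset.sum_sigma]; rfl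
  rw [intervalIntegral.integral_congr (fun x _ => by simp only [h1 x] :
    Set.EqOn (fun x => ‖S n N w x‖ ^ 2) (fun x => ‖∑ i ∈ (range N).sigma (fun k => range k),
      (w i.1 : ℂ) * E (n i.1 - n i.2) x‖ ^ 2) _)]
  rw [integral_norm_sq_sum]
  rw [Finset.sum_sigma]
  have h2 : ∑ k ∈ range N, ∑ j ∈ range k, ∑ i' ∈ (range N).sigma (fun k => range k),
      (if n k - n j = n i'.1 - n i'.2 then w k * w i'.1 else 0) =
      ∑ k ∈ range N, ∑ k' ∈ range N, w k * w k' *
        ∑ j ∈ range k, ∑ j' ∈ range k', (if n k - n j = n k' - n j' then (1:ℝ) else 0) := by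
    refine Finset.sum_congr rfl fun k _ => ?_
    simp_rw [Finset.sum_sigma, Finset.mul_sum]
    rw [Finset.sum_comm]
    refine Finset.sum_congr rfl fun k' _ => Finset.sum_congr rfl fun j _ =>
      Finset.sum_congr rfl fun j' _ => ?_
    simp
  refine (le_of_eq h2).trans ?_
  have h3 : ∑ k ∈ range N, ∑ k' ∈ range N, w k * w k' *
        ∑ j ∈ range k, ∑ j' ∈ range k', (if n k - n j = n k' - n j' then (1:ℝ) else 0) ≤
      ∑ k ∈ range N, ∑ k' ∈ range N, w k * w k' *
        ∑ t ∈ range N, (if t < k then (1:ℝ) else 0) * (if t < k' then (1:ℝ) else 0) := by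
    refine Finset.sum_le_sum fun k hk => Finset.sum_le_sum fun k' hk' => ?_
    refine mul_le_mul_of_nonneg_left ?_ (mul_nonneg (hw0 _) (hw0 _))
    have hk := Finset.mem_range.1 hk
    have hk' := Finset.mem_range.1 hk'
    refine (count_le hn hk hk').trans (le_of_eq ?_)
    have h4 : ∀ t, (if t < k then (1:ℝ) else 0) * (if t < k' then (1:ℝ) else 0) =
        if t < min k k' then 1 else 0 := by
      intro t
      by_cases h5 : t < k <;> by_cases h6 : t < k' <;> simp [h5, h6]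
    simp_rw [h4]
    rw [Finset.sum_boole]
    have h5 : ({t ∈ range N | t < min k k'} : Finset ℕ) = range (min k k') := by
      ext t; simp only [Finset.mem_filter, Finset.mem_range]
      have : min k k' < N := lt_of_le_of_lt (min_le_left _ _) hk
      omega
    rw [h5, Finset.card_range]
    push_cast; rfl
  refine h3.trans ?_
  have h4 : ∑ k ∈ range N, ∑ k' ∈ range N, w k * w k' *
        ∑ t ∈ range N, (if t < k then (1:ℝ) else 0) * (if t < k' then (1:ℝ) else 0) =
      ∑ t ∈ range N, (∑ k ∈ Ico (t + 1) N, w k) ^ 2 := by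
    have h5 : ∀ t, ∑ k ∈ Ico (t + 1) N, w k = ∑ k ∈ range N, w k * (if t < k then (1:ℝ) else 0) := by
      intro t
      simp only [mul_ite, mul_one, mul_zero]
      rw [← Finset.sum_filter]
      refine Finset.sum_congr ?_ fun _ _ => rfl
      ext k; simp only [Finset.mem_Ico, Finset.mem_filter, Finset.mem_range]; omega
    simp_rw [h5, sq, Finset.sum_mul_sum, Finset.mul_sum]
    conv_rhs => rw [Finset.sum_comm]
    refine Finset.sum_congr rfl fun k _ => ?_
    rw [Finset.sum_comm]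
    refine Finset.sum_congr rfl fun k' _ => Finset.sum_congr rfl fun t _ => ?_
    ring
  rw [h4]
  have h5 : ∀ t ∈ range N, (∑ k ∈ Ico (t + 1) N, w k) ^ 2 ≤ q ^ 2 * (q ^ 2) ^ t := by
    intro t _
    have h6 : ∑ k ∈ Ico (t + 1) N, w k ≤ q ^ (t + 1) :=
      (Finset.sum_le_sum fun k _ => hw k).trans (geom_Ico_le hq0 _ _)
    have h7 : 0 ≤ ∑ k ∈ Ico (t + 1) N, w k := Finset.sum_nonneg fun k _ => hw0 k
    calc (∑ k ∈ Ico (t + 1) N, w k) ^ 2 ≤ (q ^ (t + 1)) ^ 2 := pow_le_pow_left₀ h7 h6 2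
      _ = _ := by ring
  refine (Finset.sum_le_sum h5).trans ?_
  rw [← Finset.mul_sum]
  have hq2 : q ^ 2 < 1 := by nlinarith
  have h8 : (1 - q ^ 2) * ∑ t ∈ range N, (q ^ 2) ^ t ≤ 1 := by
    rw [Finset.mul_sum, geom_range_eq]
    have := pow_nonneg (sq_nonneg q) N
    linarith
  rw [le_div_iff₀ (by linarith)]
  have := sq_nonneg q
  nlinarith

/-- scale parameters -/
noncomputable def sc (η : ℝ) (i : ℕ) : ℝ := Real.exp (-(η * i))
noncomputable def qq (η : ℝ) (i : ℕ) : ℝ := (1 - sc η i) / (1 + sc η i)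

lemma sc_pos (η : ℝ) (i : ℕ) : 0 < sc η i := Real.exp_pos _
lemma sc_le_one {η : ℝ} (hη : 0 ≤ η) (i : ℕ) : sc η i ≤ 1 := by
  unfold sc; rw [Real.exp_le_one_iff]; have : 0 ≤ η * i := by positivity
  linarith
lemma qq_nonneg {η : ℝ} (hη : 0 ≤ η) (i : ℕ) : 0 ≤ qq η i :=
  div_nonneg (by linarith [sc_le_one hη i]) (by linarith [sc_pos η i])
lemma qq_lt_one (η : ℝ) (i : ℕ) : qq η i < 1 := by
  unfold qq; rw [div_lt_one (by linarith [sc_pos η i])]; linarith [sc_pos η i]
lemma qq_le (η : ℝ) (i : ℕ) (hη : 0 ≤ η) : qq η i ≤ Real.exp (-sc η i) := by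
  have h1 : qq η i ≤ 1 - sc η i := by
    unfold qq
    exact div_le_self (by linarith [sc_le_one hη i]) (by linarith [sc_pos η i])
  have := Real.add_one_le_exp (-sc η i)
  linarith
lemma one_sub_qq_sq (η : ℝ) (i : ℕ) : (1 - qq η i) ^ 2 = sc η i * (1 - qq η i ^ 2) := by
  unfold qq
  have := sc_pos η i
  have h : (1 + sc η i) ≠ 0 := by positivity
  field_simp
  ring
lemma qq_ratio_le (η : ℝ) (i : ℕ) (hη : 0 ≤ η) : qq η i ^ 2 / (1 - qq η i ^ 2) ≤ Real.exp (η * i) / 4 := by
  have h0 := sc_pos η i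
  have h1 := sc_le_one hη i
  have h : (1 + sc η i) ≠ 0 := by positivity
  have e1 : qq η i ^ 2 / (1 - qq η i ^ 2) = (1 - sc η i) ^ 2 / (4 * sc η i) := by
    have h2 : (1 - qq η i ^ 2) = 4 * sc η i / (1 + sc η i) ^ 2 := by
      unfold qq; field_simp; ring
    rw [h2]
    unfold qq; field_simp
  have e2 : Real.exp (η * i) = (sc η i)⁻¹ := by
    unfold sc; rw [Real.exp_neg, inv_inv]
  rw [e1, e2, div_le_iff₀ (by positivity)]
  have e3 : (sc η i)⁻¹ / 4 * (4 * sc η i) = 1 := by field_simp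
  rw [e3]
  nlinarith

end Pool.Agent.Littlewood
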