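import Mathlib
import Pool.Agent.Lib.MP_d1728b_an.RealLemmas
import Pool.Agent.Lib.MP_d1728b_an.Fourier
import Pool.Agent.Lib.MP_d1728b_an.Sums

set_option autoImplicit false
open Finset MeasureTheory

namespace Pool.Agent.Littlewood

/-- Data of the construction: integers `n 0 < ... < n (N-1)`, step `η`, number of scales `K`, weights `w i k`. -/
structure Data where
  n : ℕ → ℤ
  N : ℕ
  hn : ∀ j k, j < k → k < N → n j < n k
  η : ℝ
  hη0 : 0 < η
  hη1 : η ≤ 1
  K : ℕ
  w : ℕ → ℕ → ℝ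
  hw0 : ∀ i k, 0 ≤ w i k
  hw1 : ∀ i k, w i k ≤ (1 - qq η i) * qq η i ^ k

namespace Data
variable (D : Data)

noncomputable def p (i : ℕ) (x : ℝ) : ℂ :=
  ((D.η / 2 : ℝ) : ℂ) * ∑ k ∈ range D.N, (D.w i k : ℂ) * E (D.n k) x
noncomputable def a (i : ℕ) (x : ℝ) : ℝ := ‖D.p i x‖
noncomputable def X (i : ℕ) (x : ℝ) : ℝ := ∑ l ∈ Ico (i + 1) D.K, D.a l x
noncomputable def ep : ℝ := D.η * Real.exp (-(D.η * D.K))
noncomputable def W (i : ℕ) : ℝ := ∑ k ∈ range D.N, D.w i k
noncomputable def f (x : ℝ) : ℂ := ∑ k ∈ range D.N, E (D.n k) x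

lemma ep_pos : 0 < D.ep := mul_pos D.hη0 (Real.exp_pos _)

lemma continuous_p (i : ℕ) : Continuous (D.p i) :=
  continuous_const.mul (continuous_finsetSum _ fun _ _ => continuous_const.mul (continuous_E _))

lemma continuous_a (i : ℕ) : Continuous (D.a i) := (D.continuous_p i).norm

lemma continuous_X (i : ℕ) : Continuous (D.X i) := continuous_finsetSum _ fun l _ => D.continuous_a l

lemma continuous_f : Continuous D.f := continuous_finsetSum _ fun _ _ => continuous_E _

lemma periodic_p (i : ℕ) : Function.Periodic (D.p i) 1 := by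
  intro x
  unfold p
  congr 1
  refine Finset.sum_congr rfl fun k _ => ?_
  rw [E_periodic]

lemma periodic_X (i : ℕ) : Function.Periodic (D.X i) 1 := by
  intro x
  unfold X a
  refine Finset.sum_congr rfl fun k _ => ?_
  rw [D.periodic_p]

lemma continuous_phi : Continuous phi := by
  unfold phi
  refine Continuous.log (Real.continuous_cosh.comp (continuous_const.mul continuous_id)) ?_
  intro x; exact (Real.cosh_pos _).ne'

lemma exists_P (i : ℕ) : ∃ P : Polynomial ℂ, (P.eval 0).im = 0 ∧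
      ∀ x : ℝ, phi (D.X i x) ≤ (P.eval (E (-1) x)).re ∧ (P.eval (E (-1) x)).re ≤ phi (D.X i x) + D.ep := by
  refine exists_poly (g := fun x => phi (D.X i x)) (continuous_phi.comp (D.continuous_X i)) ?_ D.ep_pos
  intro x
  simp only
  rw [D.periodic_X]

noncomputable def P (i : ℕ) : Polynomial ℂ := (D.exists_P i).choose
lemma P_im (i : ℕ) : ((D.P i).eval 0).im = 0 := (D.exists_P i).choose_spec.1
lemma le_P (i : ℕ) (x : ℝ) : phi (D.X i x) ≤ ((D.P i).eval (E (-1) x)).re :=
  ((D.exists_P i).choose_spec.2 x).1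
lemma P_le (i : ℕ) (x : ℝ) : ((D.P i).eval (E (-1) x)).re ≤ phi (D.X i x) + D.ep :=
  ((D.exists_P i).choose_spec.2 x).2

noncomputable def h (i : ℕ) (z : ℂ) : ℂ := Complex.exp (-(D.P i).eval z)
noncomputable def U (i : ℕ) (x : ℝ) : ℂ := D.h i (E (-1) x)
/-- mean of the exponent -/
noncomputable def c (i : ℕ) : ℝ := ((D.P i).eval 0).re
noncomputable def u (i : ℕ) : ℝ := Real.exp (-D.c i)
noncomputable def F (l : ℕ) (x : ℝ) : ℂ := ∑ i ∈ range l, D.p i x * D.U i x

lemma differentiable_h (i : ℕ) : Differentiable ℂ (D.h i) := by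
  unfold h
  exact ((D.P i).differentiable.neg).cexp

lemma continuous_U (i : ℕ) : Continuous (D.U i) :=
  (D.differentiable_h i).continuous.comp (continuous_E _)

lemma h_zero (i : ℕ) : D.h i 0 = (D.u i : ℂ) := by
  unfold h u c
  rw [Complex.ofReal_exp]
  congr 1
  rw [Complex.ext_iff]
  simp [D.P_im i]

lemma norm_U (i : ℕ) (x : ℝ) : ‖D.U i x‖ = Real.exp (-((D.P i).eval (E (-1) x)).re) := by
  unfold U h
  rw [Complex.norm_exp, Complex.neg_re]

lemma norm_U_le (i : ℕ) (x : ℝ) : ‖D.U i x‖ ≤ Real.exp (-phi (D.X i x)) := by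
  rw [norm_U]
  exact Real.exp_le_exp.2 (neg_le_neg (D.le_P i x))

lemma a_nonneg (i : ℕ) (x : ℝ) : 0 ≤ D.a i x := norm_nonneg _

lemma X_nonneg (i : ℕ) (x : ℝ) : 0 ≤ D.X i x := Finset.sum_nonneg fun l _ => D.a_nonneg l x

lemma W_le_one (i : ℕ) : D.W i ≤ 1 := by
  unfold W
  refine (Finset.sum_le_sum fun k _ => D.hw1 i k).trans ?_
  rw [geom_range_eq]
  have := pow_nonneg (qq_nonneg D.hη0.le i) D.N
  linarith

lemma W_nonneg (i : ℕ) : 0 ≤ D.W i := Finset.sum_nonneg fun k _ => D.hw0 i k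

lemma a_le (i : ℕ) (x : ℝ) : D.a i x ≤ D.η / 2 := by
  have hη := D.hη0
  unfold a p
  rw [norm_mul, Complex.norm_real, Real.norm_of_nonneg (by linarith)]
  have h1 : ‖∑ k ∈ range D.N, (D.w i k : ℂ) * E (D.n k) x‖ ≤ D.W i := by
    refine (norm_sum_le _ _).trans (le_of_eq ?_)
    refine Finset.sum_congr rfl fun k _ => ?_
    rw [norm_mul, norm_E, mul_one, Complex.norm_real, Real.norm_of_nonneg (D.hw0 i k)]
  have h2 := h1.trans (D.W_le_one i)
  have h3 : (0:ℝ) ≤ D.η / 2 := by linarith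
  calc D.η / 2 * _ ≤ D.η / 2 * 1 := mul_le_mul_of_nonneg_left h2 h3
    _ = _ := mul_one _

lemma integral_a_sq_le (i : ℕ) : ∫ x in (0:ℝ)..1, D.a i x ^ 2 ≤ D.η ^ 2 / 4 * sc D.η i := by
  have hη := D.hη0
  have h1 : ∀ x, D.a i x ^ 2 = D.η ^ 2 / 4 * ‖∑ k ∈ range D.N, (D.w i k : ℂ) * E (D.n k) x‖ ^ 2 := by
    intro x
    unfold a p
    rw [norm_mul, Complex.norm_real, Real.norm_of_nonneg (by linarith)]
    ring
  simp_rw [h1]
  rw [intervalIntegral.integral_const_mul, integral_norm_sq_sum]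
  refine mul_le_mul_of_nonneg_left ?_ (by positivity)
  have hinj : ∀ j ∈ range D.N, ∀ j' ∈ range D.N, D.n j = D.n j' → j = j' := by
    intro j hj j' hj' h
    rw [Finset.mem_range] at hj hj'
    rcases lt_trichotomy j j' with h1 | h1 | h1
    · have := D.hn j j' h1 hj'; omega
    · exact h1
    · have := D.hn j' j h1 hj; omega
  have h2 : ∑ k ∈ range D.N, ∑ j ∈ range D.N, (if D.n k = D.n j then D.w i k * D.w i j else 0) =
      ∑ k ∈ range D.N, D.w i k ^ 2 := by
    refine Finset.sum_congr rfl fun k hk => ?_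
    rw [Finset.sum_eq_single k]
    · simp [sq]
    · intro j hj hjk
      rw [if_neg]
      intro h; exact hjk (hinj k hk j hj h).symm
    · intro h; exact absurd hk h
  rw [h2]
  have q0 := qq_nonneg hη.le i
  have q1 := qq_lt_one D.η i
  have h3 : ∀ k ∈ range D.N, D.w i k ^ 2 ≤ (1 - qq D.η i) ^ 2 * (qq D.η i ^ 2) ^ k := by
    intro k _
    calc D.w i k ^ 2 ≤ ((1 - qq D.η i) * qq D.η i ^ k) ^ 2 := pow_le_pow_left₀ (D.hw0 i k) (D.hw1 i k) 2
      _ = _ := by ring
  refine (Finset.sum_le_sum h3).trans ?_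
  rw [← Finset.mul_sum, one_sub_qq_sq, mul_assoc, Finset.mul_sum, geom_range_eq]
  have h4 := pow_nonneg (sq_nonneg (qq D.η i)) D.N
  have h5 := sc_pos D.η i
  nlinarith

lemma norm_F_le {l : ℕ} (hl : l ≤ D.K) (x : ℝ) : ‖D.F l x‖ ≤ Real.exp D.η * (Real.pi / 4) := by
  have h1 := sup_bound (β := D.η / 2) D.K (fun i => D.a i x) (fun i => D.a_nonneg i x) (fun i => D.a_le i x)
  have e : 2 * (D.η / 2) = D.η := by ring
  rw [e] at h1
  refine le_trans ?_ h1
  unfold F
  refine (norm_sum_le _ _).trans ?_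
  have h2 : ∑ i ∈ range l, ‖D.p i x * D.U i x‖ ≤ ∑ i ∈ range D.K, ‖D.p i x * D.U i x‖ :=
    Finset.sum_le_sum_of_subset_of_nonneg (Finset.range_mono hl) fun _ _ _ => norm_nonneg _
  refine h2.trans (Finset.sum_le_sum fun i _ => ?_)
  rw [norm_mul]
  exact mul_le_mul_of_nonneg_left (D.norm_U_le i x) (norm_nonneg _)

lemma continuous_F (l : ℕ) : Continuous (D.F l) :=
  continuous_finsetSum _ fun i _ => (D.continuous_p i).mul (D.continuous_U i)

lemma integral_U_E (i m : ℕ) : ∫ x in (0:ℝ)..1, D.U i x * E (-(m:ℤ)) x = if m = 0 then (D.u i : ℂ) else 0 := by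
  rw [← D.h_zero]
  exact integral_mul_E_neg (D.differentiable_h i) m

lemma integral_U (i : ℕ) : ∫ x in (0:ℝ)..1, D.U i x = (D.u i : ℂ) := by
  have := D.integral_U_E i 0
  simpa [E_zero] using this

lemma c_eq (i : ℕ) : D.c i = ∫ x in (0:ℝ)..1, ((D.P i).eval (E (-1) x)).re := by
  have h1 := integral_comp_E_neg_one (h := fun z => (D.P i).eval z) (D.P i).differentiable
  have h2 := congrArg Complex.re h1
  unfold c
  rw [← h2]
  have hint : IntervalIntegrable (fun x => (D.P i).eval (E (-1) x)) volume 0 1 :=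
    ((D.P i).continuous.comp (continuous_E _)).intervalIntegrable _ _
  exact (Complex.reCLM.intervalIntegral_comp_comm hint).symm

lemma integral_norm_sub_sq (i : ℕ) : ∫ x in (0:ℝ)..1, ‖D.U i x - D.u i‖ ^ 2 =
    (∫ x in (0:ℝ)..1, ‖D.U i x‖ ^ 2) - D.u i ^ 2 := by
  have h1 : ∀ x, ‖D.U i x - D.u i‖ ^ 2 = ‖D.U i x‖ ^ 2 - 2 * D.u i * (D.U i x).re + D.u i ^ 2 := by
    intro x
    rw [← Complex.normSq_eq_norm_sq, ← Complex.normSq_eq_norm_sq, Complex.normSq_apply, Complex.normSq_apply]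
    simp
    ring
  simp_rw [h1]
  have hU := D.continuous_U i
  have i1 : IntervalIntegrable (fun x => ‖D.U i x‖ ^ 2) volume 0 1 := (hU.norm.pow 2).intervalIntegrable _ _
  have i2 : IntervalIntegrable (fun x => 2 * D.u i * (D.U i x).re) volume 0 1 :=
    (continuous_const.mul (Complex.continuous_re.comp hU)).intervalIntegrable _ _
  rw [intervalIntegral.integral_add (i1.sub i2) (continuous_const.intervalIntegrable _ _),
    intervalIntegral.integral_sub i1 i2, intervalIntegral.integral_const_mul,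
    intervalIntegral.integral_const]
  have h2 : ∫ x in (0:ℝ)..1, (D.U i x).re = D.u i := by
    have h3 := congrArg Complex.re (D.integral_U i)
    rw [Complex.ofReal_re] at h3
    rw [← h3]
    exact Complex.reCLM.intervalIntegral_comp_comm (hU.intervalIntegrable _ _)
  rw [h2]
  simp
  ring

lemma integral_norm_sub_sq_le (i : ℕ) : ∫ x in (0:ℝ)..1, ‖D.U i x - D.u i‖ ^ 2 ≤
    ∫ x in (0:ℝ)..1, (V (D.X i x) + 2 * D.ep) := by
  rw [integral_norm_sub_sq]
  set ψ : ℝ → ℝ := fun x => ((D.P i).eval (E (-1) x)).re with hψ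
  have hψc : Continuous ψ := Complex.continuous_re.comp ((D.P i).continuous.comp (continuous_E _))
  have h1 : ∀ x, ‖D.U i x‖ ^ 2 = Real.exp (-2 * ψ x) := by
    intro x
    rw [norm_U, ← Real.exp_nat_mul]
    congr 1
    push_cast
    ring
  have h2 : 1 - 2 * D.c i ≤ D.u i ^ 2 := by
    have : D.u i ^ 2 = Real.exp (-2 * D.c i) := by
      unfold u; rw [← Real.exp_nat_mul]; congr 1; push_cast; ring
    rw [this]
    have := Real.add_one_le_exp (-2 * D.c i)
    linarith
  have h3 : (∫ x in (0:ℝ)..1, ‖D.U i x‖ ^ 2) - D.u i ^ 2 ≤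
      ∫ x in (0:ℝ)..1, (Real.exp (-2 * ψ x) - 1 + 2 * ψ x) := by
    have e1 : ∫ x in (0:ℝ)..1, (Real.exp (-2 * ψ x) - 1 + 2 * ψ x) =
        (∫ x in (0:ℝ)..1, Real.exp (-2 * ψ x)) - 1 + 2 * D.c i := by
      have i1 : IntervalIntegrable (fun x => Real.exp (-2 * ψ x)) volume 0 1 :=
        ((continuous_const.mul hψc).rexp).intervalIntegrable _ _
      have i2 : IntervalIntegrable (fun x => 2 * ψ x) volume 0 1 :=
        (continuous_const.mul hψc).intervalIntegrable _ _
      have i3 : IntervalIntegrable (fun _ => (1:ℝ)) volume 0 1 := continuous_const.intervalIntegrable _ _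
      rw [intervalIntegral.integral_add (i1.sub i3) i2, intervalIntegral.integral_sub i1 i3,
        intervalIntegral.integral_const_mul, intervalIntegral.integral_const, D.c_eq]
      simp [hψ]
    rw [e1]
    simp_rw [h1]
    linarith
  refine h3.trans ?_
  have hV : Continuous V := by
    unfold V
    have ht : Continuous (fun x : ℝ => Real.tanh (2 * x)) := by
      have : (fun x : ℝ => Real.tanh (2 * x)) = fun x => Real.sinh (2 * x) / Real.cosh (2 * x) := by
        ext x; rw [Real.tanh_eq_sinh_div_cosh]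
      rw [this]
      exact (Real.continuous_sinh.comp (continuous_const.mul continuous_id)).div
        (Real.continuous_cosh.comp (continuous_const.mul continuous_id)) fun x => (Real.cosh_pos _).ne'
    exact (continuous_const.mul continuous_phi).sub (ht.pow 2)
  refine intervalIntegral.integral_mono_on zero_le_one ?_ ?_ ?_
  · exact ((((continuous_const.mul hψc).rexp).sub continuous_const).add
      (continuous_const.mul hψc)).intervalIntegrable _ _
  · exact ((hV.comp (D.continuous_X i)).add continuous_const).intervalIntegrable _ _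
  · intro x _
    rw [← theta_phi]
    have h4 := D.le_P i x
    have h5 := D.P_le i x
    have h6 : Real.exp (-2 * ψ x) ≤ Real.exp (-2 * phi (D.X i x)) := by
      apply Real.exp_le_exp.2; simp only [hψ]; linarith
    have h7 : ψ x ≤ phi (D.X i x) + D.ep := h5
    linarith

end Data

end Pool.Agent.Littlewood
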