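import Mathlib
import Pool.Agent.Lib.MP_d1728b_an.RealLemmas
import Pool.Agent.Lib.MP_d1728b_an.Fourier
import Pool.Agent.Lib.MP_d1728b_an.Sums
import Pool.Agent.Lib.MP_d1728b_an.Construction

set_option autoImplicit false
open Finset MeasureTheory

namespace Pool.Agent.Littlewood

lemma continuous_S (n : ℕ → ℤ) (N : ℕ) (w : ℕ → ℝ) : Continuous (S n N w) :=
  continuous_finsetSum _ fun _ _ => continuous_finsetSum _ fun _ _ =>
    continuous_const.mul (continuous_E _)

namespace Data
variable (D : Data)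

lemma integral_S (i : ℕ) : ∫ x in (0:ℝ)..1, S D.n D.N (D.w i) x = 0 := by
  unfold S
  rw [intervalIntegral.integral_finsetSum]
  · refine Finset.sum_eq_zero fun k hk => ?_
    rw [intervalIntegral.integral_finsetSum]
    · refine Finset.sum_eq_zero fun j hj => ?_
      rw [intervalIntegral.integral_const_mul, integral_E, if_neg, mul_zero]
      have := D.hn j k (Finset.mem_range.1 hj) (Finset.mem_range.1 hk)
      omega
    · intro j _
      exact (continuous_const.mul (continuous_E _)).intervalIntegrable _ _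
  · intro k _
    exact (continuous_finsetSum _ fun _ _ => continuous_const.mul (continuous_E _)).intervalIntegrable _ _

lemma p_mul_conj_f (i : ℕ) (x : ℝ) : D.p i x * (starRingEnd ℂ) (D.f x) =
    ((D.η / 2 : ℝ) : ℂ) * ((D.W i : ℂ) + S D.n D.N (D.w i) x +
      ∑ k ∈ range D.N, ∑ j ∈ Ico (k + 1) D.N, (D.w i k : ℂ) * E (D.n k - D.n j) x) := by
  unfold p f
  rw [mul_assoc, map_sum, Finset.sum_mul_sum]
  congr 1
  unfold S W
  rw [Complex.ofReal_sum, ← Finset.sum_add_distrib, ← Finset.sum_add_distrib]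
  refine Finset.sum_congr rfl fun k hk => ?_
  have hk' := Finset.mem_range.1 hk
  have h1 : ∀ j, (D.w i k : ℂ) * E (D.n k) x * (starRingEnd ℂ) (E (D.n j) x) =
      (D.w i k : ℂ) * E (D.n k - D.n j) x := by
    intro j
    rw [conj_E, sub_eq_add_neg, E_add, mul_assoc]
  rw [Finset.sum_congr rfl fun j _ => h1 j]
  rw [← Finset.sum_range_add_sum_Ico _ hk'.le, Finset.sum_eq_sum_Ico_succ_bot hk', sub_self, E_zero]
  ring

lemma integral_U_mul_upper (i : ℕ) : ∫ x in (0:ℝ)..1, D.U i x *
    ∑ k ∈ range D.N, ∑ j ∈ Ico (k + 1) D.N, (D.w i k : ℂ) * E (D.n k - D.n j) x = 0 := by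
  simp_rw [Finset.mul_sum]
  have hU := D.continuous_U i
  rw [intervalIntegral.integral_finsetSum]
  · refine Finset.sum_eq_zero fun k hk => ?_
    rw [intervalIntegral.integral_finsetSum]
    · refine Finset.sum_eq_zero fun j hj => ?_
      rw [Finset.mem_Ico] at hj
      have h1 := D.hn k j (by omega) hj.2
      obtain ⟨m, hm⟩ := Int.eq_ofNat_of_zero_le (show 0 ≤ D.n j - D.n k by omega)
      have h2 : D.n k - D.n j = -(m:ℤ) := by omega
      have h3 : ∀ x, D.U i x * ((D.w i k : ℂ) * E (D.n k - D.n j) x) =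
          (D.w i k : ℂ) * (D.U i x * E (-(m:ℤ)) x) := by
        intro x; rw [h2]; ring
      simp_rw [h3]
      rw [intervalIntegral.integral_const_mul, integral_U_E, if_neg (by omega), mul_zero]
    · intro j _
      exact (hU.mul (continuous_const.mul (continuous_E _))).intervalIntegrable _ _
  · intro k _
    exact (continuous_finsetSum _ fun _ _ => hU.mul (continuous_const.mul (continuous_E _))).intervalIntegrable _ _

lemma integral_pairing (i : ℕ) : ∫ x in (0:ℝ)..1, D.p i x * D.U i x * (starRingEnd ℂ) (D.f x) =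
    ((D.η / 2 : ℝ) : ℂ) * ((D.u i : ℂ) * D.W i + ∫ x in (0:ℝ)..1, (D.U i x - D.u i) * S D.n D.N (D.w i) x) := by
  have hU := D.continuous_U i
  have hS := continuous_S D.n D.N (D.w i)
  have h1 : ∀ x, D.p i x * D.U i x * (starRingEnd ℂ) (D.f x) =
      ((D.η / 2 : ℝ) : ℂ) * (((D.W i : ℂ) * D.U i x + ((D.U i x - D.u i) * S D.n D.N (D.w i) x +
        (D.u i : ℂ) * S D.n D.N (D.w i) x)) + D.U i x *
        ∑ k ∈ range D.N, ∑ j ∈ Ico (k + 1) D.N, (D.w i k : ℂ) * E (D.n k - D.n j) x) := by
    intro x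
    have := D.p_mul_conj_f i x
    calc _ = D.U i x * (D.p i x * (starRingEnd ℂ) (D.f x)) := by ring
      _ = _ := by rw [this]; ring
  simp_rw [h1]
  rw [intervalIntegral.integral_const_mul]
  congr 1
  have i1 : IntervalIntegrable (fun x => (D.W i : ℂ) * D.U i x) volume 0 1 :=
    (continuous_const.mul hU).intervalIntegrable _ _
  have i2 : IntervalIntegrable (fun x => (D.U i x - D.u i) * S D.n D.N (D.w i) x) volume 0 1 :=
    ((hU.sub continuous_const).mul hS).intervalIntegrable _ _
  have i3 : IntervalIntegrable (fun x => (D.u i : ℂ) * S D.n D.N (D.w i) x) volume 0 1 :=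
    (continuous_const.mul hS).intervalIntegrable _ _
  have i4 : IntervalIntegrable (fun x => D.U i x *
        ∑ k ∈ range D.N, ∑ j ∈ Ico (k + 1) D.N, (D.w i k : ℂ) * E (D.n k - D.n j) x) volume 0 1 :=
    (hU.mul (continuous_finsetSum _ fun _ _ => continuous_finsetSum _ fun _ _ =>
      continuous_const.mul (continuous_E _))).intervalIntegrable _ _
  rw [intervalIntegral.integral_add (i1.add (i2.add i3)) i4, integral_U_mul_upper, add_zero,
    intervalIntegral.integral_add i1 (i2.add i3), intervalIntegral.integral_add i2 i3,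
    intervalIntegral.integral_const_mul, intervalIntegral.integral_const_mul, integral_U, integral_S,
    mul_zero, add_zero]
  ring

lemma integral_error_le (i : ℕ) : ‖∫ x in (0:ℝ)..1, (D.U i x - D.u i) * S D.n D.N (D.w i) x‖ ≤
    Real.exp (D.η * i) / 4 * (∫ x in (0:ℝ)..1, ‖D.U i x - D.u i‖ ^ 2) + 1 / 4 := by
  have hU := D.continuous_U i
  have hS := continuous_S D.n D.N (D.w i)
  have hη := D.hη0.le
  set r := Real.exp (D.η * i) with hr
  have hr0 : 0 < r := Real.exp_pos _
  have h1 := intervalIntegral.norm_integral_le_integral_norm (μ := volume)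
    (f := fun x => (D.U i x - D.u i) * S D.n D.N (D.w i) x) (a := 0) (b := 1) zero_le_one
  refine h1.trans ?_
  have i1 : IntervalIntegrable (fun x => r / 4 * ‖D.U i x - D.u i‖ ^ 2) volume 0 1 :=
    (continuous_const.mul ((hU.sub continuous_const).norm.pow 2)).intervalIntegrable _ _
  have i2 : IntervalIntegrable (fun x => r⁻¹ * ‖S D.n D.N (D.w i) x‖ ^ 2) volume 0 1 :=
    (continuous_const.mul (hS.norm.pow 2)).intervalIntegrable _ _
  have h2 : ∫ x in (0:ℝ)..1, ‖(D.U i x - D.u i) * S D.n D.N (D.w i) x‖ ≤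
      ∫ x in (0:ℝ)..1, (r / 4 * ‖D.U i x - D.u i‖ ^ 2 + r⁻¹ * ‖S D.n D.N (D.w i) x‖ ^ 2) := by
    refine intervalIntegral.integral_mono_on zero_le_one ?_ (i1.add i2) ?_
    · exact (((hU.sub continuous_const).mul hS).norm).intervalIntegrable _ _
    · intro x _
      rw [norm_mul]
      set A := ‖D.U i x - D.u i‖
      set B := ‖S D.n D.N (D.w i) x‖
      have : 0 ≤ (r * A - 2 * B) ^ 2 / (4 * r) := by positivity
      have e : (r * A - 2 * B) ^ 2 / (4 * r) = r / 4 * A ^ 2 + r⁻¹ * B ^ 2 - A * B := by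
        field_simp; ring
      linarith
  refine h2.trans ?_
  rw [intervalIntegral.integral_add i1 i2, intervalIntegral.integral_const_mul,
    intervalIntegral.integral_const_mul]
  have h3 := (integral_S_sq_le D.hn (qq_nonneg hη i) (qq_lt_one D.η i) (D.hw0 i) (D.hw1 i)).trans
    (qq_ratio_le D.η i hη)
  have h4 : r⁻¹ * ∫ x in (0:ℝ)..1, ‖S D.n D.N (D.w i) x‖ ^ 2 ≤ r⁻¹ * (r / 4) :=
    mul_le_mul_of_nonneg_left h3 (inv_nonneg.2 hr0.le)
  have h5 : r⁻¹ * (r / 4) = 1 / 4 := by field_simp
  linarith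

/-- the sum of the errors -/
lemma sum_errors_le : ∑ i ∈ range D.K, (Real.exp (D.η * i) / 4 * (∫ x in (0:ℝ)..1, ‖D.U i x - D.u i‖ ^ 2) + 1 / 4)
    ≤ D.K / 2 * (1 + 3 * D.η) := by
  have hη := D.hη0
  have hη1 := D.hη1
  have hV : Continuous V := by
    unfold V
    have ht : Continuous (fun x : ℝ => Real.tanh (2 * x)) := by
      have : (fun x : ℝ => Real.tanh (2 * x)) = fun x => Real.sinh (2 * x) / Real.cosh (2 * x) := by
        ext x; rw [Real.tanh_eq_sinh_div_cosh]
      rw [this]
      exact (Real.continuous_sinh.comp (continuous_const.mul continuous_id)).div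
        (Real.continuous_cosh.comp (continuous_const.mul continuous_id)) fun x => (Real.cosh_pos _).ne'
    exact (continuous_const.mul continuous_phi).sub (ht.pow 2)
  have iV : ∀ i : ℕ, IntervalIntegrable (fun x => Real.exp (D.η * i) * V (D.X i x)) volume 0 1 := fun i =>
    (continuous_const.mul (hV.comp (D.continuous_X i))).intervalIntegrable _ _
  have ia : ∀ i : ℕ, IntervalIntegrable (fun x => Real.exp (D.η * i) * D.a i x ^ 2) volume 0 1 := fun i =>
    (continuous_const.mul ((D.continuous_a i).pow 2)).intervalIntegrable _ _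
  -- pathwise
  have h1 : ∑ i ∈ range D.K, Real.exp (D.η * i) * ∫ x in (0:ℝ)..1, V (D.X i x) ≤
      4 / D.η ^ 2 * (1 + 4 * D.η) * ∑ i ∈ range D.K, Real.exp (D.η * i) * ∫ x in (0:ℝ)..1, D.a i x ^ 2 := by
    simp_rw [← intervalIntegral.integral_const_mul]
    rw [← intervalIntegral.integral_finsetSum (fun i _ => iV i),
      ← intervalIntegral.integral_finsetSum (fun i _ => ia i), ← intervalIntegral.integral_const_mul]
    refine intervalIntegral.integral_mono_on zero_le_one ?_ ?_ ?_
    · exact (continuous_finsetSum _ fun i _ =>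
        continuous_const.mul (hV.comp (D.continuous_X i))).intervalIntegrable _ _
    · exact (continuous_const.mul (continuous_finsetSum _ fun i _ =>
        continuous_const.mul ((D.continuous_a i).pow 2))).intervalIntegrable _ _
    · intro x _
      exact pathwise hη D.K (fun i => D.a i x) (fun i => D.a_nonneg i x)
        (fun i => (D.a_le i x).trans (by linarith))
  have h2 : ∑ i ∈ range D.K, Real.exp (D.η * i) * ∫ x in (0:ℝ)..1, D.a i x ^ 2 ≤ D.K * (D.η ^ 2 / 4) := by
    have : ∀ i ∈ range D.K, Real.exp (D.η * i) * ∫ x in (0:ℝ)..1, D.a i x ^ 2 ≤ D.η ^ 2 / 4 := by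
      intro i _
      calc _ ≤ Real.exp (D.η * i) * (D.η ^ 2 / 4 * sc D.η i) :=
            mul_le_mul_of_nonneg_left (D.integral_a_sq_le i) (Real.exp_pos _).le
        _ = D.η ^ 2 / 4 * (Real.exp (D.η * i) * sc D.η i) := by ring
        _ = D.η ^ 2 / 4 := by
            unfold sc
            rw [← Real.exp_add, add_neg_cancel, Real.exp_zero, mul_one]
    refine (Finset.sum_le_sum this).trans ?_
    simp
  have h3 : 4 / D.η ^ 2 * (1 + 4 * D.η) * ∑ i ∈ range D.K, Real.exp (D.η * i) * ∫ x in (0:ℝ)..1, D.a i x ^ 2 ≤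
      (1 + 4 * D.η) * D.K := by
    calc _ ≤ 4 / D.η ^ 2 * (1 + 4 * D.η) * (D.K * (D.η ^ 2 / 4)) :=
          mul_le_mul_of_nonneg_left h2 (by positivity)
      _ = _ := by field_simp
  have h4 : ∑ i ∈ range D.K, Real.exp (D.η * i) * (2 * D.ep) ≤ 2 * D.η * D.K := by
    have : ∀ i ∈ range D.K, Real.exp (D.η * i) * (2 * D.ep) ≤ 2 * D.η := by
      intro i hi
      have hi' := Finset.mem_range.1 hi
      unfold ep
      have e1 : Real.exp (D.η * i) * (2 * (D.η * Real.exp (-(D.η * D.K)))) =
          2 * D.η * Real.exp (D.η * i - D.η * D.K) := by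
        rw [sub_eq_add_neg, Real.exp_add]; ring
      rw [e1]
      have e2 : Real.exp (D.η * i - D.η * D.K) ≤ 1 := by
        rw [Real.exp_le_one_iff]
        have : (i:ℝ) ≤ D.K := by exact_mod_cast hi'.le
        nlinarith
      nlinarith
    refine (Finset.sum_le_sum this).trans ?_
    simp; linarith
  have h5 : ∀ i ∈ range D.K, Real.exp (D.η * i) / 4 * (∫ x in (0:ℝ)..1, ‖D.U i x - D.u i‖ ^ 2) + 1 / 4 ≤
      1 / 4 * (Real.exp (D.η * i) * ∫ x in (0:ℝ)..1, V (D.X i x)) +
      1 / 4 * (Real.exp (D.η * i) * (2 * D.ep)) + 1 / 4 := by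
    intro i _
    have h6 := D.integral_norm_sub_sq_le i
    have iV' : IntervalIntegrable (fun x => V (D.X i x)) volume 0 1 :=
      (hV.comp (D.continuous_X i)).intervalIntegrable _ _
    rw [intervalIntegral.integral_add iV'
      (continuous_const.intervalIntegrable _ _), intervalIntegral.integral_const] at h6
    have h7 : ((1:ℝ) - 0) • (2 * D.ep) = 2 * D.ep := by simp
    rw [h7] at h6
    have h8 := Real.exp_pos (D.η * i)
    have h9 := mul_le_mul_of_nonneg_left h6 h8.le
    linarith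
  refine (Finset.sum_le_sum h5).trans ?_
  rw [Finset.sum_add_distrib, Finset.sum_add_distrib, ← Finset.mul_sum, ← Finset.mul_sum]
  simp only [Finset.sum_const, Finset.card_range, nsmul_eq_mul]
  nlinarith

lemma phi_le (x : ℝ) : phi x ≤ 2 * x ^ 2 := by
  unfold phi
  have h := Real.log_le_log (Real.cosh_pos _) (Real.cosh_le_exp_half_sq (2 * x))
  rw [Real.log_exp] at h
  linarith

lemma integral_X_sq_le (i : ℕ) : ∫ x in (0:ℝ)..1, D.X i x ^ 2 ≤ Real.exp (-(D.η * i)) := by
  have hη := D.hη0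
  set lam : ℕ → ℝ := fun l => Real.exp (-(D.η * l / 2)) with hlam
  have hlam0 : ∀ l, 0 < lam l := fun l => Real.exp_pos _
  set G := ∑ l ∈ Ico (i + 1) D.K, lam l with hG
  have hG0 : 0 ≤ G := Finset.sum_nonneg fun l _ => (hlam0 l).le
  have h1 : ∀ x, D.X i x ^ 2 ≤ G * ∑ l ∈ Ico (i + 1) D.K, D.a l x ^ 2 / lam l := by
    intro x
    unfold X
    refine Finset.sum_sq_le_sum_mul_sum_of_sq_le_mul _ (fun l _ => (hlam0 l).le)
      (fun l _ => div_nonneg (sq_nonneg _) (hlam0 l).le) (fun l _ => le_of_eq ?_)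
    have := (hlam0 l).ne'
    field_simp
  have h2 : ∫ x in (0:ℝ)..1, D.X i x ^ 2 ≤ G * ∑ l ∈ Ico (i + 1) D.K, (∫ x in (0:ℝ)..1, D.a l x ^ 2) / lam l := by
    have e : G * ∑ l ∈ Ico (i + 1) D.K, (∫ x in (0:ℝ)..1, D.a l x ^ 2) / lam l =
        ∫ x in (0:ℝ)..1, G * ∑ l ∈ Ico (i + 1) D.K, D.a l x ^ 2 / lam l := by
      rw [intervalIntegral.integral_const_mul, intervalIntegral.integral_finsetSum]
      · congr 1
        refine Finset.sum_congr rfl fun l _ => ?_
        rw [intervalIntegral.integral_div]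
      · intro l _
        exact (((D.continuous_a l).pow 2).div_const _).intervalIntegrable _ _
    rw [e]
    refine intervalIntegral.integral_mono_on zero_le_one ?_ ?_ (fun x _ => h1 x)
    · exact ((D.continuous_X i).pow 2).intervalIntegrable _ _
    · exact (continuous_const.mul (continuous_finsetSum _ fun l _ =>
        ((D.continuous_a l).pow 2).div_const _)).intervalIntegrable _ _
  have h3 : ∑ l ∈ Ico (i + 1) D.K, (∫ x in (0:ℝ)..1, D.a l x ^ 2) / lam l ≤ D.η ^ 2 / 4 * G := by
    rw [hG, Finset.mul_sum]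
    refine Finset.sum_le_sum fun l _ => ?_
    rw [div_le_iff₀ (hlam0 l)]
    refine (D.integral_a_sq_le l).trans (le_of_eq ?_)
    simp only [hlam, sc]
    rw [mul_assoc, ← Real.exp_add]
    congr 2
    ring
  have h4 : G ≤ 2 / D.η * Real.exp (-(D.η * i / 2)) := by
    have hq : Real.exp (-(D.η / 2)) < 1 := by
      rw [Real.exp_lt_one_iff]; linarith
    have hg := geom_Ico_le (q := Real.exp (-(D.η / 2))) (Real.exp_pos _).le (i + 1) D.K
    have e1 : ∀ l : ℕ, lam l = Real.exp (-(D.η / 2)) ^ l := by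
      intro l
      simp only [hlam]
      rw [← Real.exp_nat_mul]; congr 1; ring
    have e2 : ∑ k ∈ Ico (i + 1) D.K, (1 - Real.exp (-(D.η / 2))) * Real.exp (-(D.η / 2)) ^ k =
        (1 - Real.exp (-(D.η / 2))) * G := by
      rw [hG, Finset.mul_sum]
      exact Finset.sum_congr rfl fun l _ => by rw [e1]
    rw [e2] at hg
    have e3 : Real.exp (-(D.η / 2)) ^ (i + 1) = Real.exp (-(D.η / 2)) * Real.exp (-(D.η * i / 2)) := by
      rw [pow_succ, ← Real.exp_nat_mul, mul_comm]; congr 2; ring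
    rw [e3] at hg
    -- exp(-y) ≤ (1 - exp(-y)) / y
    have e4 : D.η / 2 * Real.exp (-(D.η / 2)) ≤ 1 - Real.exp (-(D.η / 2)) := by
      have h5 := Real.add_one_le_exp (D.η / 2)
      have h6 : Real.exp (D.η / 2) * Real.exp (-(D.η / 2)) = 1 := by
        rw [← Real.exp_add, add_neg_cancel, Real.exp_zero]
      have h7 := Real.exp_pos (-(D.η / 2))
      nlinarith
    have h8 : 0 < 1 - Real.exp (-(D.η / 2)) := by linarith
    have h9 := Real.exp_pos (-(D.η * i / 2))
    have h10 : (1 - Real.exp (-(D.η / 2))) * (D.η / 2 * G) ≤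
        (1 - Real.exp (-(D.η / 2))) * Real.exp (-(D.η * i / 2)) := by
      calc _ = D.η / 2 * ((1 - Real.exp (-(D.η / 2))) * G) := by ring
        _ ≤ D.η / 2 * (Real.exp (-(D.η / 2)) * Real.exp (-(D.η * i / 2))) :=
          mul_le_mul_of_nonneg_left hg (by linarith)
        _ = (D.η / 2 * Real.exp (-(D.η / 2))) * Real.exp (-(D.η * i / 2)) := by ring
        _ ≤ _ := mul_le_mul_of_nonneg_right e4 h9.le
    have h11 := le_of_mul_le_mul_left h10 h8
    have h12 : G = 2 / D.η * (D.η / 2 * G) := by field_simp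
    rw [h12]
    exact mul_le_mul_of_nonneg_left h11 (by positivity)
  calc ∫ x in (0:ℝ)..1, D.X i x ^ 2 ≤ G * (D.η ^ 2 / 4 * G) :=
        h2.trans (mul_le_mul_of_nonneg_left h3 hG0)
    _ = D.η ^ 2 / 4 * G ^ 2 := by ring
    _ ≤ D.η ^ 2 / 4 * (2 / D.η * Real.exp (-(D.η * i / 2))) ^ 2 :=
        mul_le_mul_of_nonneg_left (pow_le_pow_left₀ hG0 h4 2) (by positivity)
    _ = Real.exp (-(D.η * i / 2)) ^ 2 := by field_simp; ring
    _ = Real.exp (-(D.η * i)) := by rw [← Real.exp_nat_mul]; congr 1; push_cast; ring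

lemma c_le (i : ℕ) : D.c i ≤ 2 * Real.exp (-(D.η * i)) + D.ep := by
  rw [D.c_eq]
  have h1 : ∫ x in (0:ℝ)..1, ((D.P i).eval (E (-1) x)).re ≤ ∫ x in (0:ℝ)..1, (2 * D.X i x ^ 2 + D.ep) := by
    refine intervalIntegral.integral_mono_on zero_le_one ?_ ?_ ?_
    · exact (Complex.continuous_re.comp ((D.P i).continuous.comp (continuous_E _))).intervalIntegrable _ _
    · exact ((continuous_const.mul ((D.continuous_X i).pow 2)).add continuous_const).intervalIntegrable _ _
    · intro x _
      exact (D.P_le i x).trans (by linarith [phi_le (D.X i x)])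
  refine h1.trans ?_
  have iX : IntervalIntegrable (fun x => 2 * D.X i x ^ 2) volume 0 1 :=
    (continuous_const.mul ((D.continuous_X i).pow 2)).intervalIntegrable _ _
  rw [intervalIntegral.integral_add iX
      (continuous_const.intervalIntegrable _ _), intervalIntegral.integral_const_mul,
      intervalIntegral.integral_const]
  have := D.integral_X_sq_le i
  simp
  linarith

lemma c_nonneg (i : ℕ) : 0 ≤ D.c i := by
  rw [D.c_eq]
  refine intervalIntegral.integral_nonneg zero_le_one fun x _ => ?_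
  exact (phi_nonneg _).trans (D.le_P i x)

lemma sum_c_le : D.η / 2 * ∑ i ∈ range D.K, D.c i ≤ 3 := by
  have hη := D.hη0
  have hη1 := D.hη1
  have h1 : ∑ i ∈ range D.K, D.c i ≤ ∑ i ∈ range D.K, (2 * Real.exp (-(D.η * i)) + D.ep) :=
    Finset.sum_le_sum fun i _ => D.c_le i
  rw [Finset.sum_add_distrib, ← Finset.mul_sum] at h1
  simp only [Finset.sum_const, Finset.card_range, nsmul_eq_mul] at h1
  have h2 : D.η * ∑ i ∈ range D.K, Real.exp (-(D.η * i)) ≤ 2 := by
    have hq : Real.exp (-D.η) < 1 := by rw [Real.exp_lt_one_iff]; linarith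
    have e1 : ∀ l : ℕ, Real.exp (-(D.η * l)) = Real.exp (-D.η) ^ l := by
      intro l; rw [← Real.exp_nat_mul]; congr 1; ring
    simp_rw [e1]
    have h3 : (1 - Real.exp (-D.η)) * ∑ i ∈ range D.K, Real.exp (-D.η) ^ i ≤ 1 := by
      rw [Finset.mul_sum, geom_range_eq]
      have := pow_nonneg (Real.exp_pos (-D.η)).le D.K
      linarith
    have h4 : D.η / 2 ≤ 1 - Real.exp (-D.η) := by
      have h5 := exp_neg_le hη.le hη1
      have h6 : Real.exp (-D.η) * (1 + D.η) ≤ 1 := by
        have := Real.add_one_le_exp D.η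
        have h7 : Real.exp D.η * Real.exp (-D.η) = 1 := by
          rw [← Real.exp_add, add_neg_cancel, Real.exp_zero]
        have h8 := Real.exp_pos (-D.η)
        nlinarith
      have h9 := Real.exp_pos (-D.η)
      nlinarith
    have h5 : 0 ≤ ∑ i ∈ range D.K, Real.exp (-D.η) ^ i :=
      Finset.sum_nonneg fun i _ => pow_nonneg (Real.exp_pos _).le _
    nlinarith
  have h3 : (D.K : ℝ) * D.ep ≤ 1 := by
    unfold ep
    have h4 := Real.add_one_le_exp (D.η * D.K)
    have h5 : Real.exp (D.η * D.K) * Real.exp (-(D.η * D.K)) = 1 := by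
      rw [← Real.exp_add, add_neg_cancel, Real.exp_zero]
    have h6 := Real.exp_pos (-(D.η * D.K))
    nlinarith
  nlinarith

/-- General lower bound. -/
theorem main_lower : D.η / 2 * ∑ i ∈ range D.K, D.W i - D.η / 4 * D.K * (1 + 3 * D.η) - 3 ≤
    (∫ x in (0:ℝ)..1, D.F D.K x * (starRingEnd ℂ) (D.f x)).re := by
  have hη := D.hη0
  have hf := D.continuous_f
  have hfc : Continuous (fun x => (starRingEnd ℂ) (D.f x)) := Complex.continuous_conj.comp hf
  have h1 : ∫ x in (0:ℝ)..1, D.F D.K x * (starRingEnd ℂ) (D.f x) =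
      ∑ i ∈ range D.K, ∫ x in (0:ℝ)..1, D.p i x * D.U i x * (starRingEnd ℂ) (D.f x) := by
    rw [← intervalIntegral.integral_finsetSum]
    · refine intervalIntegral.integral_congr fun x _ => ?_
      simp only [F, Finset.sum_mul]
    · intro i _
      exact (((D.continuous_p i).mul (D.continuous_U i)).mul hfc).intervalIntegrable _ _
  rw [h1, Complex.re_sum]
  have h2 : ∀ i ∈ range D.K, D.η / 2 * (D.W i - D.c i) -
      D.η / 2 * (Real.exp (D.η * i) / 4 * (∫ x in (0:ℝ)..1, ‖D.U i x - D.u i‖ ^ 2) + 1 / 4) ≤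
      (∫ x in (0:ℝ)..1, D.p i x * D.U i x * (starRingEnd ℂ) (D.f x)).re := by
    intro i _
    rw [integral_pairing, Complex.re_ofReal_mul, ← mul_sub]
    refine mul_le_mul_of_nonneg_left ?_ (by linarith)
    rw [Complex.add_re]
    have h3 := D.integral_error_le i
    have h4 := (abs_le.1 (Complex.abs_re_le_norm (∫ x in (0:ℝ)..1, (D.U i x - D.u i) * S D.n D.N (D.w i) x))).1
    have h5 : D.W i - D.c i ≤ ((D.u i : ℂ) * D.W i).re := by
      rw [← Complex.ofReal_mul, Complex.ofReal_re]
      have h6 : 1 - D.c i ≤ D.u i := by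
        unfold u
        have := Real.add_one_le_exp (-D.c i)
        linarith
      have h7 := D.W_nonneg i
      have h8 := D.W_le_one i
      have h9 := D.c_nonneg i
      nlinarith
    linarith
  have h3 := Finset.sum_le_sum h2
  refine le_trans ?_ h3
  rw [Finset.sum_sub_distrib, ← Finset.mul_sum, ← Finset.mul_sum, Finset.sum_sub_distrib]
  have h4 := D.sum_errors_le
  have h5 := D.sum_c_le
  nlinarith

end Data

end Pool.Agent.Littlewood
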