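import Mathlib
import Pool.Agent.Lib.MP_d1728b_an.MainLower

set_option autoImplicit false
open Finset MeasureTheory

namespace Pool.Agent.Littlewood

/-- spectrum at most `b` -/
def SpecLE (b : ℤ) (g : ℝ → ℂ) : Prop :=
  ∃ h : ℂ → ℂ, Differentiable ℂ h ∧ ∀ x, g x = E b x * h (E (-1) x)

namespace SpecLE

lemma mono {b b' : ℤ} {g : ℝ → ℂ} (h : SpecLE b g) (hb : b ≤ b') : SpecLE b' g := by
  obtain ⟨h, hd, hg⟩ := h
  obtain ⟨m, hm⟩ := Int.eq_ofNat_of_zero_le (sub_nonneg.2 hb)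
  refine ⟨fun z => z ^ m * h z, (differentiable_id.pow m).mul hd, fun x => ?_⟩
  simp only
  rw [hg, E_pow, ← mul_assoc, ← E_add]
  congr 2
  have : (m : ℤ) = b' - b := by rw [hm]
  rw [this]; ring

lemma mul {b b' : ℤ} {g g' : ℝ → ℂ} (h : SpecLE b g) (h' : SpecLE b' g') :
    SpecLE (b + b') (fun x => g x * g' x) := by
  obtain ⟨h, hd, hg⟩ := h
  obtain ⟨h', hd', hg'⟩ := h'
  refine ⟨fun z => h z * h' z, hd.mul hd', fun x => ?_⟩
  simp only
  rw [hg, hg', E_add]; ring

lemma const (c : ℂ) : SpecLE 0 (fun _ => c) :=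
  ⟨fun _ => c, differentiable_const c, fun x => by rw [E_zero, one_mul]⟩

lemma const_mul {b : ℤ} {g : ℝ → ℂ} (c : ℂ) (h : SpecLE b g) : SpecLE b (fun x => c * g x) := by
  have := (const c).mul h
  rwa [zero_add] at this

lemma pow {b : ℤ} {g : ℝ → ℂ} (h : SpecLE b g) (j : ℕ) : SpecLE (j * b) (fun x => g x ^ j) := by
  induction j with
  | zero => simpa using const 1
  | succ j ih =>
    have := ih.mul h
    have e : (j : ℤ) * b + b = ((j + 1 : ℕ) : ℤ) * b := by push_cast; ring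
    rw [e] at this
    simpa only [pow_succ] using this

lemma sum {ι : Type*} (s : Finset ι) {b : ℤ} {g : ι → ℝ → ℂ} (h : ∀ i ∈ s, SpecLE b (g i)) :
    SpecLE b (fun x => ∑ i ∈ s, g i x) := by
  classical
  induction s using Finset.induction_on with
  | empty => exact ⟨fun _ => 0, differentiable_const 0, fun x => by simp⟩
  | insert i s hi ih =>
    obtain ⟨h1, hd1, hg1⟩ := h i (Finset.mem_insert_self i s)
    obtain ⟨h2, hd2, hg2⟩ := ih fun j hj => h j (Finset.mem_insert_of_mem hj)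
    refine ⟨fun z => h1 z + h2 z, hd1.add hd2, fun x => ?_⟩
    simp only at hg2 ⊢
    rw [Finset.sum_insert hi, hg1, hg2]; ring

lemma E (n : ℤ) : SpecLE n (Littlewood.E n) :=
  ⟨fun _ => 1, differentiable_const 1, fun x => by rw [mul_one]⟩

lemma continuous {b : ℤ} {g : ℝ → ℂ} (h : SpecLE b g) : Continuous g := by
  obtain ⟨h, hd, hg⟩ := h
  have : g = fun x => Littlewood.E b x * h (Littlewood.E (-1) x) := funext hg
  rw [this]
  exact (continuous_E b).mul (hd.continuous.comp (continuous_E _))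

lemma integral_eq_zero {b n : ℤ} {g : ℝ → ℂ} (h : SpecLE b g) (hn : b < n) :
    ∫ x in (0:ℝ)..1, g x * (starRingEnd ℂ) (Littlewood.E n x) = 0 := by
  obtain ⟨h, hd, hg⟩ := h
  obtain ⟨m, hm⟩ := Int.eq_ofNat_of_zero_le (sub_nonneg.2 hn.le)
  have h1 : ∀ x, g x * (starRingEnd ℂ) (Littlewood.E n x) = h (Littlewood.E (-1) x) * Littlewood.E (-(m:ℤ)) x := by
    intro x
    rw [hg, conj_E]
    have : -(m:ℤ) = b + -n := by omega
    rw [this, E_add]; ring
  simp_rw [h1]
  rw [integral_mul_E_neg hd m, if_neg (by omega)]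

end SpecLE

lemma integral_mul_le_sqrt {g h : ℝ → ℝ} (hg : Continuous g) (hh : Continuous h) {a b : ℝ}
    (ha : 0 < a) (hb : 0 < b) (h1 : ∫ x in (0:ℝ)..1, g x ^ 2 ≤ a) (h2 : ∫ x in (0:ℝ)..1, h x ^ 2 ≤ b) :
    ∫ x in (0:ℝ)..1, g x * h x ≤ Real.sqrt (a * b) := by
  set sa := Real.sqrt a with hsa
  set sb := Real.sqrt b with hsb
  have hsa0 : 0 < sa := Real.sqrt_pos.2 ha
  have hsb0 : 0 < sb := Real.sqrt_pos.2 hb
  have ea : sa ^ 2 = a := Real.sq_sqrt ha.le
  have eb : sb ^ 2 = b := Real.sq_sqrt hb.le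
  have i1 : IntervalIntegrable (fun x => sb / (2 * sa) * g x ^ 2) volume 0 1 :=
    (continuous_const.mul (hg.pow 2)).intervalIntegrable _ _
  have i2 : IntervalIntegrable (fun x => sa / (2 * sb) * h x ^ 2) volume 0 1 :=
    (continuous_const.mul (hh.pow 2)).intervalIntegrable _ _
  have h3 : ∫ x in (0:ℝ)..1, g x * h x ≤
      ∫ x in (0:ℝ)..1, (sb / (2 * sa) * g x ^ 2 + sa / (2 * sb) * h x ^ 2) := by
    refine intervalIntegral.integral_mono_on zero_le_one ((hg.mul hh).intervalIntegrable _ _) (i1.add i2) ?_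
    intro x _
    have : 0 ≤ (sb * g x - sa * h x) ^ 2 / (2 * sa * sb) := by positivity
    have e : (sb * g x - sa * h x) ^ 2 / (2 * sa * sb) =
        sb / (2 * sa) * g x ^ 2 + sa / (2 * sb) * h x ^ 2 - g x * h x := by
      field_simp; ring
    linarith
  refine h3.trans ?_
  rw [intervalIntegral.integral_add i1 i2, intervalIntegral.integral_const_mul,
    intervalIntegral.integral_const_mul, Real.sqrt_mul ha.le]
  have h4 : sb / (2 * sa) * ∫ x in (0:ℝ)..1, g x ^ 2 ≤ sb / (2 * sa) * a :=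
    mul_le_mul_of_nonneg_left h1 (by positivity)
  have h5 : sa / (2 * sb) * ∫ x in (0:ℝ)..1, h x ^ 2 ≤ sa / (2 * sb) * b :=
    mul_le_mul_of_nonneg_left h2 (by positivity)
  have h6 : sb / (2 * sa) * a + sa / (2 * sb) * b = sa * sb := by
    rw [← ea, ← eb]; field_simp; ring
  linarith

namespace Data
variable (D : Data)

lemma spec_U (i : ℕ) : SpecLE 0 (D.U i) :=
  ⟨D.h i, D.differentiable_h i, fun x => by rw [E_zero, one_mul]; rfl⟩

lemma spec_p {b : ℤ} (i : ℕ) (h : ∀ k < D.N, D.w i k ≠ 0 → D.n k ≤ b) : SpecLE b (D.p i) := by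
  unfold p
  refine SpecLE.const_mul _ (SpecLE.sum _ fun k hk => ?_)
  by_cases hw : D.w i k = 0
  · have e : (fun x => (D.w i k : ℂ) * E (D.n k) x) = fun x => (0:ℂ) * E b x := by
      ext x; rw [hw]; simp
    rw [e]
    exact (SpecLE.E b).const_mul 0
  · exact ((SpecLE.E (D.n k)).mono (h k (Finset.mem_range.1 hk) hw)).const_mul _

lemma spec_F {b : ℤ} (l : ℕ) (h : ∀ i < l, ∀ k < D.N, D.w i k ≠ 0 → D.n k ≤ b) : SpecLE b (D.F l) := by
  unfold F
  refine SpecLE.sum _ fun i hi => ?_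
  have := (D.spec_p i (h i (Finset.mem_range.1 hi))).mul (D.spec_U i)
  rwa [add_zero] at this

/-- initial part of `f` -/
noncomputable def fi (M : ℕ) (x : ℝ) : ℂ := ∑ k ∈ range M, E (D.n k) x

lemma continuous_fi (M : ℕ) : Continuous (D.fi M) := continuous_finsetSum _ fun _ _ => continuous_E _

lemma integral_fi_sq {M : ℕ} (hM : M ≤ D.N) : ∫ x in (0:ℝ)..1, ‖D.fi M x‖ ^ 2 = M := by
  have hinj : ∀ j < D.N, ∀ j' < D.N, D.n j = D.n j' → j = j' := by
    intro j hj j' hj' h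
    rcases lt_trichotomy j j' with h1 | h1 | h1
    · have := D.hn j j' h1 hj'; omega
    · exact h1
    · have := D.hn j' j h1 hj; omega
  have h1 := integral_norm_sq_sum (range M) (fun _ => 1) D.n
  have e : ∀ x, D.fi M x = ∑ i ∈ range M, ((1:ℝ) : ℂ) * E (D.n i) x := by
    intro x; unfold fi; simp
  simp_rw [e]
  rw [h1]
  have h2 : ∀ k ∈ range M, ∑ j ∈ range M, (if D.n k = D.n j then (1:ℝ) * 1 else 0) = 1 := by
    intro k hk
    rw [Finset.sum_eq_single k]
    · simp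
    · intro j hj hjk
      rw [if_neg]
      intro h
      exact hjk (hinj k ((Finset.mem_range.1 hk).trans_le hM) j ((Finset.mem_range.1 hj).trans_le hM) h).symm
    · intro h; exact absurd hk h
  rw [Finset.sum_congr rfl h2]
  simp

/-- only the small ranks matter -/
lemma pair_restrict {b : ℤ} {g : ℝ → ℂ} (hg : SpecLE b g) {M : ℕ} (hM : M ≤ D.N)
    (h : ∀ k, M ≤ k → k < D.N → b < D.n k) :
    ∫ x in (0:ℝ)..1, g x * (starRingEnd ℂ) (D.f x) = ∫ x in (0:ℝ)..1, g x * (starRingEnd ℂ) (D.fi M x) := by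
  have hgc := hg.continuous
  have e : ∀ x, g x * (starRingEnd ℂ) (D.f x) = g x * (starRingEnd ℂ) (D.fi M x) +
      ∑ k ∈ Ico M D.N, g x * (starRingEnd ℂ) (E (D.n k) x) := by
    intro x
    unfold f fi
    rw [← Finset.sum_range_add_sum_Ico _ hM, map_add, mul_add, map_sum, map_sum, ← Finset.mul_sum]
  simp_rw [e]
  have i1 : IntervalIntegrable (fun x => g x * (starRingEnd ℂ) (D.fi M x)) volume 0 1 :=
    (hgc.mul (Complex.continuous_conj.comp (D.continuous_fi M))).intervalIntegrable _ _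
  have i2 : ∀ k ∈ Ico M D.N, IntervalIntegrable (fun x => g x * (starRingEnd ℂ) (E (D.n k) x)) volume 0 1 :=
    fun k _ => (hgc.mul (Complex.continuous_conj.comp (continuous_E _))).intervalIntegrable _ _
  have i3 : IntervalIntegrable (fun x => ∑ k ∈ Ico M D.N, g x * (starRingEnd ℂ) (E (D.n k) x)) volume 0 1 :=
    (continuous_finsetSum _ fun _ _ => hgc.mul (Complex.continuous_conj.comp (continuous_E _))).intervalIntegrable _ _
  rw [intervalIntegral.integral_add i1 i3, intervalIntegral.integral_finsetSum i2]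
  rw [Finset.sum_eq_zero, add_zero]
  intro k hk
  rw [Finset.mem_Ico] at hk
  exact hg.integral_eq_zero (h k hk.1 hk.2)

end Data

end Pool.Agent.Littlewood
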