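import Mathlib
import Pool.Agent.Lib.MP_d1728b_an.Spectrum

set_option autoImplicit false
open Finset MeasureTheory

namespace Pool.Agent.Littlewood

lemma norm_pow_sub_pow_le' {a b : ℂ} (ha : ‖a‖ ≤ 1) (hb : ‖b‖ ≤ 1) (j : ℕ) :
    ‖a ^ j - b ^ j‖ ≤ j * ‖a - b‖ := by
  induction j with
  | zero => simp
  | succ j ih =>
    have e : a ^ (j + 1) - b ^ (j + 1) = a * (a ^ j - b ^ j) + (a - b) * b ^ j := by ring
    rw [e]
    refine (norm_add_le _ _).trans ?_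
    rw [norm_mul, norm_mul, norm_pow]
    have h1 : ‖a‖ * ‖a ^ j - b ^ j‖ ≤ j * ‖a - b‖ :=
      (mul_le_of_le_one_left (norm_nonneg _) ha).trans ih
    have h2 : ‖a - b‖ * ‖b‖ ^ j ≤ ‖a - b‖ :=
      mul_le_of_le_one_right (norm_nonneg _) (pow_le_one₀ (norm_nonneg _) hb)
    push_cast
    linarith

lemma norm_mul_sub_mul_le {a b c d : ℂ} (hb : ‖b‖ ≤ 1) (hc : ‖c‖ ≤ 1) :
    ‖a * b - c * d‖ ≤ ‖a - c‖ + ‖b - d‖ := by
  have e : a * b - c * d = (a - c) * b + c * (b - d) := by ring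
  rw [e]
  refine (norm_add_le _ _).trans ?_
  rw [norm_mul, norm_mul]
  have h1 : ‖a - c‖ * ‖b‖ ≤ ‖a - c‖ := mul_le_of_le_one_right (norm_nonneg _) hb
  have h2 : ‖c‖ * ‖b - d‖ ≤ ‖b - d‖ := mul_le_of_le_one_left (norm_nonneg _) hc
  linarith

lemma norm_integral_le_of_le {g : ℝ → ℂ} {h : ℝ → ℝ} (hg : Continuous g) (hh : Continuous h)
    (hgh : ∀ x, ‖g x‖ ≤ h x) : ‖∫ x in (0:ℝ)..1, g x‖ ≤ ∫ x in (0:ℝ)..1, h x := by
  refine (intervalIntegral.norm_integral_le_integral_norm zero_le_one).trans ?_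
  exact intervalIntegral.integral_mono_on zero_le_one (hg.norm.intervalIntegrable _ _)
    (hh.intervalIntegrable _ _) fun x _ => hgh x

namespace Data

lemma norm_U_le_one (D : Data) (i : ℕ) (x : ℝ) : ‖D.U i x‖ ≤ 1 := by
  refine (D.norm_U_le i x).trans ?_
  rw [Real.exp_le_one_iff]
  have := phi_nonneg (D.X i x)
  linarith

lemma norm_pU_le (D : Data) (i : ℕ) (x : ℝ) : ‖D.p i x * D.U i x‖ ≤ D.a i x := by
  rw [norm_mul]
  exact mul_le_of_le_one_right (norm_nonneg _) (D.norm_U_le_one i x)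

lemma int_F_sub (D : Data) {i s : ℕ} (hs : 1 ≤ s) :
    ∫ x in (0:ℝ)..1, ‖D.F D.K x - D.F (min (i + s) D.K) x‖ ^ 2 ≤ Real.exp (-(D.η * ((i + s - 1 : ℕ) : ℝ))) := by
  rcases le_total D.K (i + s) with h | h
  · rw [min_eq_right h]
    simp [Real.exp_nonneg]
  · rw [min_eq_left h]
    refine le_trans ?_ (D.integral_X_sq_le (i + s - 1))
    refine intervalIntegral.integral_mono_on zero_le_one ?_ ?_ ?_
    · exact (((D.continuous_F _).sub (D.continuous_F _)).norm.pow 2).intervalIntegrable _ _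
    · exact ((D.continuous_X _).pow 2).intervalIntegrable _ _
    · intro x _
      refine pow_le_pow_left₀ (norm_nonneg _) ?_ 2
      have e : D.F D.K x - D.F (i + s) x = ∑ l ∈ Ico (i + s) D.K, D.p l x * D.U l x := by
        unfold F
        rw [← Finset.sum_range_add_sum_Ico _ h]; ring
      rw [e]
      unfold X
      have e2 : i + s - 1 + 1 = i + s := by omega
      rw [e2]
      exact (norm_sum_le _ _).trans (Finset.sum_le_sum fun l _ => D.norm_pU_le l x)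

lemma cross_scale (D1 D2 : Data) {κ : ℝ} (hκ0 : 0 ≤ κ) (hb1 : ∀ l ≤ D1.K, ∀ x, κ * ‖D1.F l x‖ ≤ 1)
    (hb2 : ∀ l ≤ D2.K, ∀ x, κ * ‖D2.F l x‖ ≤ 1)
    {i l1 l2 : ℕ} (hl1 : l1 ≤ D1.K) (hl2 : l2 ≤ D2.K) {M k0 : ℕ} (hMN : M ≤ D1.N) (hkM : k0 ≤ M) (j : ℕ)
    {β bl : ℤ}
    (hp : SpecLE β (D1.p i)) (hFK : SpecLE 0 (fun x => D1.F D1.K x * D2.F D2.K x))
    (hFl : SpecLE bl (fun x => D1.F l1 x * D2.F l2 x))
    (hM : ∀ k, M ≤ k → k < D1.N → β < D1.n k)
    (hk : ∀ k, k0 ≤ k → k < D1.N → β + j * bl < D1.n k)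
    {b0 M' e1 : ℝ} (hb0 : 0 < b0) (hkb : (k0:ℝ) ≤ b0) (hM'0 : 0 < M') (hMM : (M:ℝ) ≤ M') (he0 : 0 < e1)
    (hE1 : ∫ x in (0:ℝ)..1, ‖D1.F D1.K x - D1.F l1 x‖ ^ 2 ≤ e1)
    (hE2 : ∫ x in (0:ℝ)..1, ‖D2.F D2.K x - D2.F l2 x‖ ^ 2 ≤ e1) :
    ‖∫ x in (0:ℝ)..1, D1.p i x * D1.U i x * ((κ * D1.F D1.K x) * (κ * D2.F D2.K x)) ^ j *
      (starRingEnd ℂ) (D1.f x)‖ ≤
      D1.η / 2 * Real.sqrt (Real.exp (-(D1.η * i)) * b0) + D1.η / 2 * (j * κ * (2 * Real.sqrt (e1 * M'))) := by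
  have hη := D1.hη0
  set G : ℝ → ℂ := fun x => D1.p i x * D1.U i x with hG
  set A : ℝ → ℂ := fun x => (κ * D1.F D1.K x) * (κ * D2.F D2.K x) with hA
  set B : ℝ → ℂ := fun x => (κ * D1.F l1 x) * (κ * D2.F l2 x) with hB
  have hGs : SpecLE β G := by
    have := hp.mul (D1.spec_U i)
    rwa [add_zero] at this
  have hAs : SpecLE 0 A := by
    have := hFK.const_mul ((κ:ℂ) * κ)
    have e : A = fun x => (κ:ℂ) * κ * (D1.F D1.K x * D2.F D2.K x) := by
      ext x; simp only [hA]; ring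
    rw [e]; exact this
  have hBs : SpecLE bl B := by
    have := hFl.const_mul ((κ:ℂ) * κ)
    have e : B = fun x => (κ:ℂ) * κ * (D1.F l1 x * D2.F l2 x) := by
      ext x; simp only [hB]; ring
    rw [e]; exact this
  have hGA : SpecLE β (fun x => G x * A x ^ j) := by
    have := hGs.mul (hAs.pow j)
    rwa [mul_zero, add_zero] at this
  have hGB : SpecLE (β + j * bl) (fun x => G x * B x ^ j) := hGs.mul (hBs.pow j)
  have hGc := hGs.continuous
  have hAc := hAs.continuous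
  have hBc := hBs.continuous
  have hκn : ∀ z : ℂ, ‖(κ:ℂ) * z‖ = κ * ‖z‖ := by
    intro z; rw [norm_mul, Complex.norm_real, Real.norm_of_nonneg hκ0]
  have hA1 : ∀ x, ‖A x‖ ≤ 1 := by
    intro x
    simp only [hA]
    rw [norm_mul, hκn, hκn]
    exact mul_le_one₀ (hb1 _ le_rfl x) (by positivity) (hb2 _ le_rfl x)
  have hB1 : ∀ x, ‖B x‖ ≤ 1 := by
    intro x
    simp only [hB]
    rw [norm_mul, hκn, hκn]
    exact mul_le_one₀ (hb1 _ hl1 x) (by positivity) (hb2 _ hl2 x)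
  have hAB : ∀ x, ‖A x - B x‖ ≤ κ * ‖D1.F D1.K x - D1.F l1 x‖ + κ * ‖D2.F D2.K x - D2.F l2 x‖ := by
    intro x
    have := norm_mul_sub_mul_le (a := κ * D1.F D1.K x) (b := κ * D2.F D2.K x) (c := κ * D1.F l1 x)
      (d := κ * D2.F l2 x) (by rw [hκn]; exact hb2 _ le_rfl x) (by rw [hκn]; exact hb1 _ hl1 x)
    rw [← mul_sub, ← mul_sub, hκn, hκn] at this
    exact this
  have h1 : ∫ x in (0:ℝ)..1, G x * A x ^ j * (starRingEnd ℂ) (D1.f x) =
      ∫ x in (0:ℝ)..1, G x * A x ^ j * (starRingEnd ℂ) (D1.fi M x) :=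
    D1.pair_restrict hGA hMN hM
  have h2a : ∫ x in (0:ℝ)..1, G x * B x ^ j * (starRingEnd ℂ) (D1.f x) =
      ∫ x in (0:ℝ)..1, G x * B x ^ j * (starRingEnd ℂ) (D1.fi k0 x) :=
    D1.pair_restrict hGB (hkM.trans hMN) hk
  have h2b : ∫ x in (0:ℝ)..1, G x * B x ^ j * (starRingEnd ℂ) (D1.f x) =
      ∫ x in (0:ℝ)..1, G x * B x ^ j * (starRingEnd ℂ) (D1.fi M x) :=
    D1.pair_restrict hGB hMN fun k h1 h2 => hk k (hkM.trans h1) h2
  have cfM : Continuous (fun x => (starRingEnd ℂ) (D1.fi M x)) :=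
    Complex.continuous_conj.comp (D1.continuous_fi M)
  have cfk : Continuous (fun x => (starRingEnd ℂ) (D1.fi k0 x)) :=
    Complex.continuous_conj.comp (D1.continuous_fi k0)
  have cdiff : Continuous (fun x => G x * (A x ^ j - B x ^ j) * (starRingEnd ℂ) (D1.fi M x)) :=
    (hGc.mul ((hAc.pow j).sub (hBc.pow j))).mul cfM
  have h3 : ∫ x in (0:ℝ)..1, G x * A x ^ j * (starRingEnd ℂ) (D1.f x) =
      (∫ x in (0:ℝ)..1, G x * B x ^ j * (starRingEnd ℂ) (D1.fi k0 x)) +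
      ∫ x in (0:ℝ)..1, G x * (A x ^ j - B x ^ j) * (starRingEnd ℂ) (D1.fi M x) := by
    rw [h1, ← h2a, h2b, ← intervalIntegral.integral_add]
    · refine intervalIntegral.integral_congr fun x _ => ?_
      ring
    · exact ((hGc.mul (hBc.pow j)).mul cfM).intervalIntegrable _ _
    · exact cdiff.intervalIntegrable _ _
  rw [h3]
  refine (norm_add_le _ _).trans (add_le_add ?_ ?_)
  · -- first term
    have h4 : ‖∫ x in (0:ℝ)..1, G x * B x ^ j * (starRingEnd ℂ) (D1.fi k0 x)‖ ≤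
        ∫ x in (0:ℝ)..1, D1.a i x * ‖D1.fi k0 x‖ := by
      refine norm_integral_le_of_le ((hGc.mul (hBc.pow j)).mul cfk)
        ((D1.continuous_a i).mul (D1.continuous_fi k0).norm) fun x => ?_
      rw [norm_mul, norm_mul, norm_pow, RCLike.norm_conj]
      refine mul_le_mul_of_nonneg_right ?_ (norm_nonneg _)
      exact (mul_le_of_le_one_right (norm_nonneg _) (pow_le_one₀ (norm_nonneg _) (hB1 x))).trans
        (D1.norm_pU_le i x)
    refine h4.trans ?_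
    have h5 := integral_mul_le_sqrt (D1.continuous_a i) (D1.continuous_fi k0).norm
      (a := D1.η ^ 2 / 4 * sc D1.η i) (b := b0) (mul_pos (by positivity) (sc_pos _ _)) hb0
      (D1.integral_a_sq_le i) (by rw [D1.integral_fi_sq (hkM.trans hMN)]; exact hkb)
    refine h5.trans (le_of_eq ?_)
    have e : D1.η ^ 2 / 4 * sc D1.η i * b0 = (D1.η / 2) ^ 2 * (Real.exp (-(D1.η * i)) * b0) := by
      unfold sc; ring
    rw [e, Real.sqrt_mul (sq_nonneg _), Real.sqrt_sq (by positivity)]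
  · -- second term
    have cF1 : Continuous (fun x => ‖D1.F D1.K x - D1.F l1 x‖) :=
      ((D1.continuous_F _).sub (D1.continuous_F _)).norm
    have cF2 : Continuous (fun x => ‖D2.F D2.K x - D2.F l2 x‖) :=
      ((D2.continuous_F _).sub (D2.continuous_F _)).norm
    have cn : Continuous (fun x => ‖D1.fi M x‖) := (D1.continuous_fi M).norm
    have h4 : ‖∫ x in (0:ℝ)..1, G x * (A x ^ j - B x ^ j) * (starRingEnd ℂ) (D1.fi M x)‖ ≤
        ∫ x in (0:ℝ)..1, D1.η / 2 * (j * κ) * (‖D1.F D1.K x - D1.F l1 x‖ * ‖D1.fi M x‖ +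
          ‖D2.F D2.K x - D2.F l2 x‖ * ‖D1.fi M x‖) := by
      refine norm_integral_le_of_le cdiff (continuous_const.mul ((cF1.mul cn).add (cF2.mul cn)))
        fun x => ?_
      rw [norm_mul, norm_mul, RCLike.norm_conj]
      have e1 : ‖G x‖ ≤ D1.η / 2 := (D1.norm_pU_le i x).trans (D1.a_le i x)
      have e2 := norm_pow_sub_pow_le' (hA1 x) (hB1 x) j
      have e3 : (j:ℝ) * ‖A x - B x‖ ≤ j * (κ * ‖D1.F D1.K x - D1.F l1 x‖ + κ * ‖D2.F D2.K x - D2.F l2 x‖) :=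
        mul_le_mul_of_nonneg_left (hAB x) (Nat.cast_nonneg _)
      calc ‖G x‖ * ‖A x ^ j - B x ^ j‖ * ‖D1.fi M x‖ ≤
            (D1.η / 2) * (j * (κ * ‖D1.F D1.K x - D1.F l1 x‖ + κ * ‖D2.F D2.K x - D2.F l2 x‖)) * ‖D1.fi M x‖ := by
            refine mul_le_mul_of_nonneg_right ?_ (norm_nonneg _)
            exact mul_le_mul e1 (e2.trans e3) (norm_nonneg _) (by positivity)
        _ = _ := by ring
    refine h4.trans ?_
    have i1 : IntervalIntegrable (fun x => ‖D1.F D1.K x - D1.F l1 x‖ * ‖D1.fi M x‖) volume 0 1 :=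
      (cF1.mul cn).intervalIntegrable _ _
    have i2 : IntervalIntegrable (fun x => ‖D2.F D2.K x - D2.F l2 x‖ * ‖D1.fi M x‖) volume 0 1 :=
      (cF2.mul cn).intervalIntegrable _ _
    rw [intervalIntegral.integral_const_mul, intervalIntegral.integral_add i1 i2]
    have hMsq : ∫ x in (0:ℝ)..1, ‖D1.fi M x‖ ^ 2 ≤ M' := by
      rw [D1.integral_fi_sq hMN]; exact hMM
    have h5 := integral_mul_le_sqrt cF1 cn he0 hM'0 hE1 hMsq
    have h6 := integral_mul_le_sqrt cF2 cn he0 hM'0 hE2 hMsq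
    have h7 : 0 ≤ D1.η / 2 * (j * κ) := by positivity
    calc D1.η / 2 * (j * κ) * _ ≤ D1.η / 2 * (j * κ) * (Real.sqrt (e1 * M') + Real.sqrt (e1 * M')) :=
          mul_le_mul_of_nonneg_left (add_le_add h5 h6) h7
      _ = _ := by ring

end Data

end Pool.Agent.Littlewood
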