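import Mathlib
import Pool.Agent.Lib.MP_d1728b_an.RealLemmas
import Pool.Agent.Lib.MP_d1728b_an.Fourier
import Pool.Agent.Lib.MP_d1728b_an.Sums
import Pool.Agent.Lib.MP_d1728b_an.Construction
import Pool.Agent.Lib.MP_d1728b_an.MainLower

set_option autoImplicit false
open Finset MeasureTheory

namespace Pool.Agent.Littlewood

lemma re_integral_le {T f : ℝ → ℂ} (hT : Continuous T) (hf : Continuous f) {B : ℝ}
    (hB : ∀ x, ‖T x‖ ≤ B) :
    (∫ x in (0:ℝ)..1, T x * (starRingEnd ℂ) (f x)).re ≤ B * ∫ x in (0:ℝ)..1, ‖f x‖ := by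
  have hfc : Continuous (fun x => (starRingEnd ℂ) (f x)) := Complex.continuous_conj.comp hf
  refine (Complex.re_le_norm _).trans ?_
  refine (intervalIntegral.norm_integral_le_integral_norm zero_le_one).trans ?_
  rw [← intervalIntegral.integral_const_mul]
  refine intervalIntegral.integral_mono_on zero_le_one ?_ ?_ ?_
  · exact ((hT.mul hfc).norm).intervalIntegrable _ _
  · exact (continuous_const.mul hf.norm).intervalIntegrable _ _
  · intro x _
    rw [norm_mul, RCLike.norm_conj]
    exact mul_le_mul_of_nonneg_right (hB x) (norm_nonneg _)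

/-- increasing enumeration of a finite set of integers -/
noncomputable def enum (A : Finset ℤ) (k : ℕ) : ℤ :=
  if h : k < A.card then A.orderEmbOfFin rfl ⟨k, h⟩ else 0

lemma enum_lt (A : Finset ℤ) (j k : ℕ) (hjk : j < k) (hk : k < A.card) : enum A j < enum A k := by
  unfold enum
  rw [dif_pos (hjk.trans hk), dif_pos hk]
  exact (A.orderEmbOfFin rfl).strictMono (by simpa using hjk)

lemma sum_enum {M : Type*} [AddCommMonoid M] (A : Finset ℤ) (g : ℤ → M) :
    ∑ k ∈ range A.card, g (enum A k) = ∑ a ∈ A, g a := by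
  rw [Finset.sum_range]
  have h1 : ∀ i : Fin A.card, g (enum A i) = g (A.orderEmbOfFin rfl i) := by
    intro i
    unfold enum
    rw [dif_pos i.2]
  rw [Finset.sum_congr rfl fun i _ => h1 i]
  have h2 : A = Finset.univ.map (A.orderEmbOfFin rfl).toEmbedding := by
    ext a
    simp only [Finset.mem_map, Finset.mem_univ, true_and]
    have := Finset.range_orderEmbOfFin A rfl
    constructor
    · intro ha
      have : a ∈ Set.range (A.orderEmbOfFin rfl) := by rw [this]; exact ha
      exact this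
    · intro ha
      have h3 : a ∈ Set.range (A.orderEmbOfFin rfl) := ha
      rw [this] at h3
      exact h3
  conv_rhs => rw [h2]
  rw [Finset.sum_map]
  rfl

lemma sum_exp_le {η : ℝ} (K : ℕ) :
    η * ∑ i ∈ range K, Real.exp (η * i) ≤ Real.exp (η * K) := by
  have e1 : ∀ l : ℕ, Real.exp (η * l) = Real.exp η ^ l := by
    intro l; rw [← Real.exp_nat_mul]; congr 1; ring
  simp_rw [e1]
  have h1 := geom_range_eq (q := Real.exp η) K
  rw [← Finset.mul_sum] at h1
  have h2 := Real.add_one_le_exp η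
  have h3 : 0 ≤ ∑ i ∈ range K, Real.exp η ^ i := Finset.sum_nonneg fun i _ => by positivity
  nlinarith

/-- The data for T1. -/
noncomputable def data1 (A : Finset ℤ) (η : ℝ) (hη0 : 0 < η) (hη1 : η ≤ 1) (K : ℕ) : Data where
  n := enum A
  N := A.card
  hn := enum_lt A
  η := η
  hη0 := hη0
  hη1 := hη1
  K := K
  w := fun i k => (1 - qq η i) * qq η i ^ k
  hw0 := fun i k => mul_nonneg (by linarith [qq_lt_one η i]) (pow_nonneg (qq_nonneg hη0.le i) k)
  hw1 := fun _ _ => le_rfl

theorem norm_ge (A : Finset ℤ) :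
    1 / Real.pi * Real.log A.card - 7 ≤ ∫ x in (0:ℝ)..1, ‖∑ a ∈ A, E a x‖ := by
  have hpi := Real.pi_gt_three
  have hint0 : 0 ≤ ∫ x in (0:ℝ)..1, ‖∑ a ∈ A, E a x‖ :=
    intervalIntegral.integral_nonneg zero_le_one fun _ _ => norm_nonneg _
  set L := Real.log A.card with hL
  by_cases hsmall : 1 / Real.pi * L ≤ 7
  · linarith
  push Not at hsmall
  have hL21 : 21 < L := by
    have h1 : L = Real.pi * (1 / Real.pi * L) := by field_simp
    rw [h1]; nlinarith
  have hN : 0 < A.card := by
    rcases Nat.eq_zero_or_pos A.card with h | h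
    · rw [h] at hL; simp at hL; linarith
    · exact h
  have hNr : (0:ℝ) < A.card := by exact_mod_cast hN
  have hexpL : Real.exp L = A.card := Real.exp_log hNr
  set η := 1 / L with hη
  have hη0 : 0 < η := by positivity
  have hη1 : η ≤ 1 := by rw [hη, div_le_one (by linarith)]; linarith
  have hηL : η * L = 1 := by rw [hη]; field_simp
  set K := ⌊L / η⌋₊ with hK
  have hK1 : (K:ℝ) ≤ L / η := Nat.floor_le (by positivity)
  have hK2 : L / η - 1 ≤ K := (Nat.sub_one_lt_floor _).le
  have hηK1 : η * K ≤ L := by rw [le_div_iff₀ hη0] at hK1; linarith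
  have hηK2 : L - η ≤ η * K := by
    have : L / η ≤ K + 1 := by linarith
    rw [div_le_iff₀ hη0] at this; linarith
  set D := data1 A η hη0 hη1 K with hD
  have hmain := D.main_lower
  have hDη : D.η = η := rfl
  have hDK : D.K = K := rfl
  rw [hDη, hDK] at hmain
  have hW : ∀ i ∈ range K, 1 - Real.exp (η * i) / A.card ≤ D.W i := by
    intro i _
    have h1 : D.W i = 1 - qq η i ^ A.card := geom_range_eq _
    rw [h1]
    have h2 : qq η i ^ A.card ≤ Real.exp (-sc η i) ^ A.card :=
      pow_le_pow_left₀ (qq_nonneg hη0.le i) (qq_le η i hη0.le) _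
    have h3 : Real.exp (-sc η i) ^ A.card ≤ Real.exp (η * i) / A.card := by
      rw [← Real.exp_nat_mul, le_div_iff₀ hNr]
      have h4 := Real.add_one_le_exp (sc η i * A.card)
      have h5 : Real.exp (A.card * -sc η i) = (Real.exp (sc η i * A.card))⁻¹ := by
        rw [← Real.exp_neg]; congr 1; ring
      have h6 : Real.exp (η * i) = (sc η i)⁻¹ := by
        unfold sc; rw [Real.exp_neg, inv_inv]
      have h7 := sc_pos η i
      rw [h5, h6, inv_mul_eq_div, div_le_iff₀ (Real.exp_pos _)]
      have h8 : (A.card : ℝ) = (sc η i)⁻¹ * (sc η i * A.card) := by field_simp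
      calc (A.card : ℝ) = (sc η i)⁻¹ * (sc η i * A.card) := h8
        _ ≤ _ := mul_le_mul_of_nonneg_left (by linarith) (inv_nonneg.2 h7.le)
    linarith
  have hWsum : η / 2 * K - 1 / 2 ≤ η / 2 * ∑ i ∈ range K, D.W i := by
    have h1 := Finset.sum_le_sum hW
    rw [Finset.sum_sub_distrib, ← Finset.sum_div] at h1
    simp only [Finset.sum_const, Finset.card_range, nsmul_eq_mul, mul_one] at h1
    have h2 : η * ((∑ i ∈ range K, Real.exp (η * i)) / A.card) ≤ 1 := by
      rw [← mul_div_assoc, div_le_one hNr]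
      refine (sum_exp_le K).trans ?_
      rw [← hexpL]
      exact Real.exp_le_exp.2 hηK1
    nlinarith
  have hup := re_integral_le (D.continuous_F K) D.continuous_f (fun x => D.norm_F_le (le_refl K) x)
  have hf : ∀ x, D.f x = ∑ a ∈ A, E a x := fun x => sum_enum A (fun a => E a x)
  simp_rw [hf] at hup hmain
  have h1 := hmain.trans hup
  rw [hDη] at h1
  set I := ∫ x in (0:ℝ)..1, ‖∑ a ∈ A, E a x‖ with hI
  have h2 : L / 4 - 9 / 2 ≤ Real.exp η * (Real.pi / 4) * I := by
    refine le_trans ?_ h1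
    have h3 : η / 2 * K - 1 / 2 - η / 4 * K * (1 + 3 * η) - 3 ≤
        η / 2 * ∑ i ∈ range K, D.W i - η / 4 * K * (1 + 3 * η) - 3 := by linarith
    refine le_trans ?_ h3
    have h4 : η ≤ 1 / 21 := by
      rw [hη]; exact one_div_le_one_div_of_le (by norm_num) hL21.le
    have h5 : (L - η) * (1 - 3 * η) ≤ η * K * (1 - 3 * η) := mul_le_mul_of_nonneg_right hηK2 (by linarith)
    nlinarith
  have h3 : (1 - η) * (L / 4 - 9 / 2) ≤ Real.pi / 4 * I := by
    have h4 : 1 - η ≤ Real.exp (-η) := by have := Real.add_one_le_exp (-η); linarith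
    calc (1 - η) * (L / 4 - 9 / 2) ≤ Real.exp (-η) * (L / 4 - 9 / 2) :=
          mul_le_mul_of_nonneg_right h4 (by linarith)
      _ ≤ Real.exp (-η) * (Real.exp η * (Real.pi / 4) * I) :=
          mul_le_mul_of_nonneg_left h2 (Real.exp_pos _).le
      _ = (Real.exp (-η) * Real.exp η) * (Real.pi / 4 * I) := by ring
      _ = _ := by rw [← Real.exp_add, neg_add_cancel, Real.exp_zero, one_mul]
  have h4 : L / 4 - 19 / 4 ≤ Real.pi / 4 * I := by nlinarith
  have h5 : 1 / Real.pi * L - 19 / Real.pi ≤ I := by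
    have h6 : I = 4 / Real.pi * (Real.pi / 4 * I) := by field_simp
    have h7 : 1 / Real.pi * L - 19 / Real.pi = 4 / Real.pi * (L / 4 - 19 / 4) := by ring
    rw [h6, h7]
    exact mul_le_mul_of_nonneg_left h4 (by positivity)
  have h6 : 19 / Real.pi ≤ 7 := by rw [div_le_iff₀ (by linarith)]; linarith
  linarith

end Pool.Agent.Littlewood
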