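import Mathlib
import Pool.Agent.Lib.MP_d1728b_an.Cross

set_option autoImplicit false
open Finset MeasureTheory

namespace Pool.Agent.Littlewood

/-- truncation rank of scale `i` -/
noncomputable def Mf (η Λ : ℝ) (i : ℕ) : ℕ := ⌈Λ * Real.exp (η * i)⌉₊
/-- lower rank of scale `i` -/
noncomputable def kf (η Q : ℝ) (i : ℕ) : ℕ := ⌊Real.exp (η * i) / Q⌋₊

open Classical in
/-- truncated weights, only for good scales -/
noncomputable def wt (η Λ : ℝ) (gd : ℕ → Prop) (i k : ℕ) : ℝ :=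
  if gd i ∧ k < Mf η Λ i then (1 - qq η i) * qq η i ^ k else 0

lemma wt_nonneg {η : ℝ} (hη : 0 ≤ η) (Λ : ℝ) (gd : ℕ → Prop) (i k : ℕ) : 0 ≤ wt η Λ gd i k := by
  unfold wt
  split_ifs
  · exact mul_nonneg (by linarith [qq_lt_one η i]) (pow_nonneg (qq_nonneg hη i) k)
  · exact le_rfl

lemma wt_le {η : ℝ} (hη : 0 ≤ η) (Λ : ℝ) (gd : ℕ → Prop) (i k : ℕ) :
    wt η Λ gd i k ≤ (1 - qq η i) * qq η i ^ k := by
  unfold wt
  split_ifs
  · exact le_rfl
  · exact mul_nonneg (by linarith [qq_lt_one η i]) (pow_nonneg (qq_nonneg hη i) k)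

/-- parameters of the two-sided construction -/
structure Par where
  N : ℕ
  η : ℝ
  hη0 : 0 < η
  hη1 : η ≤ 1
  K : ℕ
  Λ : ℝ
  hΛ : 1 ≤ Λ
  Q : ℝ
  hQ : 1 ≤ Q
  s : ℕ
  hs : 1 ≤ s
  gd : ℕ → Prop

namespace Par
variable (P : Par)

noncomputable def M (i : ℕ) : ℕ := Mf P.η P.Λ i
noncomputable def k0 (i : ℕ) : ℕ := kf P.η P.Q i

noncomputable def data (n : ℕ → ℤ) (hn : ∀ j k, j < k → k < P.N → n j < n k) : Data where
  n := n
  N := P.N
  hn := hn
  η := P.η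
  hη0 := P.hη0
  hη1 := P.hη1
  K := P.K
  w := wt P.η P.Λ P.gd
  hw0 := wt_nonneg P.hη0.le P.Λ P.gd
  hw1 := wt_le P.hη0.le P.Λ P.gd

noncomputable def κ : ℝ := 4 / Real.pi * Real.exp (-P.η)

lemma κ_pos : 0 < P.κ := mul_pos (div_pos (by norm_num) Real.pi_pos) (Real.exp_pos _)

lemma κ_le : P.κ ≤ 2 := by
  unfold κ
  have h1 : 4 / Real.pi ≤ 2 := by
    rw [div_le_iff₀ Real.pi_pos]; linarith [Real.pi_gt_three]
  have h2 : Real.exp (-P.η) ≤ 1 := by rw [Real.exp_le_one_iff]; linarith [P.hη0]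
  have h3 := Real.exp_pos (-P.η)
  have h4 : 0 < 4 / Real.pi := div_pos (by norm_num) Real.pi_pos
  nlinarith

lemma κ_bound {n : ℕ → ℤ} (hn : ∀ j k, j < k → k < P.N → n j < n k) :
    ∀ l ≤ P.K, ∀ x, P.κ * ‖(P.data n hn).F l x‖ ≤ 1 := by
  intro l hl x
  have h1 := (P.data n hn).norm_F_le hl x
  have h2 : (P.data n hn).η = P.η := rfl
  rw [h2] at h1
  have hpi := Real.pi_pos
  calc P.κ * ‖(P.data n hn).F l x‖ ≤ P.κ * (Real.exp P.η * (Real.pi / 4)) :=
        mul_le_mul_of_nonneg_left h1 P.κ_pos.le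
    _ = (Real.exp (-P.η) * Real.exp P.η) * ((4 / Real.pi) * (Real.pi / 4)) := by unfold κ; ring
    _ = 1 := by rw [← Real.exp_add, neg_add_cancel, Real.exp_zero, one_mul]; field_simp

lemma M_mono {i i' : ℕ} (h : i ≤ i') : P.M i ≤ P.M i' := by
  unfold M Mf
  refine Nat.ceil_mono (mul_le_mul_of_nonneg_left ?_ (by linarith [P.hΛ]))
  exact Real.exp_le_exp.2 (mul_le_mul_of_nonneg_left (by exact_mod_cast h) P.hη0.le)

lemma one_le_exp (i : ℕ) : 1 ≤ Real.exp (P.η * i) := by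
  rw [Real.one_le_exp_iff]
  have := P.hη0.le
  positivity

lemma M_pos (i : ℕ) : 0 < P.M i := by
  unfold M Mf
  rw [Nat.ceil_pos]
  have := P.hΛ
  positivity

lemma M_le (i : ℕ) : (P.M i : ℝ) ≤ 2 * P.Λ * Real.exp (P.η * i) := by
  unfold M Mf
  have h1 := P.one_le_exp i
  have h2 := P.hΛ
  have h3 : 0 ≤ P.Λ * Real.exp (P.η * i) := by positivity
  have h4 := (Nat.ceil_lt_add_one h3).le
  nlinarith

lemma k0_le (i : ℕ) : (P.k0 i : ℝ) ≤ Real.exp (P.η * i) / P.Q := by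
  unfold k0 kf
  have h2 := P.hQ
  exact Nat.floor_le (by positivity)

lemma k0_le_M (i : ℕ) : P.k0 i ≤ P.M i := by
  unfold k0 kf M Mf
  have h1 := Real.exp_pos (P.η * i)
  have h2 := P.hQ
  have h3 := P.hΛ
  refine (Nat.floor_mono (?_ : _ ≤ P.Λ * Real.exp (P.η * i))).trans (Nat.floor_le_ceil _)
  calc Real.exp (P.η * i) / P.Q ≤ Real.exp (P.η * i) := div_le_self h1.le h2
    _ ≤ _ := le_mul_of_one_le_left h1.le h3

lemma w_ne {i k : ℕ} (h : wt P.η P.Λ P.gd i k ≠ 0) : P.gd i ∧ k < P.M i := by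
  unfold wt at h
  by_contra hcon
  exact h (if_neg hcon)

lemma cross_one {n1 n2 : ℕ → ℤ} (hn1 : ∀ j k, j < k → k < P.N → n1 j < n1 k)
    (hn2 : ∀ j k, j < k → k < P.N → n2 j < n2 k)
    (hmir : ∀ k < P.N, n2 k = -n1 (P.N - 1 - k)) (hbig : 2 * P.M (P.K + P.s) < P.N)
    {i : ℕ} (hi : i < P.K) (hgood : P.gd i → n1 (P.M i - 1) - n1 (P.k0 i) <
      n1 (P.N - 1 - P.M (i + P.s)) - n1 (P.M (i + P.s))) {j : ℕ} (hj : 1 ≤ j) :
    ‖∫ x in (0:ℝ)..1, (P.data n1 hn1).p i x * (P.data n1 hn1).U i x *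
      ((P.κ * (P.data n1 hn1).F P.K x) * (P.κ * (P.data n2 hn2).F P.K x)) ^ j *
      (starRingEnd ℂ) ((P.data n1 hn1).f x)‖ ≤
      P.η / 2 * (Real.sqrt (1 / P.Q) + j * P.κ * (2 * Real.sqrt (2 * P.Λ * Real.exp (-(P.η * (P.s - 1)))))) := by
  set D1 := P.data n1 hn1 with hD1
  set D2 := P.data n2 hn2 with hD2
  have hη0 := P.hη0
  have hQ := P.hQ
  have hΛ := P.hΛ
  have hs := P.hs
  have hκ := P.κ_pos
  by_cases hg : P.gd i
  swap
  · -- bad scale
    have hp : ∀ x, D1.p i x = 0 := by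
      intro x
      unfold Data.p
      have : ∀ k ∈ range D1.N, (D1.w i k : ℂ) * E (D1.n k) x = 0 := by
        intro k _
        have h1 : D1.w i k = wt P.η P.Λ P.gd i k := rfl
        have h2 : wt P.η P.Λ P.gd i k = 0 := by
          by_contra hne
          exact hg (P.w_ne hne).1
        rw [h1, h2]; simp
      rw [Finset.sum_eq_zero this, mul_zero]
    have h0 : ∀ x, D1.p i x * D1.U i x * ((P.κ * D1.F P.K x) * (P.κ * D2.F P.K x)) ^ j *
      (starRingEnd ℂ) (D1.f x) = 0 := by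
      intro x; rw [hp]; ring
    simp_rw [h0]
    simp only [intervalIntegral.integral_zero, norm_zero]
    positivity
  have hgi := hgood hg
  have hMK : ∀ i' < P.K, P.M (i' + P.s) ≤ P.M (P.K + P.s) := fun i' hi' => P.M_mono (by omega)
  have hM1 : ∀ i' ≤ P.K + P.s, P.M i' ≤ P.M (P.K + P.s) := fun i' hi' => P.M_mono hi'
  have hMi := hM1 i (by omega)
  have hMis := hMK i hi
  have hMpos := P.M_pos i
  have hk0M := P.k0_le_M i
  have hmono : ∀ a b, a ≤ b → b < P.N → n1 a ≤ n1 b := by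
    intro a b hab hb
    rcases eq_or_lt_of_le hab with h | h
    · rw [h]
    · exact (hn1 a b h hb).le
  have hmono2 : ∀ a b, a ≤ b → b < P.N → n2 a ≤ n2 b := by
    intro a b hab hb
    rcases eq_or_lt_of_le hab with h | h
    · rw [h]
    · exact (hn2 a b h hb).le
  -- spectra
  have hspec : ∀ (l m : ℕ), (∀ i' < l, P.M i' ≤ m) → m < P.N →
      SpecLE (n1 m - n1 (P.N - 1 - m)) (fun x => D1.F l x * D2.F l x) := by
    intro l m hlm hm
    have s1 : SpecLE (n1 m) (D1.F l) := by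
      refine D1.spec_F l fun i' hi' k hk hw => ?_
      have := (P.w_ne hw).2
      exact hmono k m (this.le.trans (hlm i' hi')) hm
    have s2 : SpecLE (n2 m) (D2.F l) := by
      refine D2.spec_F l fun i' hi' k hk hw => ?_
      have := (P.w_ne hw).2
      exact hmono2 k m (this.le.trans (hlm i' hi')) hm
    have := s1.mul s2
    rwa [hmir m hm, ← sub_eq_add_neg] at this
  have hFK : SpecLE 0 (fun x => D1.F D1.K x * D2.F D2.K x) := by
    refine (hspec P.K (P.M (P.K + P.s)) (fun i' hi' => hM1 i' (by omega)) (by omega)).mono ?_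
    have := hmono (P.M (P.K + P.s)) (P.N - 1 - P.M (P.K + P.s)) (by omega) (by omega)
    omega
  set l := min (i + P.s) P.K with hl
  have hFl : SpecLE (n1 (P.M (i + P.s)) - n1 (P.N - 1 - P.M (i + P.s))) (fun x => D1.F l x * D2.F l x) := by
    refine hspec l _ (fun i' hi' => P.M_mono ?_) (by omega)
    have : l ≤ i + P.s := min_le_left _ _
    omega
  have hp : SpecLE (n1 (P.M i - 1)) (D1.p i) := by
    refine D1.spec_p i fun k hk hw => ?_
    have := (P.w_ne hw).2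
    exact hmono k (P.M i - 1) (by omega) (by omega)
  have hgap : 0 ≤ n1 (P.N - 1 - P.M (i + P.s)) - n1 (P.M (i + P.s)) := by
    have := hmono (P.M (i + P.s)) (P.N - 1 - P.M (i + P.s)) (by omega) (by omega)
    omega
  have hexp : Real.exp (-(D1.η * i)) * (Real.exp (P.η * i) / P.Q) = 1 / P.Q := by
    have : D1.η = P.η := rfl
    rw [this, ← mul_div_assoc, ← Real.exp_add, neg_add_cancel, Real.exp_zero]
  have he1 : Real.exp (-(P.η * ((i + P.s - 1 : ℕ) : ℝ))) * (2 * P.Λ * Real.exp (P.η * i)) =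
      2 * P.Λ * Real.exp (-(P.η * (P.s - 1))) := by
    rw [mul_comm, mul_assoc, ← Real.exp_add]
    congr 2
    have : ((i + P.s - 1 : ℕ) : ℝ) = i + (P.s - 1) := by
      rw [Nat.add_sub_assoc hs]; push_cast [Nat.cast_sub hs]; ring
    rw [this]; ring
  have hmain := Data.cross_scale D1 D2 (κ := P.κ) hκ.le (P.κ_bound hn1) (P.κ_bound hn2) (i := i)
    (l1 := l) (l2 := l) (min_le_right _ _) (min_le_right _ _) (M := P.M i) (k0 := P.k0 i)
    (by show P.M i ≤ P.N; omega) hk0M j (β := n1 (P.M i - 1))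
    (bl := n1 (P.M (i + P.s)) - n1 (P.N - 1 - P.M (i + P.s))) hp hFK hFl
    (by
      intro k h1 h2
      exact hn1 _ k (by omega) h2)
    (by
      intro k h1 h2
      have h3 : n1 (P.k0 i) ≤ n1 k := hmono _ _ h1 h2
      have h4 : (j:ℤ) * (n1 (P.M (i + P.s)) - n1 (P.N - 1 - P.M (i + P.s))) ≤
          1 * (n1 (P.M (i + P.s)) - n1 (P.N - 1 - P.M (i + P.s))) := by
        have h5 : (1:ℤ) ≤ j := by exact_mod_cast hj
        nlinarith
      show n1 (P.M i - 1) + _ < n1 k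
      linarith)
    (b0 := Real.exp (P.η * i) / P.Q) (M' := 2 * P.Λ * Real.exp (P.η * i))
    (e1 := Real.exp (-(P.η * ((i + P.s - 1 : ℕ) : ℝ))))
    (by positivity) (P.k0_le i) (by positivity) (P.M_le i) (Real.exp_pos _)
    (D1.int_F_sub hs) (D2.int_F_sub hs)
  rw [hexp, he1] at hmain
  refine hmain.trans (le_of_eq ?_)
  have : D1.η = P.η := rfl
  rw [this]; ring

lemma cross_sum {n1 n2 : ℕ → ℤ} (hn1 : ∀ j k, j < k → k < P.N → n1 j < n1 k)
    (hn2 : ∀ j k, j < k → k < P.N → n2 j < n2 k)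
    (hmir : ∀ k < P.N, n2 k = -n1 (P.N - 1 - k)) (hbig : 2 * P.M (P.K + P.s) < P.N)
    (hgood : ∀ i < P.K, P.gd i → n1 (P.M i - 1) - n1 (P.k0 i) <
      n1 (P.N - 1 - P.M (i + P.s)) - n1 (P.M (i + P.s))) {j : ℕ} (hj : 1 ≤ j) :
    ‖∫ x in (0:ℝ)..1, (P.κ * (P.data n1 hn1).F P.K x) ^ (j + 1) * (P.κ * (P.data n2 hn2).F P.K x) ^ j *
      (starRingEnd ℂ) ((P.data n1 hn1).f x)‖ ≤
      P.κ * (P.K * (P.η / 2 * (Real.sqrt (1 / P.Q) +
        j * P.κ * (2 * Real.sqrt (2 * P.Λ * Real.exp (-(P.η * (P.s - 1)))))))) := by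
  set D1 := P.data n1 hn1 with hD1
  set D2 := P.data n2 hn2 with hD2
  have e : ∀ x, (P.κ * D1.F P.K x) ^ (j + 1) * (P.κ * D2.F P.K x) ^ j * (starRingEnd ℂ) (D1.f x) =
      ∑ i ∈ range P.K, (P.κ : ℂ) * (D1.p i x * D1.U i x *
        ((P.κ * D1.F P.K x) * (P.κ * D2.F P.K x)) ^ j * (starRingEnd ℂ) (D1.f x)) := by
    intro x
    have h1 : D1.F P.K x = ∑ i ∈ range P.K, D1.p i x * D1.U i x := rfl
    rw [← Finset.mul_sum]
    have h2 : ∑ i ∈ range P.K, D1.p i x * D1.U i x *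
        ((P.κ * D1.F P.K x) * (P.κ * D2.F P.K x)) ^ j * (starRingEnd ℂ) (D1.f x) =
        D1.F P.K x * (((P.κ * D1.F P.K x) * (P.κ * D2.F P.K x)) ^ j * (starRingEnd ℂ) (D1.f x)) := by
      conv_rhs => rw [h1]
      rw [Finset.sum_mul]
      refine Finset.sum_congr rfl fun i _ => ?_
      rw [mul_assoc]
      rfl
    rw [h2]
    rw [mul_pow _ _ j]
    ring
  simp_rw [e]
  have hc1 : Continuous (D1.F P.K) := D1.continuous_F _
  have hc2 : Continuous (D2.F P.K) := D2.continuous_F _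
  have hcf : Continuous (fun x => (starRingEnd ℂ) (D1.f x)) := Complex.continuous_conj.comp D1.continuous_f
  rw [intervalIntegral.integral_finsetSum]
  · refine (norm_sum_le _ _).trans ?_
    have : ∀ i ∈ range P.K, ‖∫ x in (0:ℝ)..1, (P.κ : ℂ) * (D1.p i x * D1.U i x *
        ((P.κ * D1.F P.K x) * (P.κ * D2.F P.K x)) ^ j * (starRingEnd ℂ) (D1.f x))‖ ≤
        P.κ * (P.η / 2 * (Real.sqrt (1 / P.Q) +
        j * P.κ * (2 * Real.sqrt (2 * P.Λ * Real.exp (-(P.η * (P.s - 1))))))) := by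
      intro i hi
      have hi' := Finset.mem_range.1 hi
      rw [intervalIntegral.integral_const_mul, norm_mul, Complex.norm_real,
        Real.norm_of_nonneg P.κ_pos.le]
      exact mul_le_mul_of_nonneg_left (P.cross_one hn1 hn2 hmir hbig hi' (hgood i hi') hj) P.κ_pos.le
    refine (Finset.sum_le_sum this).trans (le_of_eq ?_)
    rw [Finset.sum_const, Finset.card_range, nsmul_eq_mul]
    ring
  · intro i _
    exact (continuous_const.mul ((((D1.continuous_p i).mul (D1.continuous_U i)).mul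
      (((continuous_const.mul hc1).mul (continuous_const.mul hc2)).pow j)).mul hcf)).intervalIntegrable _ _

end Par

end Pool.Agent.Littlewood
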