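import Mathlib
import Pool.Agent.Lib.MP_d1728b_an.Fourier

set_option autoImplicit false
open Finset MeasureTheory

namespace Pool.Agent.Littlewood

lemma abs_re_arctan_le {z : ℂ} (hz : ‖z‖ < 1) : |(Complex.arctan z).re| ≤ Real.pi / 4 := by
  unfold Complex.arctan
  set u := z * Complex.I with hu
  have hun : ‖u‖ < 1 := by rw [hu, norm_mul, Complex.norm_I, mul_one]; exact hz
  have hq : |Complex.arg ((1 + u) / (1 - u))| < Real.pi / 2 := by
    rw [Complex.abs_arg_lt_pi_div_two_iff]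
    left
    have hne : (1 - u) ≠ 0 := by
      intro h
      have : u = 1 := (sub_eq_zero.1 h).symm
      rw [this] at hun; simp at hun
    have hn : 0 < Complex.normSq (1 - u) := Complex.normSq_pos.2 hne
    rw [Complex.div_re, ← add_div]
    refine div_pos ?_ hn
    have h1 : Complex.normSq u < 1 := by
      rw [Complex.normSq_eq_norm_sq]; nlinarith [norm_nonneg u]
    rw [Complex.normSq_apply] at h1
    simp
    nlinarith
  have h1 : (-Complex.I / 2 * Complex.log ((1 + u) / (1 - u))).re = Complex.arg ((1 + u) / (1 - u)) / 2 := by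
    rw [← Complex.log_im]
    have : -Complex.I / 2 = ((-1 / 2 : ℝ) : ℂ) * Complex.I := by push_cast; ring
    rw [this, mul_assoc, Complex.re_ofReal_mul, Complex.I_mul_re]
    ring
  rw [h1, abs_div, abs_two]
  linarith

/-- coefficients -/
noncomputable def cf (r : ℝ) (j : ℕ) : ℝ := 2 / Real.pi * ((-1) ^ j * r ^ (2 * j + 1) / (2 * j + 1 : ℕ))

noncomputable def T (r : ℝ) (J : ℕ) (z w : ℂ) : ℂ :=
  ∑ j ∈ range J, (cf r j : ℂ) * (z ^ (j + 1) * w ^ j + (starRingEnd ℂ) (w ^ (j + 1) * z ^ j))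

noncomputable def tl (r : ℝ) (J : ℕ) : ℝ := 1 + 4 / Real.pi * (r * (r ^ 2) ^ J / (1 - r ^ 2))

lemma T_torus {r : ℝ} (hr0 : 0 ≤ r) (hr1 : r < 1) (J : ℕ) {z w : ℂ} (hz : ‖z‖ = 1) (hw : ‖w‖ = 1) :
    ‖T r J z w‖ ≤ tl r J := by
  obtain ⟨ζ, hζ⟩ := IsAlgClosed.exists_pow_nat_eq (z * w) zero_lt_two
  have hζn : ‖ζ‖ = 1 := by
    have h1 : ‖ζ‖ ^ 2 = 1 := by rw [← norm_pow, hζ, norm_mul, hz, hw, mul_one]
    nlinarith [norm_nonneg ζ]
  have hpi := Real.pi_pos
  have hcz : ∀ y : ℂ, ‖y‖ = 1 → y * (starRingEnd ℂ) y = 1 := by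
    intro y hy; rw [Complex.mul_conj, Complex.normSq_eq_norm_sq, hy]; simp
  have hz0 : z ≠ 0 := by intro h; rw [h] at hz; simp at hz
  have hζ0 : ζ ≠ 0 := by intro h; rw [h] at hζn; simp at hζn
  set g : ℕ → ℂ := fun n => (-1) ^ n * ((r : ℂ) * ζ) ^ (2 * n + 1) / ((2 * n + 1 : ℕ) : ℂ) with hg
  have hT : T r J z w = z * (starRingEnd ℂ) ζ * ((4 / Real.pi * (∑ j ∈ range J, g j).re : ℝ) : ℂ) := by
    have h1 : ∀ j, (cf r j : ℂ) * (z ^ (j + 1) * w ^ j + (starRingEnd ℂ) (w ^ (j + 1) * z ^ j)) =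
        z * (starRingEnd ℂ) ζ * (2 / Real.pi) * (g j + (starRingEnd ℂ) (g j)) := by
      intro j
      have e1 : z ^ (j + 1) * w ^ j = z * (starRingEnd ℂ) ζ * ζ ^ (2 * j + 1) := by
        calc z ^ (j + 1) * w ^ j = z * (z * w) ^ j := by ring
          _ = z * (ζ * (starRingEnd ℂ) ζ) * (ζ ^ 2) ^ j := by rw [hζ, hcz ζ hζn, mul_one]
          _ = _ := by ring
      have e2 : w ^ (j + 1) * z ^ j = (starRingEnd ℂ) z * ζ * ζ ^ (2 * j + 1) := by
        calc w ^ (j + 1) * z ^ j = (z * w) ^ j * w := by ring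
          _ = (z * w) ^ j * ((z * (starRingEnd ℂ) z) * w) := by rw [hcz z hz, one_mul]
          _ = (z * w) ^ (j + 1) * (starRingEnd ℂ) z := by ring
          _ = (ζ ^ 2) ^ (j + 1) * (starRingEnd ℂ) z := by rw [hζ]
          _ = _ := by ring
      have e3 : (starRingEnd ℂ) (w ^ (j + 1) * z ^ j) = z * (starRingEnd ℂ) ζ * (starRingEnd ℂ) (ζ ^ (2 * j + 1)) := by
        rw [e2]; simp only [map_mul, Complex.conj_conj]
      have e4 : g j = ((-1) ^ j * r ^ (2 * j + 1) / ((2 * j + 1 : ℕ) : ℝ) : ℝ) * ζ ^ (2 * j + 1) := by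
        simp only [hg]; push_cast; rw [mul_pow]; ring
      have e5 : (starRingEnd ℂ) (g j) = ((-1) ^ j * r ^ (2 * j + 1) / ((2 * j + 1 : ℕ) : ℝ) : ℝ) *
          (starRingEnd ℂ) (ζ ^ (2 * j + 1)) := by
        rw [e4, map_mul, Complex.conj_ofReal]
      rw [e1, e3, e5, e4]
      unfold cf
      push_cast
      ring
    unfold T
    rw [Finset.sum_congr rfl fun j _ => h1 j, ← Finset.mul_sum, Finset.sum_add_distrib, ← map_sum,
      Complex.add_conj]
    push_cast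
    ring
  rw [hT, norm_mul, norm_mul, hz, RCLike.norm_conj, hζn, one_mul, one_mul, Complex.norm_real,
    Real.norm_eq_abs, abs_mul, abs_of_nonneg (by positivity : (0:ℝ) ≤ 4 / Real.pi)]
  have hrz : ‖(r : ℂ) * ζ‖ < 1 := by
    rw [norm_mul, hζn, mul_one, Complex.norm_real, Real.norm_of_nonneg hr0]; exact hr1
  have hs := Complex.hasSum_arctan hrz
  have hr2 : r ^ 2 < 1 := by nlinarith
  have hbound : ∀ n, ‖g n‖ ≤ r * (r ^ 2) ^ n := by
    intro n
    simp only [hg]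
    rw [norm_div, norm_mul, norm_pow, norm_neg, norm_one, one_pow, one_mul, norm_pow, norm_mul, hζn,
      mul_one, Complex.norm_real, Real.norm_of_nonneg hr0, Complex.norm_natCast]
    have e1 : r ^ (2 * n + 1) = r * (r ^ 2) ^ n := by ring
    rw [e1]
    refine div_le_self (by positivity) ?_
    have : 1 ≤ 2 * n + 1 := by omega
    exact_mod_cast this
  have h2 := norm_sub_le_of_geometric_bound_of_hasSum hr2 hbound hs J
  have h3 : |(∑ j ∈ range J, g j).re| ≤ Real.pi / 4 + r * (r ^ 2) ^ J / (1 - r ^ 2) := by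
    have h4 := (Complex.abs_re_le_norm (∑ j ∈ range J, g j - Complex.arctan (r * ζ))).trans h2
    rw [Complex.sub_re] at h4
    have h5 := abs_re_arctan_le hrz
    have h6 := abs_sub_abs_le_abs_sub (∑ j ∈ range J, g j).re (Complex.arctan (r * ζ)).re
    linarith
  unfold tl
  calc 4 / Real.pi * |(∑ j ∈ range J, g j).re| ≤
      4 / Real.pi * (Real.pi / 4 + r * (r ^ 2) ^ J / (1 - r ^ 2)) :=
        mul_le_mul_of_nonneg_left h3 (by positivity)
    _ = _ := by field_simp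

/-- maximum principle for real parts of entire functions -/
lemma re_le_of_torus {H : ℂ → ℂ} (hH : Differentiable ℂ H) {C : ℝ} (h : ∀ z : ℂ, ‖z‖ = 1 → (H z).re ≤ C)
    {z : ℂ} (hz : ‖z‖ ≤ 1) : (H z).re ≤ C := by
  have h1 := Complex.norm_le_of_forall_mem_frontier_norm_le (f := fun z => Complex.exp (H z))
    (U := Metric.ball 0 1) (C := Real.exp C) Metric.isBounded_ball hH.cexp.diffContOnCl
    (by
      intro y hy
      rw [frontier_ball _ one_ne_zero, mem_sphere_zero_iff_norm] at hy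
      rw [Complex.norm_exp]
      exact Real.exp_le_exp.2 (h y hy)) (z := z)
    (by rw [closure_ball _ one_ne_zero, mem_closedBall_zero_iff]; exact hz)
  rw [Complex.norm_exp] at h1
  exact Real.exp_le_exp.1 h1

lemma norm_le_of_re {a : ℂ} {C : ℝ} (hC : 0 ≤ C) (h : ∀ lam : ℂ, ‖lam‖ = 1 → (lam * a).re ≤ C) : ‖a‖ ≤ C := by
  by_cases ha : a = 0
  · rw [ha, norm_zero]; exact hC
  have hn : (‖a‖ : ℂ) ≠ 0 := by simpa using ha
  have h1 := h ((starRingEnd ℂ) a / ‖a‖) (by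
    rw [norm_div, RCLike.norm_conj, Complex.norm_real, norm_norm, div_self]
    simpa using ha)
  have h2 : (starRingEnd ℂ) a / ‖a‖ * a = (‖a‖ : ℂ) := by
    rw [div_mul_eq_mul_div, mul_comm, Complex.mul_conj, Complex.normSq_eq_norm_sq]
    push_cast
    rw [sq, mul_div_assoc, div_self hn, mul_one]
  rw [h2, Complex.ofReal_re] at h1
  exact h1

lemma T_swap (r : ℝ) (J : ℕ) (z w : ℂ) : T r J w z = (starRingEnd ℂ) (T r J z w) := by
  unfold T
  rw [map_sum]
  refine Finset.sum_congr rfl fun j _ => ?_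
  simp only [map_mul, map_add, Complex.conj_conj, Complex.conj_ofReal, map_pow]
  ring

lemma T_step {r : ℝ} (J : ℕ) {C : ℝ} (hC : 0 ≤ C) {w : ℂ} (h : ∀ z : ℂ, ‖z‖ = 1 → ‖T r J z w‖ ≤ C)
    {z : ℂ} (hz : ‖z‖ ≤ 1) : ‖T r J z w‖ ≤ C := by
  refine norm_le_of_re hC fun lam hlam => ?_
  set H : ℂ → ℂ := fun z => ∑ j ∈ range J, (cf r j : ℂ) * (lam * (z ^ (j + 1) * w ^ j) +
    (starRingEnd ℂ) lam * (w ^ (j + 1) * z ^ j)) with hHdef
  have hre : ∀ z, (lam * T r J z w).re = (H z).re := by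
    intro z
    unfold T
    simp only [hHdef]
    rw [Finset.mul_sum, Complex.re_sum, Complex.re_sum]
    refine Finset.sum_congr rfl fun j _ => ?_
    have e1 : lam * ((cf r j : ℂ) * (z ^ (j + 1) * w ^ j + (starRingEnd ℂ) (w ^ (j + 1) * z ^ j))) =
        (cf r j : ℂ) * (lam * (z ^ (j + 1) * w ^ j)) +
        (cf r j : ℂ) * (starRingEnd ℂ) ((starRingEnd ℂ) lam * (w ^ (j + 1) * z ^ j)) := by
      have e2 : (starRingEnd ℂ) ((starRingEnd ℂ) lam * (w ^ (j + 1) * z ^ j)) =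
          lam * (starRingEnd ℂ) (w ^ (j + 1) * z ^ j) := by
        rw [map_mul ((starRingEnd ℂ)) ((starRingEnd ℂ) lam), Complex.conj_conj]
      rw [e2]; ring
    rw [e1, Complex.add_re, Complex.re_ofReal_mul, Complex.re_ofReal_mul, Complex.conj_re,
      Complex.re_ofReal_mul, Complex.add_re]
    ring
  rw [hre]
  refine re_le_of_torus (H := H) ?_ ?_ hz
  · simp only [hHdef]
    fun_prop
  · intro y hy
    rw [← hre]
    refine (Complex.re_le_norm _).trans ?_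
    rw [norm_mul, hlam, one_mul]
    exact h y hy

theorem T_bound {r : ℝ} (hr0 : 0 ≤ r) (hr1 : r < 1) (J : ℕ) {z w : ℂ} (hz : ‖z‖ ≤ 1) (hw : ‖w‖ ≤ 1) :
    ‖T r J z w‖ ≤ tl r J := by
  have hpi := Real.pi_pos
  have hr2 : r ^ 2 < 1 := by nlinarith
  have hC : 0 ≤ tl r J := by
    unfold tl
    have : 0 < 1 - r ^ 2 := by linarith
    positivity
  have h1 : ∀ w : ℂ, ‖w‖ = 1 → ∀ z : ℂ, ‖z‖ ≤ 1 → ‖T r J z w‖ ≤ tl r J := fun w hw z hz =>
    T_step J hC (fun y hy => T_torus hr0 hr1 J hy hw) hz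
  have h2 : ‖T r J w z‖ ≤ tl r J := by
    refine T_step J hC (fun y hy => ?_) hw
    rw [T_swap, RCLike.norm_conj]
    exact h1 y hy z hz
  rw [T_swap, RCLike.norm_conj] at h2
  exact h2

end Pool.Agent.Littlewood
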