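import Mathlib
import Pool.Agent.Lib.MP_d1728b_an.Par
import Pool.Agent.Lib.MP_d1728b_an.TwoSided
import Pool.Agent.Lib.MP_d1728b_an.NormLower

set_option autoImplicit false
open Finset MeasureTheory

namespace Pool.Agent.Littlewood

open Classical in
lemma count_bad {K B : ℕ} {ψ : ℕ → ℝ} (hpos : ∀ i ≤ K + B, 0 < ψ i)
    (hanti : ∀ i j, i ≤ j → j ≤ K + B → ψ j ≤ ψ i) (bad : ℕ → Prop)
    (hbad : ∀ i < K, bad i → 2 * ψ (i + B) ≤ ψ i) :
    (((range K).filter bad).card : ℝ) * Real.log 2 ≤ B * (Real.log (ψ 0) - Real.log (ψ (K + B))) := by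
  set g : ℕ → ℝ := fun i => Real.log (ψ i) with hg
  have hga : ∀ i j, i ≤ j → j ≤ K + B → g j ≤ g i := fun i j h1 h2 =>
    Real.log_le_log (hpos j h2) (hanti i j h1 h2)
  have h1 : (((range K).filter bad).card : ℝ) * Real.log 2 ≤ ∑ i ∈ range K, (g i - g (B + i)) := by
    have h2 : ∑ i ∈ range K, (if bad i then Real.log 2 else 0) ≤ ∑ i ∈ range K, (g i - g (B + i)) := by
      refine Finset.sum_le_sum fun i hi => ?_
      have hi' := Finset.mem_range.1 hi
      split_ifs with hb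
      · have h3 := hbad i hi' hb
        have h4 := hpos (i + B) (by omega)
        have h5 := Real.log_le_log (by positivity) h3
        rw [Real.log_mul (by norm_num) h4.ne'] at h5
        simp only [hg]
        rw [add_comm B i]
        linarith
      · have := hga i (B + i) (by omega) (by omega)
        linarith
    rw [← Finset.sum_filter, Finset.sum_const, nsmul_eq_mul] at h2
    exact h2
  refine h1.trans ?_
  rw [Finset.sum_sub_distrib]
  have e1 := Finset.sum_range_add g K B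
  have e2 := Finset.sum_range_add g B K
  rw [add_comm B K] at e2
  have h3 : ∑ i ∈ range B, g i ≤ B * g 0 := by
    calc _ ≤ ∑ i ∈ range B, g 0 := Finset.sum_le_sum fun i hi => hga 0 i (Nat.zero_le _) (by
            have := Finset.mem_range.1 hi; omega)
      _ = _ := by simp
  have h4 : (B:ℝ) * g (K + B) ≤ ∑ i ∈ range B, g (K + i) := by
    calc (B:ℝ) * g (K + B) = ∑ i ∈ range B, g (K + B) := by simp
      _ ≤ _ := Finset.sum_le_sum fun i hi => hga _ _ (by
            have := Finset.mem_range.1 hi; omega) le_rfl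
  have : (B:ℝ) * (g 0 - g (K + B)) = B * g 0 - B * g (K + B) := by ring
  rw [this]
  linarith

/-- gap after removing `m` elements at both ends -/
def xg (n : ℕ → ℤ) (N m : ℕ) : ℤ := n (N - 1 - m) - n m

lemma mono_of_strict {n : ℕ → ℤ} {N : ℕ} (hn : ∀ j k, j < k → k < N → n j < n k) {a b : ℕ}
    (hab : a ≤ b) (hb : b < N) : n a ≤ n b := by
  rcases eq_or_lt_of_le hab with h | h
  · rw [h]
  · exact (hn a b h hb).le

lemma xg_anti {n : ℕ → ℤ} {N : ℕ} (hn : ∀ j k, j < k → k < N → n j < n k) {a b : ℕ} (hab : a ≤ b)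
    (hb : b < N) : xg n N b ≤ xg n N a := by
  unfold xg
  have h1 := mono_of_strict hn hab hb
  have h2 := mono_of_strict hn (show N - 1 - b ≤ N - 1 - a by omega) (by omega)
  omega

lemma sub_le_of_strict {n : ℕ → ℤ} {N : ℕ} (hn : ∀ j k, j < k → k < N → n j < n k) {a b : ℕ} (hab : a ≤ b)
    (hb : b < N) : (b : ℤ) - a ≤ n b - n a := by
  induction b, hab using Nat.le_induction with
  | base => simp
  | succ b hab ih =>
    have := ih (by omega)
    have h2 := hn b (b + 1) (by omega) hb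
    push_cast
    omega

lemma good_imp {n : ℕ → ℤ} {N : ℕ} (hn : ∀ j k, j < k → k < N → n j < n k) {k0 M M' : ℕ} (hM0 : 0 < M)
    (hMM : M ≤ M') (hM' : 2 * M' < N) (hk0 : k0 ≤ M) (h : xg n N k0 < 2 * xg n N M') :
    n (M - 1) - n k0 < n (N - 1 - M') - n M' := by
  have h0 := mono_of_strict hn (show M' ≤ N - 1 - M' by omega) (by omega)
  rcases eq_or_lt_of_le hk0 with h1 | h1
  · rw [h1]
    have := hn (M - 1) M (by omega) (by omega)
    omega
  · have h2 := xg_anti hn (show M - 1 ≤ M' by omega) (by omega)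
    have h3 := mono_of_strict hn (show N - 1 - (M - 1) ≤ N - 1 - k0 by omega) (by omega)
    unfold xg at h h2
    omega

namespace Par
variable (P : Par)

lemma W_ge {n : ℕ → ℤ} (hn : ∀ j k, j < k → k < P.N → n j < n k) {i : ℕ} (hM : P.M i ≤ P.N) (hg : P.gd i) :
    1 - Real.exp (-P.Λ) ≤ (P.data n hn).W i := by
  have hη := P.hη0.le
  have h1 : (P.data n hn).W i = 1 - qq P.η i ^ P.M i := by
    rw [← geom_range_eq]
    show ∑ k ∈ range P.N, wt P.η P.Λ P.gd i k = _
    rw [← Finset.sum_range_add_sum_Ico _ hM]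
    have h2 : ∑ k ∈ Ico (P.M i) P.N, wt P.η P.Λ P.gd i k = 0 := by
      refine Finset.sum_eq_zero fun k hk => ?_
      by_contra hne
      have := (P.w_ne hne).2
      have := (Finset.mem_Ico.1 hk).1
      omega
    rw [h2, add_zero]
    refine Finset.sum_congr rfl fun k hk => ?_
    unfold wt
    exact if_pos ⟨hg, Finset.mem_range.1 hk⟩
  rw [h1]
  have h2 : qq P.η i ^ P.M i ≤ Real.exp (-P.Λ) := by
    calc qq P.η i ^ P.M i ≤ Real.exp (-sc P.η i) ^ P.M i :=
          pow_le_pow_left₀ (qq_nonneg hη i) (qq_le P.η i hη) _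
      _ = Real.exp (-(sc P.η i * P.M i)) := by rw [← Real.exp_nat_mul]; congr 1; ring
      _ ≤ _ := by
          apply Real.exp_le_exp.2
          apply neg_le_neg
          have h3 : P.Λ * Real.exp (P.η * i) ≤ P.M i := Nat.le_ceil _
          have h4 : sc P.η i * (P.Λ * Real.exp (P.η * i)) = P.Λ := by
            unfold sc
            rw [mul_comm, mul_assoc, ← Real.exp_add, add_neg_cancel, Real.exp_zero, mul_one]
          calc P.Λ = sc P.η i * (P.Λ * Real.exp (P.η * i)) := h4.symm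
            _ ≤ _ := mul_le_mul_of_nonneg_left h3 (sc_pos _ _).le
  linarith

open Classical in
lemma W_sum_ge {n : ℕ → ℤ} (hn : ∀ j k, j < k → k < P.N → n j < n k) (hM : ∀ i < P.K, P.M i ≤ P.N) :
    (P.K - (((range P.K).filter (fun i => ¬ P.gd i)).card : ℝ)) * (1 - Real.exp (-P.Λ)) ≤
      ∑ i ∈ range P.K, (P.data n hn).W i := by
  have h1 : ∑ i ∈ range P.K, (if P.gd i then (1 - Real.exp (-P.Λ)) else 0) ≤
      ∑ i ∈ range P.K, (P.data n hn).W i := by
    refine Finset.sum_le_sum fun i hi => ?_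
    split_ifs with hg
    · exact P.W_ge hn (hM i (Finset.mem_range.1 hi)) hg
    · exact (P.data n hn).W_nonneg i
  refine le_trans (le_of_eq ?_) h1
  rw [← Finset.sum_filter, Finset.sum_const, nsmul_eq_mul]
  congr 1
  have h2 := Finset.card_filter_add_card_filter_not (s := range P.K) (fun i => P.gd i)
  rw [Finset.card_range] at h2
  have : (P.K : ℝ) = (((range P.K).filter (fun i => P.gd i)).card : ℝ) +
      (((range P.K).filter (fun i => ¬ P.gd i)).card : ℝ) := by exact_mod_cast h2.symm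
  rw [this]; ring

/-- cross term constant -/
noncomputable def C (j : ℕ) : ℝ := P.κ * (P.K * (P.η / 2 * (Real.sqrt (1 / P.Q) +
        j * P.κ * (2 * Real.sqrt (2 * P.Λ * Real.exp (-(P.η * (P.s - 1))))))))

lemma C_nonneg (j : ℕ) : 0 ≤ P.C j := by
  unfold C
  have h1 := P.κ_pos
  have h2 := P.hη0
  positivity

/-- the mirror image -/
def mir (n : ℕ → ℤ) (N k : ℕ) : ℤ := -n (N - 1 - k)

lemma mir_lt {n : ℕ → ℤ} (hn : ∀ j k, j < k → k < P.N → n j < n k) :
    ∀ j k, j < k → k < P.N → mir n P.N j < mir n P.N k := by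
  intro j k h1 h2
  unfold mir
  have := hn (P.N - 1 - k) (P.N - 1 - j) (by omega) (by omega)
  omega

lemma f_mir {n : ℕ → ℤ} (hn : ∀ j k, j < k → k < P.N → n j < n k) (x : ℝ) :
    (P.data (mir n P.N) (P.mir_lt hn)).f x = (starRingEnd ℂ) ((P.data n hn).f x) := by
  show ∑ k ∈ range P.N, E (mir n P.N k) x = (starRingEnd ℂ) (∑ k ∈ range P.N, E (n k) x)
  rw [map_sum]
  rw [← Finset.sum_range_reflect]
  refine Finset.sum_congr rfl fun k hk => ?_
  have hk' := Finset.mem_range.1 hk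
  rw [conj_E]
  unfold mir
  congr 2
  congr 1
  omega

theorem two_sided {n : ℕ → ℤ} (hn : ∀ j k, j < k → k < P.N → n j < n k)
    (hbig : 2 * P.M (P.K + P.s) < P.N)
    (hgood : ∀ i < P.K, P.gd i → xg n P.N (P.k0 i) < 2 * xg n P.N (P.M (i + P.s)))
    {r : ℝ} (hr0 : 0 ≤ r) (hr1 : r < 1) {J : ℕ} (hJ : 1 ≤ J) :
    cf r 0 * (2 * (P.κ * (P.η / 2 * ∑ i ∈ range P.K, (P.data n hn).W i -
      P.η / 4 * P.K * (1 + 3 * P.η) - 3))) - ∑ j ∈ Ico 1 J, |cf r j| * (2 * P.C j) ≤
      tl r J * ∫ x in (0:ℝ)..1, ‖(P.data n hn).f x‖ := by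
  set D1 := P.data n hn with hD1
  set D2 := P.data (mir n P.N) (P.mir_lt hn) with hD2
  have hκ := P.κ_pos
  set z1 : ℝ → ℂ := fun x => P.κ * D1.F P.K x with hz1
  set z2 : ℝ → ℂ := fun x => P.κ * D2.F P.K x with hz2
  have cz1 : Continuous z1 := continuous_const.mul (D1.continuous_F _)
  have cz2 : Continuous z2 := continuous_const.mul (D2.continuous_F _)
  have cf1 : Continuous (fun x => (starRingEnd ℂ) (D1.f x)) := Complex.continuous_conj.comp D1.continuous_f
  have cf2 : Continuous (fun x => (starRingEnd ℂ) (D2.f x)) := Complex.continuous_conj.comp D2.continuous_f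
  have hf2 : ∀ x, D2.f x = (starRingEnd ℂ) (D1.f x) := P.f_mir hn
  have bz1 : ∀ x, ‖z1 x‖ ≤ 1 := by
    intro x
    simp only [hz1]
    rw [norm_mul, Complex.norm_real, Real.norm_of_nonneg hκ.le]
    exact P.κ_bound hn P.K le_rfl x
  have bz2 : ∀ x, ‖z2 x‖ ≤ 1 := by
    intro x
    simp only [hz2]
    rw [norm_mul, Complex.norm_real, Real.norm_of_nonneg hκ.le]
    exact P.κ_bound (P.mir_lt hn) P.K le_rfl x
  have cT : Continuous (fun x => T r J (z1 x) (z2 x)) := by
    unfold T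
    refine continuous_finsetSum _ fun j _ => ?_
    exact continuous_const.mul (((cz1.pow _).mul (cz2.pow _)).add
      (Complex.continuous_conj.comp ((cz2.pow _).mul (cz1.pow _))))
  have hup := re_integral_le cT D1.continuous_f (B := tl r J) (fun x => T_bound hr0 hr1 J (bz1 x) (bz2 x))
  refine le_trans ?_ hup
  set I1 : ℕ → ℂ := fun j => ∫ x in (0:ℝ)..1, z1 x ^ (j + 1) * z2 x ^ j * (starRingEnd ℂ) (D1.f x) with hI1
  set I2 : ℕ → ℂ := fun j => ∫ x in (0:ℝ)..1, z2 x ^ (j + 1) * z1 x ^ j * (starRingEnd ℂ) (D2.f x) with hI2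
  have hexp : ∫ x in (0:ℝ)..1, T r J (z1 x) (z2 x) * (starRingEnd ℂ) (D1.f x) =
      ∑ j ∈ range J, (cf r j : ℂ) * (I1 j + (starRingEnd ℂ) (I2 j)) := by
    have e : ∀ x, T r J (z1 x) (z2 x) * (starRingEnd ℂ) (D1.f x) =
        ∑ j ∈ range J, (cf r j : ℂ) * (z1 x ^ (j + 1) * z2 x ^ j * (starRingEnd ℂ) (D1.f x) +
          (starRingEnd ℂ) (z2 x ^ (j + 1) * z1 x ^ j * (starRingEnd ℂ) (D2.f x))) := by
      intro x
      unfold T
      rw [Finset.sum_mul]
      refine Finset.sum_congr rfl fun j _ => ?_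
      rw [hf2, Complex.conj_conj, map_mul (starRingEnd ℂ) (z2 x ^ (j + 1) * z1 x ^ j)]
      ring
    simp_rw [e]
    have ii1 : ∀ j, IntervalIntegrable (fun x => z1 x ^ (j + 1) * z2 x ^ j * (starRingEnd ℂ) (D1.f x))
        volume 0 1 := fun j => (((cz1.pow _).mul (cz2.pow _)).mul cf1).intervalIntegrable _ _
    have ii2 : ∀ j, IntervalIntegrable (fun x => (starRingEnd ℂ) (z2 x ^ (j + 1) * z1 x ^ j *
        (starRingEnd ℂ) (D2.f x))) volume 0 1 := fun j =>
      (Complex.continuous_conj.comp (((cz2.pow _).mul (cz1.pow _)).mul cf2)).intervalIntegrable _ _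
    rw [intervalIntegral.integral_finsetSum]
    · refine Finset.sum_congr rfl fun j _ => ?_
      rw [intervalIntegral.integral_const_mul, intervalIntegral.integral_add (ii1 j) (ii2 j)]
      congr 2
      simp only [hI2]
      rw [intervalIntegral.integral_of_le zero_le_one, intervalIntegral.integral_of_le zero_le_one]
      exact integral_conj
    · intro j _
      exact ((ii1 j).add (ii2 j)).const_mul _
  rw [hexp, Complex.re_sum]
  have hc0 : 0 ≤ cf r 0 := by
    unfold cf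
    have := Real.pi_pos
    simp
    positivity
  have hI10 : P.κ * (P.η / 2 * ∑ i ∈ range P.K, D1.W i - P.η / 4 * P.K * (1 + 3 * P.η) - 3) ≤ (I1 0).re := by
    have h1 := D1.main_lower
    have h2 : I1 0 = (P.κ : ℂ) * ∫ x in (0:ℝ)..1, D1.F P.K x * (starRingEnd ℂ) (D1.f x) := by
      simp only [hI1, hz1]
      rw [← intervalIntegral.integral_const_mul]
      refine intervalIntegral.integral_congr fun x _ => ?_
      ring
    rw [h2, Complex.re_ofReal_mul]
    exact mul_le_mul_of_nonneg_left h1 hκ.le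
  have hI20 : P.κ * (P.η / 2 * ∑ i ∈ range P.K, D1.W i - P.η / 4 * P.K * (1 + 3 * P.η) - 3) ≤ (I2 0).re := by
    have h1 := D2.main_lower
    have h2 : I2 0 = (P.κ : ℂ) * ∫ x in (0:ℝ)..1, D2.F P.K x * (starRingEnd ℂ) (D2.f x) := by
      simp only [hI2, hz2]
      rw [← intervalIntegral.integral_const_mul]
      refine intervalIntegral.integral_congr fun x _ => ?_
      ring
    rw [h2, Complex.re_ofReal_mul]
    exact mul_le_mul_of_nonneg_left h1 hκ.le
  have hmir2 : ∀ k < P.N, n k = -(mir n P.N) (P.N - 1 - k) := by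
    intro k hk
    unfold mir
    have : P.N - 1 - (P.N - 1 - k) = k := by omega
    rw [this]; ring
  have hM1 : ∀ i ≤ P.K + P.s, P.M i ≤ P.M (P.K + P.s) := fun i hi => P.M_mono hi
  have hxg : ∀ m, m < P.N → xg (mir n P.N) P.N m = xg n P.N m := by
    intro m hm
    unfold xg
    have h1 := hmir2 m hm
    have h2 : mir n P.N m = -n (P.N - 1 - m) := rfl
    rw [h2]
    omega
  have hJ1 : ∀ j, 1 ≤ j → ‖I1 j‖ ≤ P.C j := by
    intro j hj
    refine P.cross_sum hn (P.mir_lt hn) (fun k _ => rfl) hbig ?_ hj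
    intro i hi hg
    exact good_imp hn (P.M_pos i) (P.M_mono (by omega)) (by have := hM1 (i + P.s) (by omega); omega)
      (P.k0_le_M i) (hgood i hi hg)
  have hJ2 : ∀ j, 1 ≤ j → ‖I2 j‖ ≤ P.C j := by
    intro j hj
    refine P.cross_sum (P.mir_lt hn) hn hmir2 hbig ?_ hj
    intro i hi hg
    have h1 := hM1 (i + P.s) (by omega)
    have h2 := hM1 i (by omega)
    have h3 := P.k0_le_M i
    refine good_imp (P.mir_lt hn) (P.M_pos i) (P.M_mono (by omega)) (by omega) (P.k0_le_M i) ?_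
    rw [hxg _ (by omega), hxg _ (by omega)]
    exact hgood i hi hg
  have hsplit : ∑ j ∈ range J, ((cf r j : ℂ) * (I1 j + (starRingEnd ℂ) (I2 j))).re =
      cf r 0 * ((I1 0).re + (I2 0).re) +
      ∑ j ∈ Ico 1 J, ((cf r j : ℂ) * (I1 j + (starRingEnd ℂ) (I2 j))).re := by
    rw [← Finset.sum_range_add_sum_Ico _ hJ, Finset.sum_range_one, Complex.re_ofReal_mul,
      Complex.add_re, Complex.conj_re]
  rw [hsplit]
  have h5 : cf r 0 * (2 * (P.κ * (P.η / 2 * ∑ i ∈ range P.K, D1.W i -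
      P.η / 4 * P.K * (1 + 3 * P.η) - 3))) ≤ cf r 0 * ((I1 0).re + (I2 0).re) := by
    refine mul_le_mul_of_nonneg_left ?_ hc0
    linarith
  have h6 : -(∑ j ∈ Ico 1 J, |cf r j| * (2 * P.C j)) ≤
      ∑ j ∈ Ico 1 J, ((cf r j : ℂ) * (I1 j + (starRingEnd ℂ) (I2 j))).re := by
    rw [← Finset.sum_neg_distrib]
    refine Finset.sum_le_sum fun j hj => ?_
    have hj1 := (Finset.mem_Ico.1 hj).1
    have h7 : ‖(cf r j : ℂ) * (I1 j + (starRingEnd ℂ) (I2 j))‖ ≤ |cf r j| * (2 * P.C j) := by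
      rw [norm_mul, Complex.norm_real, Real.norm_eq_abs]
      refine mul_le_mul_of_nonneg_left ?_ (abs_nonneg _)
      refine (norm_add_le _ _).trans ?_
      rw [RCLike.norm_conj]
      linarith [hJ1 j hj1, hJ2 j hj1]
    have h8 := (abs_le.1 ((Complex.abs_re_le_norm _).trans h7)).1
    exact h8
  linarith

end Par

end Pool.Agent.Littlewood
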