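import Mathlib
import Pool.Agent.Lib.MP_d1728b_an.Two

set_option autoImplicit false
open Finset MeasureTheory

namespace Pool.Agent.Littlewood

lemma cf_zero (r : ℝ) : cf r 0 = 2 / Real.pi * r := by
  unfold cf; simp

lemma abs_cf_le {r : ℝ} (hr0 : 0 ≤ r) (hr1 : r ≤ 1) (j : ℕ) : |cf r j| ≤ 1 := by
  unfold cf
  have hpi := Real.pi_gt_three
  rw [abs_mul, abs_of_nonneg (by positivity : (0:ℝ) ≤ 2 / Real.pi), abs_div, abs_mul, abs_pow, abs_neg,
    abs_one, one_pow, one_mul, abs_of_nonneg (pow_nonneg hr0 _),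
    abs_of_nonneg (by positivity : (0:ℝ) ≤ ((2 * j + 1 : ℕ) : ℝ))]
  have h1 : r ^ (2 * j + 1) ≤ 1 := pow_le_one₀ hr0 hr1
  have h2 : (1:ℝ) ≤ ((2 * j + 1 : ℕ) : ℝ) := by
    have : 1 ≤ 2 * j + 1 := by omega
    exact_mod_cast this
  have h3 : r ^ (2 * j + 1) / ((2 * j + 1 : ℕ) : ℝ) ≤ 1 := by
    rw [div_le_one (by linarith)]; linarith
  have h4 : 2 / Real.pi ≤ 1 := by rw [div_le_one (by linarith)]; linarith
  have h5 : 0 ≤ r ^ (2 * j + 1) / ((2 * j + 1 : ℕ) : ℝ) := by positivity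
  have h6 : 0 ≤ 2 / Real.pi := by positivity
  nlinarith

lemma final_numeric {θ L c1 b K nb SW κ cf0 I X tlv g e lg8 : ℝ} (hθ0 : 0 < θ) (hθ1 : θ ≤ 1 / 100)
    (hL : 0 < L) (hc1 : c1 = (b + lg8 + θ) / 4 + b / 2 + 3) (hb : 0 ≤ b) (hlg8 : 0 ≤ lg8)
    (hL8 : 8 * c1 ≤ θ * L) (hK2 : L - b - lg8 - θ ≤ θ * K)
    (hnb0 : 0 ≤ nb) (hnb : θ / 2 * nb ≤ θ * L + b / 2) (hK0 : 0 ≤ K)
    (he0 : 0 < e) (he : e ≤ θ) (hSW : (K - nb) * (1 - e) ≤ SW)
    (htwo : cf0 * (2 * (κ * (θ / 2 * SW - θ / 4 * K * (1 + 3 * θ) - 3))) - X ≤ tlv * I)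
    (hX : X ≤ θ * L) (hcoef : 4 * g * (1 - 2 * θ) ≤ cf0 * (2 * κ)) (htl : tlv ≤ 1 + θ) (hI0 : 0 ≤ I)
    (hg0 : 0 < g) (hg1 : g ≤ 1 / 2) : (g - 9 * θ) * L ≤ I := by
  have hc10 : 0 < c1 := by rw [hc1]; linarith
  have hSWge : θ / 2 * K * (1 - θ) - (θ * L + b / 2) ≤ θ / 2 * SW := by
    have h2 : K * (1 - θ) - nb ≤ SW := by
      have h3 : (K - nb) * (1 - e) = K * (1 - e) - nb * (1 - e) := by ring
      have h4 : K * e ≤ K * θ := mul_le_mul_of_nonneg_left he hK0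
      have h5 : 0 ≤ nb * e := mul_nonneg hnb0 he0.le
      linarith
    have h6 := mul_le_mul_of_nonneg_left h2 (show 0 ≤ θ / 2 by linarith)
    linarith
  have hθL : 0 < θ * L := mul_pos hθ0 hL
  set m0 := L / 4 * (1 - 9 * θ) - c1 with hm0
  have hmain : m0 ≤ θ / 2 * SW - θ / 4 * K * (1 + 3 * θ) - 3 := by
    have h3 : (L - b - lg8 - θ) * (1 - 5 * θ) ≤ θ * K * (1 - 5 * θ) :=
      mul_le_mul_of_nonneg_right hK2 (by linarith)
    have h4 : 0 ≤ b + lg8 + θ := by linarith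
    have h5 : L * (1 - 5 * θ) - (b + lg8 + θ) ≤ θ * K * (1 - 5 * θ) := by
      have h6 : 0 ≤ (b + lg8 + θ) * θ := mul_nonneg h4 hθ0.le
      linarith
    rw [hm0, hc1]
    linarith
  have hm0pos : 0 ≤ m0 := by
    rw [hm0]
    have : θ * L ≤ 1 / 100 * L := mul_le_mul_of_nonneg_right hθ1 hL.le
    linarith
  have hcoef0 : 0 ≤ 4 * g * (1 - 2 * θ) := mul_nonneg (by linarith) (by linarith)
  have hfirst : 4 * g * (1 - 2 * θ) * m0 ≤
      cf0 * (2 * (κ * (θ / 2 * SW - θ / 4 * K * (1 + 3 * θ) - 3))) := by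
    calc 4 * g * (1 - 2 * θ) * m0 ≤ cf0 * (2 * κ) * m0 :=
          mul_le_mul_of_nonneg_right hcoef hm0pos
      _ ≤ cf0 * (2 * κ) * (θ / 2 * SW - θ / 4 * K * (1 + 3 * θ) - 3) :=
          mul_le_mul_of_nonneg_left hmain (hcoef0.trans hcoef)
      _ = _ := by ring
  have h1 : 4 * g * (1 - 2 * θ) * m0 - θ * L ≤ (1 + θ) * I := by
    have h2 : tlv * I ≤ (1 + θ) * I := mul_le_mul_of_nonneg_right htl hI0
    linarith
  have hgL : 0 < g * L := mul_pos hg0 hL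
  have h2 : g * (1 - 11 * θ) * L - 4 * g * c1 ≤ 4 * g * (1 - 2 * θ) * m0 := by
    rw [hm0]
    have h3 : 0 ≤ g * L * θ ^ 2 := by positivity
    have h4 : 0 ≤ g * θ * c1 := by positivity
    have e1 : 4 * g * (1 - 2 * θ) * (L / 4 * (1 - 9 * θ) - c1) =
        g * (1 - 11 * θ) * L - 4 * g * c1 + 18 * (g * L * θ ^ 2) + 8 * (g * θ * c1) := by ring
    linarith
  have h5 : g * (θ * L) ≤ 1 / 2 * (θ * L) := mul_le_mul_of_nonneg_right hg1 hθL.le
  have h3 : g * L - 7 * (θ * L) - 2 * c1 ≤ (1 + θ) * I := by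
    have h6 : g * c1 ≤ 1 / 2 * c1 := mul_le_mul_of_nonneg_right hg1 hc10.le
    have e1 : g * (1 - 11 * θ) * L = g * L - 11 * (g * (θ * L)) := by ring
    linarith
  have h4 : (1 - θ) * (g * L - 7 * (θ * L) - 2 * c1) ≤ I := by
    by_cases hneg : g * L - 7 * (θ * L) - 2 * c1 ≤ 0
    · have : (1 - θ) * (g * L - 7 * (θ * L) - 2 * c1) ≤ 0 :=
        mul_nonpos_of_nonneg_of_nonpos (by linarith) hneg
      linarith
    · have h6 : (1 - θ) * (g * L - 7 * (θ * L) - 2 * c1) ≤ (1 - θ) * ((1 + θ) * I) :=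
        mul_le_mul_of_nonneg_left h3 (by linarith)
      have h7 : (1 - θ) * ((1 + θ) * I) = I - θ ^ 2 * I := by ring
      have h8 : 0 ≤ θ ^ 2 * I := by positivity
      linarith
  have h6 : 0 ≤ θ * (7 * (θ * L) + 2 * c1) := by positivity
  have e2 : (1 - θ) * (g * L - 7 * (θ * L) - 2 * c1) =
      g * L - 7 * (θ * L) - 2 * c1 - g * (θ * L) + θ * (7 * (θ * L) + 2 * c1) := by ring
  have e3 : (g - 9 * θ) * L = g * L - 9 * (θ * L) := by ring
  rw [e3]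
  linarith

lemma cross_numeric {κ K θ J j S L : ℝ} (hκ0 : 0 < κ) (hκ2 : κ ≤ 2) (hK0 : 0 ≤ K) (hθ0 : 0 < θ)
    (hJ : 1 ≤ J) (hjJ : j ≤ J) (hS0 : 0 ≤ S) (hS : S ≤ θ / (16 * J ^ 2)) (hKL : θ * K ≤ L)
    (hL : 0 < L) :
    2 * (κ * (K * (θ / 2 * (θ / (8 * J ^ 2) + j * κ * S)))) ≤ θ * L / J := by
  have hJ0 : 0 < J := by linarith
  have h3 : j * κ * S ≤ θ / (8 * J) := by
    calc j * κ * S ≤ (J * 2) * (θ / (16 * J ^ 2)) :=
          mul_le_mul (mul_le_mul hjJ hκ2 hκ0.le hJ0.le) hS hS0 (by positivity)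
      _ = _ := by field_simp; norm_num
  have h4 : θ / (8 * J ^ 2) ≤ θ / (8 * J) := by
    apply div_le_div_of_nonneg_left hθ0.le (by positivity)
    nlinarith
  have h5 : K * (θ / 2 * (θ / (8 * J ^ 2) + j * κ * S)) ≤ K * (θ / 2 * (θ / (8 * J) + θ / (8 * J))) := by
    refine mul_le_mul_of_nonneg_left ?_ hK0
    refine mul_le_mul_of_nonneg_left ?_ (by linarith)
    linarith
  have h6 : 0 ≤ K * (θ / 2 * (θ / (8 * J) + θ / (8 * J))) := by positivity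
  calc 2 * (κ * (K * (θ / 2 * (θ / (8 * J ^ 2) + j * κ * S))))
      ≤ 2 * (κ * (K * (θ / 2 * (θ / (8 * J) + θ / (8 * J))))) := by
        refine mul_le_mul_of_nonneg_left (mul_le_mul_of_nonneg_left h5 hκ0.le) (by norm_num)
    _ ≤ 2 * (2 * (K * (θ / 2 * (θ / (8 * J) + θ / (8 * J))))) := by
        refine mul_le_mul_of_nonneg_left (mul_le_mul_of_nonneg_right hκ2 h6) (by norm_num)
    _ = (θ * K) * (θ / (2 * J)) := by field_simp; ring
    _ ≤ L * (θ / (2 * J)) := mul_le_mul_of_nonneg_right hKL (by positivity)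
    _ = θ * L / J / 2 := by field_simp
    _ ≤ θ * L / J := by
        have : 0 ≤ θ * L / J := by positivity
        linarith

namespace Par
variable (P : Par)

lemma M_le_k0 {B : ℕ} (hBexp : P.Λ * Real.exp (P.η * P.s) + 2 ≤ Real.exp (P.η * B) / P.Q) (i : ℕ) :
    P.M (i + P.s) ≤ P.k0 (i + B) := by
  unfold k0 kf
  apply Nat.le_floor
  unfold M Mf
  have hΛ := P.hΛ
  refine (Nat.ceil_lt_add_one (by positivity)).le.trans ?_
  have e1 : Real.exp (P.η * ((i + P.s : ℕ) : ℝ)) = Real.exp (P.η * i) * Real.exp (P.η * P.s) := by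
    rw [← Real.exp_add]; congr 1; push_cast; ring
  have e2 : Real.exp (P.η * ((i + B : ℕ) : ℝ)) = Real.exp (P.η * i) * Real.exp (P.η * B) := by
    rw [← Real.exp_add]; congr 1; push_cast; ring
  rw [e1, e2, mul_div_assoc]
  have h3 := P.one_le_exp i
  have h5 : Real.exp (P.η * i) * (P.Λ * Real.exp (P.η * P.s) + 2) ≤
      Real.exp (P.η * i) * (Real.exp (P.η * B) / P.Q) :=
    mul_le_mul_of_nonneg_left hBexp (by linarith)
  have e3 : Real.exp (P.η * i) * (P.Λ * Real.exp (P.η * P.s) + 2) =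
      P.Λ * (Real.exp (P.η * i) * Real.exp (P.η * P.s)) + 2 * Real.exp (P.η * i) := by ring
  linarith

lemma k0_mono {i j : ℕ} (hij : i ≤ j) : P.k0 i ≤ P.k0 j := by
  unfold k0 kf
  apply Nat.floor_mono
  have h1 : (i:ℝ) ≤ j := by exact_mod_cast hij
  have h2 := P.hη0
  have h3 := P.hQ
  gcongr

lemma k0_bound {B : ℕ} (hexpKB : Real.exp (P.η * ((P.K + B : ℕ) : ℝ)) ≤ P.N / 8) :
    8 * P.k0 (P.K + B) ≤ P.N := by
  have h1 := P.k0_le (P.K + B)
  have h2 : Real.exp (P.η * ((P.K + B : ℕ) : ℝ)) / P.Q ≤ P.N / 8 :=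
    (div_le_self (Real.exp_pos _).le P.hQ).trans hexpKB
  have h4 : ((8 * P.k0 (P.K + B) : ℕ) : ℝ) ≤ P.N := by push_cast; linarith
  exact_mod_cast h4

open Classical in
lemma bad_bound {n : ℕ → ℤ} (hn : ∀ j k, j < k → k < P.N → n j < n k) {B : ℕ}
    (hgd : ∀ i, P.gd i ↔ xg n P.N (P.k0 i) < 2 * xg n P.N (P.M (i + P.s)))
    (hBexp : P.Λ * Real.exp (P.η * P.s) + 2 ≤ Real.exp (P.η * B) / P.Q)
    (hexpKB : Real.exp (P.η * ((P.K + B : ℕ) : ℝ)) ≤ P.N / 8) (hN4 : 4 ≤ P.N) {Lg : ℝ}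
    (hlen : ((n (P.N - 1) - n 0 : ℤ) : ℝ) ≤ Lg) :
    (((range P.K).filter (fun i => ¬ P.gd i)).card : ℝ) * Real.log 2 ≤
      B * (Real.log Lg - Real.log P.N + Real.log 2) := by
  have hk := P.k0_bound hexpKB
  have hψpos : ∀ i ≤ P.K + B, 0 < (xg n P.N (P.k0 i) : ℝ) := by
    intro i hi
    have h1 := P.k0_mono hi
    have h2 := sub_le_of_strict hn (show P.k0 i ≤ P.N - 1 - P.k0 i by omega) (by omega)
    have h3 : 0 < xg n P.N (P.k0 i) := by
      unfold xg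
      omega
    exact_mod_cast h3
  have hψanti : ∀ i j, i ≤ j → j ≤ P.K + B →
      (xg n P.N (P.k0 j) : ℝ) ≤ (xg n P.N (P.k0 i) : ℝ) := by
    intro i j hij hj
    have h1 := P.k0_mono hij
    have h2 := P.k0_mono hj
    have h3 := xg_anti hn h1 (show P.k0 j < P.N by omega)
    exact_mod_cast h3
  have hcount := count_bad (K := P.K) (B := B) (ψ := fun i => (xg n P.N (P.k0 i) : ℝ)) hψpos hψanti
    (fun i => ¬ P.gd i) (by
      intro i hi hb
      rw [hgd] at hb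
      push Not at hb
      have h2 := P.M_le_k0 hBexp i
      have h3 := P.k0_mono (show i + B ≤ P.K + B by omega)
      have h4 := xg_anti hn h2 (show P.k0 (i + B) < P.N by omega)
      have h5 : 2 * xg n P.N (P.k0 (i + B)) ≤ xg n P.N (P.k0 i) := by linarith
      exact_mod_cast h5)
  have hcount' : (((range P.K).filter (fun i => ¬ P.gd i)).card : ℝ) * Real.log 2 ≤
      B * (Real.log (xg n P.N (P.k0 0)) - Real.log (xg n P.N (P.k0 (P.K + B)))) := by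
    convert hcount
  refine hcount'.trans ?_
  refine mul_le_mul_of_nonneg_left ?_ (Nat.cast_nonneg _)
  have hNpos : (0:ℝ) < P.N := by
    have : 0 < P.N := by omega
    exact_mod_cast this
  have h1 : Real.log (xg n P.N (P.k0 0)) ≤ Real.log Lg := by
    refine Real.log_le_log (hψpos 0 (by omega)) (le_trans ?_ hlen)
    have h2 := P.k0_mono (show 0 ≤ P.K + B by omega)
    have h3 := xg_anti hn (Nat.zero_le (P.k0 0)) (by omega)
    have h4 : xg n P.N (P.k0 0) ≤ n (P.N - 1) - n 0 := by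
      have h5 : xg n P.N 0 = n (P.N - 1) - n 0 := by unfold xg; simp
      omega
    exact_mod_cast h4
  have h2 : Real.log P.N ≤ Real.log 2 + Real.log (xg n P.N (P.k0 (P.K + B))) := by
    have h2 := sub_le_of_strict hn (show P.k0 (P.K + B) ≤ P.N - 1 - P.k0 (P.K + B) by omega)
      (show P.N - 1 - P.k0 (P.K + B) < P.N by omega)
    have h3 : (P.N:ℤ) ≤ 2 * xg n P.N (P.k0 (P.K + B)) := by
      unfold xg
      omega
    have h4 : (P.N:ℝ) ≤ 2 * (xg n P.N (P.k0 (P.K + B)) : ℝ) := by exact_mod_cast h3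
    have h5 := Real.log_le_log hNpos h4
    rwa [Real.log_mul (by norm_num) (hψpos (P.K + B) le_rfl).ne'] at h5
  linarith

end Par

end Pool.Agent.Littlewood
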