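import Mathlib
import Pool.Agent.Lib.MP_d1728b_an.Numeric

set_option autoImplicit false
set_option maxHeartbeats 1000000
open Finset MeasureTheory

namespace Pool.Agent.Littlewood

namespace Par

open Classical in
lemma conclude (P : Par) {n : ℕ → ℤ} (hn : ∀ j k, j < k → k < P.N → n j < n k)
    {L c1 r g δ Lg : ℝ} {J B : ℕ} (hθ1 : P.η ≤ 1 / 100) (hΛ : Real.exp (-P.Λ) ≤ P.η)
    (hgd : ∀ i, P.gd i ↔ xg n P.N (P.k0 i) < 2 * xg n P.N (P.M (i + P.s)))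
    (hBexp : P.Λ * Real.exp (P.η * P.s) + 2 ≤ Real.exp (P.η * B) / P.Q)
    (hexpKB : Real.exp (P.η * ((P.K + B : ℕ) : ℝ)) ≤ P.N / 8) (hN4 : 4 ≤ P.N)
    (hL : L = Real.log P.N) (hLpos : 0 < L) (hlen : ((n (P.N - 1) - n 0 : ℤ) : ℝ) ≤ Lg)
    (hlg : Real.log Lg ≤ (1 + δ) * L) (hδB : P.η * B * δ ≤ 2 * P.η * Real.log 2)
    (hc1 : c1 = (P.η * B + Real.log 8 + P.η) / 4 + P.η * B / 2 + 3) (hL8 : 8 * c1 ≤ P.η * L)
    (hK2 : L - P.η * B - Real.log 8 - P.η ≤ P.η * P.K) (hKL : P.η * P.K ≤ L)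
    (hr0 : 0 ≤ r) (hr1 : r < 1) (hJ : 1 ≤ J)
    (hcoef : 4 * g * (1 - 2 * P.η) ≤ cf r 0 * (2 * P.κ)) (htl : tl r J ≤ 1 + P.η)
    (hQs : Real.sqrt (1 / P.Q) = P.η / (8 * (J:ℝ) ^ 2))
    (hsexp : 2 * Real.sqrt (2 * P.Λ * Real.exp (-(P.η * ((P.s:ℝ) - 1)))) ≤ P.η / (16 * (J:ℝ) ^ 2))
    (hg0 : 0 < g) (hg1 : g ≤ 1 / 2) :
    (g - 9 * P.η) * L ≤ ∫ x in (0:ℝ)..1, ‖(P.data n hn).f x‖ := by
  have hη := P.hη0
  have hlog2 : 0 < Real.log 2 := Real.log_pos (by norm_num)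
  have hlog8 : 0 < Real.log 8 := Real.log_pos (by norm_num)
  have hk := P.k0_bound hexpKB
  have hbig : 2 * P.M (P.K + P.s) < P.N := by
    have h1 := P.M_le_k0 hBexp P.K
    omega
  have htwo := P.two_sided hn hbig (fun i _ hg => (hgd i).1 hg) hr0 hr1 hJ
  have hbad := P.bad_bound hn hgd hBexp hexpKB hN4 hlen
  set nb := (((range P.K).filter (fun i => ¬ P.gd i)).card : ℝ) with hnb
  have hnb0 : 0 ≤ nb := Nat.cast_nonneg _
  have hnbη : P.η / 2 * nb ≤ P.η * L + P.η * B / 2 := by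
    have h1 : P.η / 2 * nb * Real.log 2 ≤ (P.η * L + P.η * B / 2) * Real.log 2 := by
      calc P.η / 2 * nb * Real.log 2 = P.η / 2 * (nb * Real.log 2) := by ring
        _ ≤ P.η / 2 * (B * (Real.log Lg - Real.log P.N + Real.log 2)) :=
            mul_le_mul_of_nonneg_left hbad (by positivity)
        _ ≤ P.η / 2 * (B * (δ * L + Real.log 2)) := by
            refine mul_le_mul_of_nonneg_left (mul_le_mul_of_nonneg_left ?_ (Nat.cast_nonneg _)) (by positivity)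
            rw [← hL]; linarith
        _ = (P.η * B * δ) * L / 2 + P.η * B / 2 * Real.log 2 := by ring
        _ ≤ (2 * P.η * Real.log 2) * L / 2 + P.η * B / 2 * Real.log 2 := by
            have := mul_le_mul_of_nonneg_right hδB hLpos.le
            linarith
        _ = _ := by ring
    exact le_of_mul_le_mul_right h1 hlog2
  have hWs : (P.K - nb) * (1 - Real.exp (-P.Λ)) ≤ ∑ i ∈ range P.K, (P.data n hn).W i := by
    have := P.W_sum_ge hn (fun i hi => by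
      have h1 := P.M_mono (show i ≤ P.K + P.s by omega)
      omega)
    rw [hnb]
    convert this
  have hJr : (1:ℝ) ≤ J := by exact_mod_cast hJ
  have hcross : ∑ j ∈ Ico 1 J, |cf r j| * (2 * P.C j) ≤ P.η * L := by
    have hCj : ∀ j ∈ Ico 1 J, |cf r j| * (2 * P.C j) ≤ P.η * L / J := by
      intro j hj
      have hjJ : (j:ℝ) ≤ J := by exact_mod_cast (Finset.mem_Ico.1 hj).2.le
      have hC0 := P.C_nonneg j
      have h1 : |cf r j| * (2 * P.C j) ≤ 2 * P.C j :=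
        mul_le_of_le_one_left (by linarith) (abs_cf_le hr0 hr1.le j)
      refine h1.trans ?_
      unfold C
      rw [hQs]
      exact cross_numeric P.κ_pos P.κ_le (Nat.cast_nonneg _) hη hJr hjJ (by positivity) hsexp hKL hLpos
    refine (Finset.sum_le_sum hCj).trans ?_
    rw [Finset.sum_const, nsmul_eq_mul, Nat.card_Ico]
    have h5 : ((J - 1 : ℕ) : ℝ) ≤ J := by exact_mod_cast Nat.sub_le _ _
    calc ((J - 1 : ℕ) : ℝ) * (P.η * L / J) ≤ J * (P.η * L / J) :=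
          mul_le_mul_of_nonneg_right h5 (by positivity)
      _ = P.η * L := by field_simp
  exact final_numeric hη hθ1 hLpos hc1 (by positivity) hlog8.le hL8 hK2 hnb0 hnbη (Nat.cast_nonneg _)
    (Real.exp_pos _) hΛ hWs htwo hcross hcoef htl
    (intervalIntegral.integral_nonneg zero_le_one fun _ _ => norm_nonneg _) hg0 hg1

end Par

lemma tl_le {θ r : ℝ} (hθ0 : 0 < θ) (hθ1 : θ ≤ 1 / 100) (hr : r = 1 - θ) :
    ∃ J : ℕ, 1 ≤ J ∧ tl r J ≤ 1 + θ := by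
  have hpi := Real.pi_gt_three
  have hr0 : 0 < r := by linarith
  have hr1 : r < 1 := by linarith
  have hr2 : r ^ 2 < 1 := by nlinarith
  obtain ⟨J0, hJ0⟩ := exists_pow_lt_of_lt_one (show 0 < θ * (1 - r ^ 2) / 2 by
    have : 0 < 1 - r ^ 2 := by linarith
    positivity) hr2
  refine ⟨J0 + 1, by omega, ?_⟩
  unfold tl
  have h1 : 0 < 1 - r ^ 2 := by linarith
  have h2 : (r ^ 2) ^ (J0 + 1) ≤ (r ^ 2) ^ J0 := pow_le_pow_of_le_one (by positivity) hr2.le (by omega)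
  have h3 : 0 < (r ^ 2) ^ (J0 + 1) := by positivity
  have h4 : r * (r ^ 2) ^ (J0 + 1) / (1 - r ^ 2) ≤ θ / 2 := by
    rw [div_le_iff₀ h1]
    nlinarith
  have h5 : 4 / Real.pi ≤ 2 := by rw [div_le_iff₀ (by linarith)]; linarith
  have h6 : 0 ≤ r * (r ^ 2) ^ (J0 + 1) / (1 - r ^ 2) := by positivity
  have h7 : 0 < 4 / Real.pi := by positivity
  nlinarith

lemma s_choice {θ Λ J : ℝ} (hθ0 : 0 < θ) (hΛ : 0 < Λ) (hJ : 0 < J) :
    ∃ s : ℕ, 1 ≤ s ∧ 2 * Real.sqrt (2 * Λ * Real.exp (-(θ * ((s:ℝ) - 1)))) ≤ θ / (16 * J ^ 2) := by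
  set τ : ℝ := (θ / (32 * J ^ 2)) ^ 2 / (2 * Λ) with hτdef
  have hτ0 : 0 < τ := by positivity
  obtain ⟨s0, hs0⟩ := exists_nat_gt (-Real.log τ / θ)
  refine ⟨s0 + 1, by omega, ?_⟩
  have h1 : Real.exp (-(θ * (((s0 + 1 : ℕ) : ℝ) - 1))) ≤ τ := by
    have h2 : -(θ * (((s0 + 1 : ℕ) : ℝ) - 1)) ≤ Real.log τ := by
      rw [div_lt_iff₀ hθ0] at hs0
      push_cast
      linarith
    calc _ ≤ Real.exp (Real.log τ) := Real.exp_le_exp.2 h2
      _ = τ := Real.exp_log hτ0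
  have h3 : 2 * Λ * Real.exp (-(θ * (((s0 + 1 : ℕ) : ℝ) - 1))) ≤ (θ / (32 * J ^ 2)) ^ 2 := by
    calc _ ≤ 2 * Λ * τ := mul_le_mul_of_nonneg_left h1 (by positivity)
      _ = _ := by rw [hτdef]; field_simp
  have h4 := Real.sqrt_le_sqrt h3
  rw [Real.sqrt_sq (by positivity)] at h4
  calc _ ≤ 2 * (θ / (32 * J ^ 2)) := mul_le_mul_of_nonneg_left h4 (by norm_num)
    _ = _ := by field_simp; norm_num

lemma B_choice {θ X : ℝ} (hθ0 : 0 < θ) {Q : ℝ} (hQ : 0 < Q) (hX : 0 < X) :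
    ∃ B : ℕ, X ≤ Real.exp (θ * B) / Q := by
  obtain ⟨B, hB⟩ := exists_nat_gt (Real.log (Q * X) / θ)
  refine ⟨B, ?_⟩
  rw [le_div_iff₀ (by positivity)]
  rw [div_lt_iff₀ hθ0] at hB
  have h1 : 0 < Q * X := by positivity
  calc X * Q = Real.exp (Real.log (Q * X)) := by rw [Real.exp_log h1]; ring
    _ ≤ _ := Real.exp_le_exp.2 (by linarith)

lemma coef_bound {θ r : ℝ} (hθ1 : θ ≤ 1 / 100) (hr : r = 1 - θ) :
    4 * (4 / Real.pi ^ 2) * (1 - 2 * θ) ≤ cf r 0 * (2 * (4 / Real.pi * Real.exp (-θ))) := by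
  have hpi := Real.pi_pos
  rw [cf_zero]
  have h2 : 1 - θ ≤ Real.exp (-θ) := by have := Real.add_one_le_exp (-θ); linarith
  have h3 : 1 - 2 * θ ≤ r * Real.exp (-θ) := by
    have h4 : (1 - θ) * (1 - θ) ≤ r * Real.exp (-θ) := by
      rw [hr]; exact mul_le_mul_of_nonneg_left h2 (by linarith)
    have h5 : (1 - θ) * (1 - θ) = 1 - 2 * θ + θ ^ 2 := by ring
    have := sq_nonneg θ
    linarith
  calc 4 * (4 / Real.pi ^ 2) * (1 - 2 * θ) ≤ 4 * (4 / Real.pi ^ 2) * (r * Real.exp (-θ)) :=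
        mul_le_mul_of_nonneg_left h3 (by positivity)
    _ = _ := by ring

/-- Version with a concrete parameter `θ`, for sets in short intervals. -/
lemma dense_theta {θ : ℝ} (hθ0 : 0 < θ) (hθ1 : θ ≤ 1 / 100) :
    ∃ δ : ℝ, 0 < δ ∧ ∃ N₀ : ℕ, ∀ A : Finset ℤ, N₀ ≤ A.card → ∀ a : ℤ, ∀ Lg : ℕ,
      (Lg : ℝ) ≤ (A.card : ℝ) ^ (1 + δ) → (∀ x ∈ A, a ≤ x ∧ x < a + Lg) →
      (4 / Real.pi ^ 2 - 9 * θ) * Real.log A.card ≤ ∫ x in (0:ℝ)..1, ‖∑ a ∈ A, E a x‖ := by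
  have hpi := Real.pi_gt_three
  have hpi4 : 4 / Real.pi ^ 2 ≤ 1 / 2 := by
    rw [div_le_iff₀ (by positivity)]; nlinarith
  have hpi40 : 0 < 4 / Real.pi ^ 2 := by positivity
  obtain ⟨r, hr⟩ : ∃ r : ℝ, r = 1 - θ := ⟨_, rfl⟩
  have hr0 : 0 < r := by linarith
  have hr1 : r < 1 := by linarith
  obtain ⟨J, hJ1, htl⟩ := tl_le hθ0 hθ1 hr
  have hJr : (1:ℝ) ≤ J := by exact_mod_cast hJ1
  obtain ⟨Q, hQdef⟩ : ∃ Q : ℝ, Q = (8 * (J:ℝ) ^ 2 / θ) ^ 2 := ⟨_, rfl⟩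
  have hQ1 : 1 ≤ Q := by
    rw [hQdef]
    have h1 : 1 ≤ 8 * (J:ℝ) ^ 2 / θ := by
      rw [le_div_iff₀ hθ0]; nlinarith
    exact one_le_pow₀ h1
  have hQs : Real.sqrt (1 / Q) = θ / (8 * (J:ℝ) ^ 2) := by
    rw [hQdef]
    have : 1 / (8 * (J:ℝ) ^ 2 / θ) ^ 2 = (θ / (8 * (J:ℝ) ^ 2)) ^ 2 := by field_simp
    rw [this, Real.sqrt_sq (by positivity)]
  obtain ⟨Λ, hΛdef⟩ : ∃ Λ : ℝ, Λ = 1 / θ := ⟨_, rfl⟩
  have hΛ1 : 1 ≤ Λ := by rw [hΛdef, le_div_iff₀ hθ0]; linarith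
  have hexpΛ : Real.exp (-Λ) ≤ θ := by
    rw [hΛdef, Real.exp_neg, inv_le_comm₀ (Real.exp_pos _) hθ0]
    have := Real.add_one_le_exp (1 / θ)
    have h2 : θ⁻¹ = 1 / θ := by rw [one_div]
    linarith
  obtain ⟨s, hs1, hsexp⟩ := s_choice (θ := θ) (Λ := Λ) (J := (J:ℝ)) hθ0 (by linarith) (by linarith)
  obtain ⟨B, hBexp⟩ := B_choice (θ := θ) (X := Λ * Real.exp (θ * s) + 2) hθ0 (Q := Q) (by linarith)
    (by positivity)
  have hlog2 : 0 < Real.log 2 := Real.log_pos (by norm_num)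
  have hlog8 : 0 < Real.log 8 := Real.log_pos (by norm_num)
  obtain ⟨δ, hδdef⟩ : ∃ δ : ℝ, δ = 2 * θ * Real.log 2 / (θ * B + 1) := ⟨_, rfl⟩
  have hδ0 : 0 < δ := by rw [hδdef]; positivity
  have hδB : θ * B * δ ≤ 2 * θ * Real.log 2 := by
    rw [hδdef, mul_div_assoc', div_le_iff₀ (by positivity)]
    have : 0 ≤ 2 * θ * Real.log 2 := by positivity
    linarith
  obtain ⟨c1, hc1⟩ : ∃ c1 : ℝ, c1 = (θ * B + Real.log 8 + θ) / 4 + θ * B / 2 + 3 := ⟨_, rfl⟩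
  have hc10 : 0 < c1 := by rw [hc1]; positivity
  obtain ⟨N₀, hN₀⟩ := exists_nat_gt (Real.exp (8 * c1 / θ))
  refine ⟨δ, hδ0, N₀ + 4, fun A hA a Lg hLg hAL => ?_⟩
  obtain ⟨N, hN⟩ : ∃ N, N = A.card := ⟨_, rfl⟩
  have hN4 : 4 ≤ N := by omega
  have hNr : (4:ℝ) ≤ N := by exact_mod_cast hN4
  have hNpos : (0:ℝ) < N := by linarith
  rw [← hN] at hLg
  rw [← hN]
  obtain ⟨L, hLdef⟩ : ∃ L : ℝ, L = Real.log N := ⟨_, rfl⟩
  rw [← hLdef]
  have hexpL : Real.exp L = N := by rw [hLdef]; exact Real.exp_log hNpos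
  have hLbig : 8 * c1 / θ ≤ L := by
    rw [hLdef, Real.le_log_iff_exp_le hNpos]
    have : (N₀:ℝ) ≤ N := by exact_mod_cast (by omega : N₀ ≤ N)
    linarith
  have hL8 : 8 * c1 ≤ θ * L := by
    rw [div_le_iff₀ hθ0] at hLbig; linarith
  have hLpos : 0 < L := lt_of_lt_of_le (by positivity) hLbig
  have hL1 : 8 * c1 ≤ L := by
    have : θ * L ≤ 1 * L := mul_le_mul_of_nonneg_right (by linarith) hLpos.le
    linarith
  have hθB : 0 ≤ θ * B := by positivity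
  have hnum : 0 ≤ L - θ * B - Real.log 8 := by
    rw [hc1] at hL1
    linarith
  obtain ⟨K, hK⟩ : ∃ K : ℕ, K = ⌊(L - θ * B - Real.log 8) / θ⌋₊ := ⟨_, rfl⟩
  have hK1 : θ * K ≤ L - θ * B - Real.log 8 := by
    have : (K:ℝ) ≤ (L - θ * B - Real.log 8) / θ := by
      rw [hK]; exact Nat.floor_le (div_nonneg hnum hθ0.le)
    rw [le_div_iff₀ hθ0] at this; linarith
  have hK2 : L - θ * B - Real.log 8 - θ ≤ θ * K := by
    have : (L - θ * B - Real.log 8) / θ ≤ K + 1 := by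
      rw [hK]; exact (Nat.lt_floor_add_one _).le
    rw [div_le_iff₀ hθ0] at this; linarith
  have hexpKB : Real.exp (θ * ((K + B : ℕ) : ℝ)) ≤ N / 8 := by
    have h1 : θ * ((K + B : ℕ) : ℝ) ≤ L - Real.log 8 := by push_cast; linarith
    calc _ ≤ Real.exp (L - Real.log 8) := Real.exp_le_exp.2 h1
      _ = N / 8 := by rw [Real.exp_sub, hexpL, Real.exp_log (by norm_num)]
  obtain ⟨P, hP1, hP2, hP3, hP4, hP5, hP6, hPgd⟩ : ∃ P : Par, P.N = N ∧ P.η = θ ∧ P.K = K ∧ P.Λ = Λ ∧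
      P.Q = Q ∧ P.s = s ∧ ∀ i, P.gd i ↔ xg (enum A) P.N (P.k0 i) < 2 * xg (enum A) P.N (P.M (i + P.s)) :=
    ⟨{ N := N, η := θ, hη0 := hθ0, hη1 := by linarith, K := K, Λ := Λ, hΛ := hΛ1, Q := Q, hQ := hQ1,
       s := s, hs := hs1,
       gd := fun i => xg (enum A) N (kf θ Q i) < 2 * xg (enum A) N (Mf θ Λ (i + s)) },
      rfl, rfl, rfl, rfl, rfl, rfl, fun i => Iff.rfl⟩
  have hn : ∀ j k, j < k → k < P.N → enum A j < enum A k := by
    rw [hP1, hN]; exact enum_lt A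
  have hmem : ∀ k < N, enum A k ∈ A := by
    intro k hk
    rw [hN] at hk
    unfold enum
    rw [dif_pos hk]
    exact Finset.orderEmbOfFin_mem A rfl _
  have hlen : ((enum A (P.N - 1) - enum A 0 : ℤ) : ℝ) ≤ (Lg : ℝ) := by
    rw [hP1]
    have h1 := hAL _ (hmem 0 (by omega))
    have h2 := hAL _ (hmem (N - 1) (by omega))
    have h3 : enum A (N - 1) - enum A 0 ≤ Lg := by omega
    exact_mod_cast h3
  have hlg : Real.log Lg ≤ (1 + δ) * L := by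
    rcases Nat.eq_zero_or_pos Lg with h0 | h0
    · rw [h0, Nat.cast_zero, Real.log_zero]; positivity
    · have h5 := Real.log_le_log (by exact_mod_cast h0) hLg
      rw [Real.log_rpow hNpos, ← hLdef] at h5
      exact h5
  have hcoef : 4 * (4 / Real.pi ^ 2) * (1 - 2 * θ) ≤ cf r 0 * (2 * P.κ) := by
    unfold Par.κ
    rw [hP2]
    exact coef_bound hθ1 hr
  have hfin := P.conclude hn (L := L) (c1 := c1) (r := r) (g := 4 / Real.pi ^ 2) (δ := δ) (Lg := Lg)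
    (J := J) (B := B) (by rw [hP2]; exact hθ1) (by rw [hP4, hP2]; exact hexpΛ) hPgd
    (by rw [hP4, hP2, hP6, hP5]; exact hBexp) (by rw [hP2, hP3, hP1]; exact hexpKB)
    (by rw [hP1]; exact hN4) (by rw [hP1]; exact hLdef) hLpos hlen hlg (by rw [hP2]; exact hδB)
    (by rw [hP2]; exact hc1) (by rw [hP2]; exact hL8) (by rw [hP2, hP3]; exact hK2)
    (by rw [hP2, hP3]; linarith) hr0.le hr1 hJ1 (by rw [hP2]; exact hcoef) (by rw [hP2]; exact htl)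
    (by rw [hP5, hP2]; exact hQs) (by rw [hP4, hP2, hP6]; exact hsexp) hpi40 hpi4
  rw [hP2] at hfin
  refine hfin.trans (le_of_eq ?_)
  refine intervalIntegral.integral_congr fun x _ => ?_
  have hfI : (P.data (enum A) hn).f x = ∑ a ∈ A, E a x := by
    show ∑ k ∈ range P.N, E (enum A k) x = _
    rw [hP1, hN]
    exact sum_enum A (fun a => E a x)
  simp only [hfI]

end Pool.Agent.Littlewood
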