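import Mathlib
import Pool.Agent.Lib.MP_d1728b_an.Dense

set_option autoImplicit false
open Finset MeasureTheory

namespace Pool.Agent.Littlewood

lemma integral_comp_int_mul {g : ℝ → ℝ} (hg : Function.Periodic g 1) (hc : Continuous g) {d : ℤ}
    (hd : d ≠ 0) :
    ∫ x in (0:ℝ)..1, g (d * x) = ∫ x in (0:ℝ)..1, g x := by
  have hd' : (d:ℝ) ≠ 0 := by exact_mod_cast hd
  rw [intervalIntegral.integral_comp_mul_left (fun x => g x) hd', mul_zero, mul_one]
  have h := hg.intervalIntegral_add_zsmul_eq d 0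
  simp only [zero_add, zsmul_eq_mul, mul_one] at h
  rw [h (fun _ _ => hc.intervalIntegrable _ _), smul_eq_mul, ← mul_assoc, inv_mul_cancel₀ hd', one_mul]

lemma norm_AP (A : Finset ℤ) (b : ℤ) {d : ℤ} (hd : d ≠ 0) :
    ∫ x in (0:ℝ)..1, ‖∑ a ∈ A, E (b + a * d) x‖ = ∫ x in (0:ℝ)..1, ‖∑ a ∈ A, E a x‖ := by
  have hper : Function.Periodic (fun x : ℝ => ‖∑ a ∈ A, E a x‖) 1 := by
    intro x
    simp only
    congr 1
    refine Finset.sum_congr rfl fun a _ => ?_
    rw [E_periodic]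
  have hcont : Continuous (fun x : ℝ => ‖∑ a ∈ A, E a x‖) :=
    (continuous_finsetSum _ fun _ _ => continuous_E _).norm
  rw [← integral_comp_int_mul hper hcont hd]
  refine intervalIntegral.integral_congr fun x _ => ?_
  have h1 : ∑ a ∈ A, E (b + a * d) x = E b x * ∑ a ∈ A, E a (d * x) := by
    rw [Finset.mul_sum]
    refine Finset.sum_congr rfl fun a _ => ?_
    rw [E_add]
    congr 1
    unfold E
    congr 1
    push_cast
    ring
  rw [h1, norm_mul, norm_E, one_mul]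

theorem dense_AP (ε : ℝ) (hε : 0 < ε) : ∃ δ : ℝ, 0 < δ ∧ ∃ N₀ : ℕ, ∀ A : Finset ℤ, N₀ ≤ A.card →
    ∀ (b d : ℤ) (L : ℕ), d ≠ 0 → (L : ℝ) ≤ (A.card : ℝ) ^ (1 + δ) →
      (∀ a ∈ A, ∃ j : ℕ, j < L ∧ a = b + j * d) →
      (4 / Real.pi ^ 2 - ε) * Real.log A.card ≤ ∫ x in (0:ℝ)..1, ‖∑ a ∈ A, E a x‖ := by
  set θ := min (ε / 9) (1 / 100) with hθ
  have hθ0 : 0 < θ := lt_min (by positivity) (by norm_num)
  have hθ1 : θ ≤ 1 / 100 := min_le_right _ _
  have hθε : 9 * θ ≤ ε := by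
    have := min_le_left (ε / 9) (1 / 100); linarith
  obtain ⟨δ, hδ, N₀, h⟩ := dense_theta hθ0 hθ1
  refine ⟨δ, hδ, N₀, fun A hA b d L hd hL hAP => ?_⟩
  -- the set of indices
  set A' : Finset ℤ := A.image (fun a => (a - b) / d) with hA'
  have hinv : ∀ a ∈ A, b + (a - b) / d * d = a := by
    intro a ha
    obtain ⟨j, hj, hja⟩ := hAP a ha
    have : a - b = j * d := by rw [hja]; ring
    rw [this, Int.mul_ediv_cancel _ hd]
    linarith
  have hinj : Set.InjOn (fun a => (a - b) / d) (A : Set ℤ) := by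
    intro a ha a' ha' haa
    simp only at haa
    rw [← hinv a ha, ← hinv a' ha', haa]
  have hcard : A'.card = A.card := Finset.card_image_of_injOn hinj
  have hsum : ∀ x, ∑ a ∈ A, E a x = ∑ a ∈ A', E (b + a * d) x := by
    intro x
    rw [hA', Finset.sum_image hinj]
    refine Finset.sum_congr rfl fun a ha => ?_
    rw [hinv a ha]
  simp_rw [hsum]
  rw [norm_AP A' b hd, ← hcard]
  have h1 := h A' (by rw [hcard]; exact hA) 0 L (by rw [hcard]; exact hL) (by
    intro x hx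
    rw [hA', Finset.mem_image] at hx
    obtain ⟨a, ha, hax⟩ := hx
    obtain ⟨j, hj, hja⟩ := hAP a ha
    have h2 : a - b = j * d := by rw [hja]; ring
    rw [h2, Int.mul_ediv_cancel _ hd] at hax
    omega)
  refine le_trans ?_ h1
  refine mul_le_mul_of_nonneg_right (by linarith) ?_
  exact Real.log_natCast_nonneg _

end Pool.Agent.Littlewood
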