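import Mathlib
import Pool.Agent.Lib.MP_d1728b_an.DenseAP

set_option autoImplicit false
set_option maxHeartbeats 1000000
open Finset MeasureTheory

namespace Pool.Agent.Littlewood

/-- The diameter of what remains of `A` after deleting its `m` smallest and its `m` largest elements:
the difference of the entries `A.card - 1 - m` and `m` of the increasing list of the elements. -/
def trimmedDiam (A : Finset ℤ) (m : ℕ) : ℤ :=
  (A.sort (· ≤ ·)).getD (A.card - 1 - m) 0 - (A.sort (· ≤ ·)).getD m 0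

lemma enum_eq_getD (A : Finset ℤ) {k : ℕ} (hk : k < A.card) : enum A k = (A.sort (· ≤ ·)).getD k 0 := by
  unfold enum
  rw [dif_pos hk, Finset.orderEmbOfFin_apply]
  rw [List.getD_eq_getElem _ _ (by rw [Finset.length_sort]; exact hk)]
  rfl

lemma xg_eq_trimmedDiam (A : Finset ℤ) {m : ℕ} (hm : m < A.card) :
    xg (enum A) A.card m = trimmedDiam A m := by
  unfold xg trimmedDiam
  rw [enum_eq_getD A hm, enum_eq_getD A (by omega)]

namespace Par

open Classical in
lemma conclude2 (P : Par) {n : ℕ → ℤ} (hn : ∀ j k, j < k → k < P.N → n j < n k)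
    {L c1 r g b : ℝ} {J : ℕ} (hθ1 : P.η ≤ 1 / 100) (hΛ : Real.exp (-P.Λ) ≤ P.η)
    (hgd : ∀ i < P.K, P.gd i → xg n P.N (P.k0 i) < 2 * xg n P.N (P.M (i + P.s)))
    (hbig : 2 * P.M (P.K + P.s) < P.N) (hLpos : 0 < L) (hb0 : 0 ≤ b)
    (hnb : P.η / 2 * (((range P.K).filter (fun i => ¬ P.gd i)).card : ℝ) ≤ P.η * L + b / 2)
    (hc1 : c1 = (b + Real.log 8 + P.η) / 4 + b / 2 + 3) (hL8 : 8 * c1 ≤ P.η * L)
    (hK2 : L - b - Real.log 8 - P.η ≤ P.η * P.K) (hKL : P.η * P.K ≤ L)
    (hr0 : 0 ≤ r) (hr1 : r < 1) (hJ : 1 ≤ J)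
    (hcoef : 4 * g * (1 - 2 * P.η) ≤ cf r 0 * (2 * P.κ)) (htl : tl r J ≤ 1 + P.η)
    (hQs : Real.sqrt (1 / P.Q) = P.η / (8 * (J:ℝ) ^ 2))
    (hsexp : 2 * Real.sqrt (2 * P.Λ * Real.exp (-(P.η * ((P.s:ℝ) - 1)))) ≤ P.η / (16 * (J:ℝ) ^ 2))
    (hg0 : 0 < g) (hg1 : g ≤ 1 / 2) :
    (g - 9 * P.η) * L ≤ ∫ x in (0:ℝ)..1, ‖(P.data n hn).f x‖ := by
  have hη := P.hη0
  have hlog8 : 0 < Real.log 8 := Real.log_pos (by norm_num)
  have htwo := P.two_sided hn hbig hgd hr0 hr1 hJ
  set nb := (((range P.K).filter (fun i => ¬ P.gd i)).card : ℝ) with hnbdef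
  have hnb0 : 0 ≤ nb := Nat.cast_nonneg _
  have hWs : (P.K - nb) * (1 - Real.exp (-P.Λ)) ≤ ∑ i ∈ range P.K, (P.data n hn).W i := by
    have := P.W_sum_ge hn (fun i hi => by
      have h1 := P.M_mono (show i ≤ P.K + P.s by omega)
      omega)
    rw [hnbdef]
    convert this
  have hJr : (1:ℝ) ≤ J := by exact_mod_cast hJ
  have hcross : ∑ j ∈ Ico 1 J, |cf r j| * (2 * P.C j) ≤ P.η * L := by
    have hCj : ∀ j ∈ Ico 1 J, |cf r j| * (2 * P.C j) ≤ P.η * L / J := by
      intro j hj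
      have hjJ : (j:ℝ) ≤ J := by exact_mod_cast (Finset.mem_Ico.1 hj).2.le
      have hC0 := P.C_nonneg j
      have h1 : |cf r j| * (2 * P.C j) ≤ 2 * P.C j :=
        mul_le_of_le_one_left (by linarith) (abs_cf_le hr0 hr1.le j)
      refine h1.trans ?_
      unfold C
      rw [hQs]
      exact cross_numeric P.κ_pos P.κ_le (Nat.cast_nonneg _) hη hJr hjJ (by positivity) hsexp hKL hLpos
    refine (Finset.sum_le_sum hCj).trans ?_
    rw [Finset.sum_const, nsmul_eq_mul, Nat.card_Ico]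
    have h5 : ((J - 1 : ℕ) : ℝ) ≤ J := by exact_mod_cast Nat.sub_le _ _
    calc ((J - 1 : ℕ) : ℝ) * (P.η * L / J) ≤ J * (P.η * L / J) :=
          mul_le_mul_of_nonneg_right h5 (by positivity)
      _ = P.η * L := by field_simp
  exact final_numeric hη hθ1 hLpos hc1 hb0 hlog8.le hL8 hK2 hnb0 hnb (Nat.cast_nonneg _)
    (Real.exp_pos _) hΛ hWs htwo hcross hcoef htl
    (intervalIntegral.integral_nonneg zero_le_one fun _ _ => norm_nonneg _) hg0 hg1

end Par

open Classical in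
/-- counting scales by dyadic scales -/
lemma count_scales {θ Q : ℝ} (hθ0 : 0 < θ) (hQ : 1 ≤ Q) (K : ℕ) (bad : ℕ → Prop) (J : Finset ℕ)
    (h : ∀ i < K, bad i → Q ≤ Real.exp (θ * i) →
      ∃ j ∈ J, (2:ℝ) ^ j ≤ Real.exp (θ * i) / Q ∧ Real.exp (θ * i) / Q < (2:ℝ) ^ (j + 1)) :
    θ * (((range K).filter bad).card : ℝ) ≤ (Real.log 2 + θ) * J.card + Real.log Q + θ := by
  -- small scales
  have h1 : (range K).filter bad ⊆ (range (⌊Real.log Q / θ⌋₊ + 1)) ∪
      J.biUnion (fun j => (range K).filter (fun i => (2:ℝ) ^ j ≤ Real.exp (θ * i) / Q ∧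
        Real.exp (θ * i) / Q < (2:ℝ) ^ (j + 1))) := by
    intro i hi
    rw [Finset.mem_filter, Finset.mem_range] at hi
    rw [Finset.mem_union, Finset.mem_range, Finset.mem_biUnion]
    by_cases hQi : Q ≤ Real.exp (θ * i)
    · right
      obtain ⟨j, hj, hj2⟩ := h i hi.1 hi.2 hQi
      exact ⟨j, hj, Finset.mem_filter.2 ⟨Finset.mem_range.2 hi.1, hj2⟩⟩
    · left
      push Not at hQi
      have h2 : θ * i < Real.log Q := by
        rw [Real.lt_log_iff_exp_lt (by linarith)]; exact hQi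
      have h3 : (i:ℝ) ≤ Real.log Q / θ := by rw [le_div_iff₀ hθ0]; linarith
      have := Nat.le_floor h3
      omega
  have hcardj : ∀ j, ((((range K).filter (fun i : ℕ => (2:ℝ) ^ j ≤ Real.exp (θ * i) / Q ∧
        Real.exp (θ * i) / Q < (2:ℝ) ^ (j + 1))).card : ℝ)) ≤ Real.log 2 / θ + 1 := by
    intro j
    set s := (range K).filter (fun i : ℕ => (2:ℝ) ^ j ≤ Real.exp (θ * i) / Q ∧
        Real.exp (θ * i) / Q < (2:ℝ) ^ (j + 1)) with hs
    by_cases hne : s.Nonempty
    · set a := s.min' hne with ha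
      set c := s.max' hne with hc
      have hac : a ≤ c := s.min'_le _ (s.max'_mem hne)
      have hsub : s ⊆ Finset.Icc a c := fun x hx => Finset.mem_Icc.2 ⟨s.min'_le _ hx, s.le_max' _ hx⟩
      have hcard := Finset.card_le_card hsub
      rw [Nat.card_Icc] at hcard
      have ha2 := (Finset.mem_filter.1 (s.min'_mem hne)).2
      have hc2 := (Finset.mem_filter.1 (s.max'_mem hne)).2
      rw [← ha] at ha2
      rw [← hc] at hc2
      have h4 : Real.exp (θ * c) < 2 * Real.exp (θ * a) := by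
        have h5 : Real.exp (θ * c) / Q < 2 * (Real.exp (θ * a) / Q) := by
          calc Real.exp (θ * c) / Q < (2:ℝ) ^ (j + 1) := hc2.2
            _ = 2 * 2 ^ j := by ring
            _ ≤ _ := by linarith [ha2.1]
        have h6 : 0 < Q := by linarith
        rw [← mul_div_assoc, div_lt_div_iff_of_pos_right h6] at h5
        exact h5
      have h7 : θ * c < Real.log 2 + θ * a := by
        have h8 := Real.log_lt_log (Real.exp_pos _) h4
        rw [Real.log_mul (by norm_num) (Real.exp_pos _).ne', Real.log_exp, Real.log_exp] at h8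
        exact h8
      have h9 : (c:ℝ) - a ≤ Real.log 2 / θ := by
        rw [le_div_iff₀ hθ0]; linarith
      have h10 : (s.card : ℝ) ≤ c + 1 - a := by
        have : s.card + a ≤ c + 1 := by omega
        have h11 : ((s.card + a : ℕ) : ℝ) ≤ ((c + 1 : ℕ) : ℝ) := by exact_mod_cast this
        push_cast at h11
        linarith
      linarith
    · rw [Finset.not_nonempty_iff_eq_empty] at hne
      rw [hne]
      have : 0 < Real.log 2 := Real.log_pos (by norm_num)
      simp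
      positivity
  have h2 := Finset.card_le_card h1
  have h3 := h2.trans (Finset.card_union_le _ _)
  rw [Finset.card_range] at h3
  have h4 : ((((range K).filter bad).card : ℝ)) ≤ (⌊Real.log Q / θ⌋₊ + 1 : ℕ) +
      ((J.biUnion (fun j => (range K).filter (fun i : ℕ => (2:ℝ) ^ j ≤ Real.exp (θ * i) / Q ∧
        Real.exp (θ * i) / Q < (2:ℝ) ^ (j + 1)))).card : ℝ) := by exact_mod_cast h3
  have h5 : (((J.biUnion (fun j => (range K).filter (fun i : ℕ => (2:ℝ) ^ j ≤ Real.exp (θ * i) / Q ∧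
        Real.exp (θ * i) / Q < (2:ℝ) ^ (j + 1)))).card : ℝ)) ≤ J.card * (Real.log 2 / θ + 1) := by
    have h6 := Finset.card_biUnion_le (s := J) (t := fun j => (range K).filter (fun i : ℕ =>
      (2:ℝ) ^ j ≤ Real.exp (θ * i) / Q ∧ Real.exp (θ * i) / Q < (2:ℝ) ^ (j + 1)))
    calc _ ≤ ((∑ j ∈ J, ((range K).filter (fun i : ℕ => (2:ℝ) ^ j ≤ Real.exp (θ * i) / Q ∧
        Real.exp (θ * i) / Q < (2:ℝ) ^ (j + 1))).card : ℕ) : ℝ) := by exact_mod_cast h6
      _ ≤ ∑ j ∈ J, (Real.log 2 / θ + 1) := by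
          push_cast
          exact Finset.sum_le_sum fun j _ => hcardj j
      _ = _ := by rw [Finset.sum_const, nsmul_eq_mul]
  have h7 : ((⌊Real.log Q / θ⌋₊ + 1 : ℕ) : ℝ) ≤ Real.log Q / θ + 1 := by
    push_cast
    have := Nat.floor_le (div_nonneg (Real.log_nonneg hQ) hθ0.le)
    linarith
  have h8 : (((range K).filter bad).card : ℝ) ≤ Real.log Q / θ + 1 + J.card * (Real.log 2 / θ + 1) := by
    linarith
  calc θ * (((range K).filter bad).card : ℝ) ≤ θ * (Real.log Q / θ + 1 + J.card * (Real.log 2 / θ + 1)) :=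
        mul_le_mul_of_nonneg_left h8 hθ0.le
    _ = _ := by field_simp; ring

end Pool.Agent.Littlewood
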