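import Mathlib
import Pool.Agent.Lib.MP_d1728b_an.Trim

set_option autoImplicit false
set_option maxHeartbeats 1000000
open Finset MeasureTheory

namespace Pool.Agent.Littlewood

/-- the dyadic scales `j` at which the trimmed diameter of `A` drops by a factor `2` or more when the
number of removed elements passes from `2 ^ j` to `2 ^ (j + r)` at each end -/
def heavyScales (A : Finset ℤ) (r : ℕ) : Finset ℕ :=
  (range A.card).filter (fun j => 2 ^ (j + r + 1) < A.card ∧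
    2 * trimmedDiam A (2 ^ (j + r)) ≤ trimmedDiam A (2 ^ j))

lemma floor_scale {x : ℝ} (hx : 1 ≤ x) : ∃ j : ℕ, (2:ℝ) ^ j ≤ x ∧ x < (2:ℝ) ^ (j + 1) := by
  have h0 : (0:ℝ) ≤ x := by linarith
  have h1 : ⌊x⌋₊ ≠ 0 := by
    have := (Nat.one_le_floor_iff x).2 hx
    omega
  refine ⟨Nat.log 2 ⌊x⌋₊, ?_, ?_⟩
  · have h2 := Nat.pow_log_le_self 2 h1
    calc (2:ℝ) ^ (Nat.log 2 ⌊x⌋₊) = ((2 ^ (Nat.log 2 ⌊x⌋₊) : ℕ) : ℝ) := by push_cast; rfl
      _ ≤ ⌊x⌋₊ := by exact_mod_cast h2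
      _ ≤ x := Nat.floor_le h0
  · have h2 := Nat.lt_pow_succ_log_self (b := 2) (by norm_num) ⌊x⌋₊
    have h3 : ((⌊x⌋₊ + 1 : ℕ) : ℝ) ≤ ((2 ^ (Nat.log 2 ⌊x⌋₊ + 1) : ℕ) : ℝ) := by exact_mod_cast h2
    push_cast at h3
    have h4 := Nat.lt_floor_add_one x
    linarith

namespace Par

/-- a bad scale of the construction produces a heavy dyadic scale -/
lemma bad_heavy (P : Par) {A : Finset ℤ} (hN : P.N = A.card) {r : ℕ}
    (hr : 4 * P.Q * P.Λ * Real.exp (P.η * P.s) ≤ 2 ^ r)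
    (hK : Real.exp (P.η * P.K) * 2 ^ (r + 1) < P.N)
    {i : ℕ} (hi : i < P.K)
    (hbad : 2 * xg (enum A) P.N (P.M (i + P.s)) ≤ xg (enum A) P.N (P.k0 i))
    (hQi : P.Q ≤ Real.exp (P.η * i)) :
    ∃ j ∈ heavyScales A r, (2:ℝ) ^ j ≤ Real.exp (P.η * i) / P.Q ∧
      Real.exp (P.η * i) / P.Q < (2:ℝ) ^ (j + 1) := by
  have hQ := P.hQ
  have hQ0 : 0 < P.Q := by linarith
  have hη := P.hη0
  obtain ⟨j, hj1, hj2⟩ := floor_scale (x := Real.exp (P.η * i) / P.Q) (by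
    rw [le_div_iff₀ hQ0]; linarith)
  refine ⟨j, ?_, hj1, hj2⟩
  have hn : ∀ j k, j < k → k < P.N → enum A j < enum A k := by
    rw [hN]; exact enum_lt A
  have hexpi : Real.exp (P.η * i) ≤ Real.exp (P.η * P.K) := by
    refine Real.exp_le_exp.2 (mul_le_mul_of_nonneg_left ?_ hη.le)
    exact_mod_cast hi.le
  have hpowN : 2 ^ (j + r + 1) < P.N := by
    have h1 : (2:ℝ) ^ (j + r + 1) < P.N := by
      calc (2:ℝ) ^ (j + r + 1) = 2 ^ j * 2 ^ (r + 1) := by ring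
        _ ≤ Real.exp (P.η * i) / P.Q * 2 ^ (r + 1) := by gcongr
        _ ≤ Real.exp (P.η * P.K) * 2 ^ (r + 1) := by
            refine mul_le_mul_of_nonneg_right ?_ (by positivity)
            exact (div_le_self (Real.exp_pos _).le hQ).trans hexpi
        _ < P.N := hK
    exact_mod_cast h1
  have hpow : 2 ^ (j + r) < P.N := by
    have h1 : 2 ^ (j + r) ≤ 2 ^ (j + r + 1) := Nat.pow_le_pow_right (by norm_num) (by omega)
    omega
  have hjN : j < A.card := by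
    rw [← hN]
    have h1 : j < 2 ^ j := Nat.lt_two_pow_self
    have h2 : 2 ^ j ≤ 2 ^ (j + r) := Nat.pow_le_pow_right (by norm_num) (by omega)
    omega
  have hk0 : 2 ^ j ≤ P.k0 i := by
    unfold k0 kf
    refine Nat.le_floor ?_
    push_cast
    exact hj1
  have hM : P.M (i + P.s) ≤ 2 ^ (j + r) := by
    have h1 := P.M_le (i + P.s)
    have h2 : Real.exp (P.η * ((i + P.s : ℕ) : ℝ)) = Real.exp (P.η * i) * Real.exp (P.η * P.s) := by
      rw [← Real.exp_add]; congr 1; push_cast; ring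
    rw [h2] at h1
    have h3 : Real.exp (P.η * i) ≤ P.Q * 2 ^ (j + 1) := by
      rw [div_lt_iff₀ hQ0] at hj2; linarith
    have hΛ := P.hΛ
    have h4 : (P.M (i + P.s) : ℝ) ≤ 2 ^ (j + r) := by
      calc (P.M (i + P.s) : ℝ) ≤ 2 * P.Λ * (Real.exp (P.η * i) * Real.exp (P.η * P.s)) := h1
        _ = 2 * P.Λ * Real.exp (P.η * P.s) * Real.exp (P.η * i) := by ring
        _ ≤ 2 * P.Λ * Real.exp (P.η * P.s) * (P.Q * 2 ^ (j + 1)) :=
            mul_le_mul_of_nonneg_left h3 (by positivity)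
        _ = (4 * P.Q * P.Λ * Real.exp (P.η * P.s)) * 2 ^ j := by ring
        _ ≤ 2 ^ r * 2 ^ j := mul_le_mul_of_nonneg_right hr (by positivity)
        _ = 2 ^ (j + r) := by ring
    exact_mod_cast h4
  have hk0N : P.k0 i < P.N := by
    have h1 := P.k0_le i
    have h2 : (P.k0 i : ℝ) < P.N := by
      calc (P.k0 i : ℝ) ≤ Real.exp (P.η * i) / P.Q := h1
        _ ≤ Real.exp (P.η * P.K) := (div_le_self (Real.exp_pos _).le hQ).trans hexpi
        _ ≤ Real.exp (P.η * P.K) * 2 ^ (r + 1) := by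
            refine le_mul_of_one_le_right (Real.exp_pos _).le (one_le_pow₀ (by norm_num))
        _ < P.N := hK
    exact_mod_cast h2
  have e1 := xg_anti hn hk0 hk0N
  have e2 := xg_anti hn hM hpow
  have h2j : 2 ^ j < A.card := by
    rw [← hN]; omega
  have h2jr : 2 ^ (j + r) < A.card := by
    rw [← hN]; omega
  rw [hN] at e1 e2 hbad hpowN
  rw [xg_eq_trimmedDiam A h2j] at e1
  rw [xg_eq_trimmedDiam A h2jr] at e2
  unfold heavyScales
  rw [Finset.mem_filter, Finset.mem_range]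
  refine ⟨hjN, hpowN, ?_⟩
  linarith

end Par

/-- Version with a concrete parameter `θ`. -/
lemma trim_theta {θ : ℝ} (hθ0 : 0 < θ) (hθ1 : θ ≤ 1 / 100) :
    ∃ (r : ℕ) (N₀ : ℕ), ∀ A : Finset ℤ, N₀ ≤ A.card →
      ((heavyScales A r).card : ℝ) ≤ θ * Real.log A.card →
      (4 / Real.pi ^ 2 - 9 * θ) * Real.log A.card ≤ ∫ x in (0:ℝ)..1, ‖∑ a ∈ A, E a x‖ := by
  have hpi := Real.pi_gt_three
  have hpi4 : 4 / Real.pi ^ 2 ≤ 1 / 2 := by
    rw [div_le_iff₀ (by positivity)]; nlinarith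
  have hpi40 : 0 < 4 / Real.pi ^ 2 := by positivity
  obtain ⟨ρ, hρ⟩ : ∃ ρ : ℝ, ρ = 1 - θ := ⟨_, rfl⟩
  have hρ0 : 0 < ρ := by linarith
  have hρ1 : ρ < 1 := by linarith
  obtain ⟨J, hJ1, htl⟩ := tl_le hθ0 hθ1 hρ
  have hJr : (1:ℝ) ≤ J := by exact_mod_cast hJ1
  obtain ⟨Q, hQdef⟩ : ∃ Q : ℝ, Q = (8 * (J:ℝ) ^ 2 / θ) ^ 2 := ⟨_, rfl⟩
  have hQ1 : 1 ≤ Q := by
    rw [hQdef]
    have h1 : 1 ≤ 8 * (J:ℝ) ^ 2 / θ := by
      rw [le_div_iff₀ hθ0]; nlinarith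
    exact one_le_pow₀ h1
  have hQs : Real.sqrt (1 / Q) = θ / (8 * (J:ℝ) ^ 2) := by
    rw [hQdef]
    have : 1 / (8 * (J:ℝ) ^ 2 / θ) ^ 2 = (θ / (8 * (J:ℝ) ^ 2)) ^ 2 := by field_simp
    rw [this, Real.sqrt_sq (by positivity)]
  obtain ⟨Λ, hΛdef⟩ : ∃ Λ : ℝ, Λ = 1 / θ := ⟨_, rfl⟩
  have hΛ1 : 1 ≤ Λ := by rw [hΛdef, le_div_iff₀ hθ0]; linarith
  have hexpΛ : Real.exp (-Λ) ≤ θ := by
    rw [hΛdef, Real.exp_neg, inv_le_comm₀ (Real.exp_pos _) hθ0]
    have := Real.add_one_le_exp (1 / θ)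
    have h2 : θ⁻¹ = 1 / θ := by rw [one_div]
    linarith
  obtain ⟨s, hs1, hsexp⟩ := s_choice (θ := θ) (Λ := Λ) (J := (J:ℝ)) hθ0 (by linarith) (by linarith)
  have hlog2 : 0 < Real.log 2 := Real.log_pos (by norm_num)
  have hlog2' : Real.log 2 ≤ 1 := by have := Real.log_two_lt_d9; linarith
  have hlog8 : 0 < Real.log 8 := Real.log_pos (by norm_num)
  have hlogQ : 0 ≤ Real.log Q := Real.log_nonneg hQ1
  obtain ⟨r, hr⟩ : ∃ r : ℕ, 4 * Q * Λ * Real.exp (θ * s) ≤ (2:ℝ) ^ r := by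
    obtain ⟨r, hr⟩ := pow_unbounded_of_one_lt (4 * Q * Λ * Real.exp (θ * s)) (show (1:ℝ) < 2 by norm_num)
    exact ⟨r, hr.le⟩
  obtain ⟨b, hbdef⟩ : ∃ b : ℝ, b = r * Real.log 2 + Real.log Q + θ := ⟨_, rfl⟩
  have hb0 : 0 ≤ b := by rw [hbdef]; positivity
  obtain ⟨c1, hc1⟩ : ∃ c1 : ℝ, c1 = (b + Real.log 8 + θ) / 4 + b / 2 + 3 := ⟨_, rfl⟩
  have hc10 : 0 < c1 := by rw [hc1]; positivity
  obtain ⟨N₀, hN₀⟩ := exists_nat_gt (Real.exp (8 * c1 / θ))
  refine ⟨r, N₀ + 4, fun A hA hheavy => ?_⟩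
  obtain ⟨N, hN⟩ : ∃ N, N = A.card := ⟨_, rfl⟩
  have hN4 : 4 ≤ N := by omega
  have hNr : (4:ℝ) ≤ N := by exact_mod_cast hN4
  have hNpos : (0:ℝ) < N := by linarith
  rw [← hN] at hheavy
  rw [← hN]
  obtain ⟨L, hLdef⟩ : ∃ L : ℝ, L = Real.log N := ⟨_, rfl⟩
  rw [← hLdef] at hheavy
  rw [← hLdef]
  have hexpL : Real.exp L = N := by rw [hLdef]; exact Real.exp_log hNpos
  have hLbig : 8 * c1 / θ ≤ L := by
    rw [hLdef, Real.le_log_iff_exp_le hNpos]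
    have : (N₀:ℝ) ≤ N := by exact_mod_cast (by omega : N₀ ≤ N)
    linarith
  have hL8 : 8 * c1 ≤ θ * L := by
    rw [div_le_iff₀ hθ0] at hLbig; linarith
  have hLpos : 0 < L := lt_of_lt_of_le (by positivity) hLbig
  have hL1 : 8 * c1 ≤ L := by
    have : θ * L ≤ 1 * L := mul_le_mul_of_nonneg_right (by linarith) hLpos.le
    linarith
  have hnum : 0 ≤ L - b - Real.log 8 := by
    rw [hc1] at hL1
    linarith
  obtain ⟨K, hK⟩ : ∃ K : ℕ, K = ⌊(L - b - Real.log 8) / θ⌋₊ := ⟨_, rfl⟩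
  have hK1 : θ * K ≤ L - b - Real.log 8 := by
    have : (K:ℝ) ≤ (L - b - Real.log 8) / θ := by
      rw [hK]; exact Nat.floor_le (div_nonneg hnum hθ0.le)
    rw [le_div_iff₀ hθ0] at this; linarith
  have hK2 : L - b - Real.log 8 - θ ≤ θ * K := by
    have : (L - b - Real.log 8) / θ ≤ K + 1 := by
      rw [hK]; exact (Nat.lt_floor_add_one _).le
    rw [div_le_iff₀ hθ0] at this; linarith
  have hexp2r : Real.exp (-(r * Real.log 2)) = ((2:ℝ) ^ r)⁻¹ := by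
    rw [Real.exp_neg, ← Real.log_pow, Real.exp_log (by positivity)]
  have h2r : (0:ℝ) < 2 ^ r := by positivity
  have hexpK : Real.exp (θ * K) * 2 ^ r ≤ N / 8 := by
    have h1 : θ * K ≤ L - Real.log 8 + (-(r * Real.log 2)) := by rw [hbdef] at hK1; linarith
    calc Real.exp (θ * K) * 2 ^ r ≤ Real.exp (L - Real.log 8 + (-(r * Real.log 2))) * 2 ^ r :=
          mul_le_mul_of_nonneg_right (Real.exp_le_exp.2 h1) (by positivity)
      _ = N / 8 := by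
          rw [Real.exp_add, hexp2r, Real.exp_sub, hexpL, Real.exp_log (by norm_num)]
          field_simp
  obtain ⟨P, hP1, hP2, hP3, hP4, hP5, hP6, hPgd⟩ : ∃ P : Par, P.N = N ∧ P.η = θ ∧ P.K = K ∧ P.Λ = Λ ∧
      P.Q = Q ∧ P.s = s ∧ ∀ i, P.gd i ↔ xg (enum A) P.N (P.k0 i) < 2 * xg (enum A) P.N (P.M (i + P.s)) :=
    ⟨{ N := N, η := θ, hη0 := hθ0, hη1 := by linarith, K := K, Λ := Λ, hΛ := hΛ1, Q := Q, hQ := hQ1,
       s := s, hs := hs1,
       gd := fun i => xg (enum A) N (kf θ Q i) < 2 * xg (enum A) N (Mf θ Λ (i + s)) },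
      rfl, rfl, rfl, rfl, rfl, rfl, fun i => Iff.rfl⟩
  have hn : ∀ j k, j < k → k < P.N → enum A j < enum A k := by
    rw [hP1, hN]; exact enum_lt A
  have hbig : 2 * P.M (P.K + P.s) < P.N := by
    have h1 := P.M_le (P.K + P.s)
    rw [hP2, hP3, hP4, hP6] at h1
    have h2 : Real.exp (θ * ((K + s : ℕ) : ℝ)) = Real.exp (θ * K) * Real.exp (θ * s) := by
      rw [← Real.exp_add]; congr 1; push_cast; ring
    rw [h2] at h1
    have h3 : 2 * Λ * (Real.exp (θ * K) * Real.exp (θ * s)) ≤ Real.exp (θ * K) * 2 ^ r := by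
      have h4 : 2 * Λ * Real.exp (θ * s) ≤ 4 * Q * Λ * Real.exp (θ * s) := by
        have h5 : 0 < Λ * Real.exp (θ * s) := by positivity
        nlinarith
      calc 2 * Λ * (Real.exp (θ * K) * Real.exp (θ * s)) = Real.exp (θ * K) * (2 * Λ * Real.exp (θ * s)) := by
            ring
        _ ≤ _ := mul_le_mul_of_nonneg_left (h4.trans hr) (Real.exp_pos _).le
    have h5 : ((2 * P.M (P.K + P.s) : ℕ) : ℝ) < (P.N : ℝ) := by
      rw [hP1, hP3, hP6]
      push_cast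
      linarith
    exact_mod_cast h5
  classical
  have hcount := count_scales (θ := θ) (Q := Q) hθ0 hQ1 K (fun i => ¬ P.gd i) (heavyScales A r) (by
    intro i hi hb hQi
    have hb' : 2 * xg (enum A) P.N (P.M (i + P.s)) ≤ xg (enum A) P.N (P.k0 i) := by
      rw [hPgd] at hb; push Not at hb; exact hb
    have h1 := P.bad_heavy (A := A) (r := r) (by rw [hP1, hN]) (by rw [hP5, hP4, hP2, hP6]; exact hr)
      (by
        rw [hP2, hP3, hP1, pow_succ]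
        linarith) (i := i) (by rw [hP3]; exact hi) hb' (by rw [hP5, hP2]; exact hQi)
    rw [hP2, hP5] at h1
    exact h1)
  have hnb : P.η / 2 * (((range P.K).filter (fun i => ¬ P.gd i)).card : ℝ) ≤ P.η * L + b / 2 := by
    rw [hP2, hP3]
    have h1 : (Real.log 2 + θ) * ((heavyScales A r).card : ℝ) ≤ 2 * (θ * L) := by
      have h2 : Real.log 2 + θ ≤ 2 := by linarith
      calc (Real.log 2 + θ) * ((heavyScales A r).card : ℝ) ≤ 2 * ((heavyScales A r).card : ℝ) :=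
            mul_le_mul_of_nonneg_right h2 (Nat.cast_nonneg _)
        _ ≤ _ := by linarith
    have h3 : Real.log Q + θ ≤ b := by rw [hbdef]; linarith [show 0 ≤ r * Real.log 2 by positivity]
    have h4 : θ * (((range K).filter (fun i => ¬ P.gd i)).card : ℝ) ≤ 2 * (θ * L) + b := by
      refine le_trans ?_ (show (Real.log 2 + θ) * ((heavyScales A r).card : ℝ) + Real.log Q + θ ≤
        2 * (θ * L) + b by linarith)
      convert hcount
      rfl
    linarith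
  have hcoef : 4 * (4 / Real.pi ^ 2) * (1 - 2 * θ) ≤ cf ρ 0 * (2 * P.κ) := by
    unfold Par.κ
    rw [hP2]
    exact coef_bound hθ1 hρ
  have hfin := P.conclude2 hn (L := L) (c1 := c1) (r := ρ) (g := 4 / Real.pi ^ 2) (b := b)
    (J := J) (by rw [hP2]; exact hθ1) (by rw [hP4, hP2]; exact hexpΛ)
    (fun i _ hg => (hPgd i).1 hg) hbig hLpos hb0 (by convert hnb) (by rw [hP2]; exact hc1)
    (by rw [hP2]; exact hL8) (by rw [hP2, hP3]; exact hK2)
    (by rw [hP2, hP3]; linarith) hρ0.le hρ1 hJ1 (by rw [hP2]; exact hcoef) (by rw [hP2]; exact htl)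
    (by rw [hP5, hP2]; exact hQs) (by rw [hP4, hP2, hP6]; exact hsexp) hpi40 hpi4
  rw [hP2] at hfin
  refine hfin.trans (le_of_eq ?_)
  refine intervalIntegral.integral_congr fun x _ => ?_
  have hfI : (P.data (enum A) hn).f x = ∑ a ∈ A, E a x := by
    show ∑ k ∈ range P.N, E (enum A k) x = _
    rw [hP1, hN]
    exact sum_enum A (fun a => E a x)
  simp only [hfI]

theorem sharp_trim (ε : ℝ) (hε : 0 < ε) : ∃ (r : ℕ) (δ : ℝ), 0 < δ ∧ ∃ N₀ : ℕ, ∀ A : Finset ℤ,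
    N₀ ≤ A.card → ((heavyScales A r).card : ℝ) ≤ δ * Real.log A.card →
      (4 / Real.pi ^ 2 - ε) * Real.log A.card ≤ ∫ x in (0:ℝ)..1, ‖∑ a ∈ A, E a x‖ := by
  set θ := min (ε / 9) (1 / 100) with hθ
  have hθ0 : 0 < θ := lt_min (by positivity) (by norm_num)
  have hθ1 : θ ≤ 1 / 100 := min_le_right _ _
  have hθε : 9 * θ ≤ ε := by
    have := min_le_left (ε / 9) (1 / 100); linarith
  obtain ⟨r, N₀, h⟩ := trim_theta hθ0 hθ1
  refine ⟨r, θ, hθ0, N₀, fun A hA hh => ?_⟩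
  refine le_trans ?_ (h A hA hh)
  refine mul_le_mul_of_nonneg_right (by linarith) ?_
  exact Real.log_natCast_nonneg _

end Pool.Agent.Littlewood
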